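import Pool.Agent.Lib.MP_2c6f70_nt.KW.Defs
import Pool.Agent.Lib.MP_2c6f70_nt.AsyB
import Pool.Agent.Lib.MP_2c6f70_nt.AsyC
import Pool.Agent.Lib.MP_2c6f70_nt.TwentyFour
import Pool.Agent.Lib.MP_2c6f70_nt.Root

/-!
# Facts about large counterexamples from the first part
-/

set_option autoImplicit false

namespace Pool.Agent.Lib.MP_2c6f70_nt.KW

open Necdea073

/-- The set of roots. -/
theorem exists_rts (N q a : ℕ) (hq : 1 ≤ q) : ∃ S : Finset ℕ, Rts q a N S ∧ S.card = Q N q a := by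
  classical
  let T : Finset ℕ := (Finset.range N).filter fun n => IsSquare (q * n + a)
  have hT : ∀ n ∈ T, n < N ∧ Nat.sqrt (q * n + a) ^ 2 = q * n + a := by
    intro n hn
    rw [Finset.mem_filter, Finset.mem_range] at hn
    refine ⟨hn.1, ?_⟩
    obtain ⟨r, hr⟩ := hn.2
    rw [hr, Nat.sqrt_eq, sq]
  refine ⟨T.image fun n => Nat.sqrt (q * n + a), ?_, ?_⟩
  · intro x hx
    obtain ⟨n, hn, rfl⟩ := Finset.mem_image.1 hx
    exact ⟨n, (hT n hn).1, by rw [(hT n hn).2, add_comm]⟩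
  · rw [Finset.card_image_of_injOn]
    · unfold Q
      rw [← Set.ncard_coe_finset]
      congr 1
      ext n
      simp [T]
    · intro n hn m hm h
      have h1 := (hT n hn).2
      have h2 := (hT m hm).2
      have h3 : Nat.sqrt (q * n + a) = Nat.sqrt (q * m + a) := h
      rw [h3, h2] at h1
      have h4 : q * m = q * n := by omega
      exact (Nat.eq_of_mul_eq_mul_left hq h4).symm

/-- A counterexample for large `N`: `q ≥ 2`, many squares, many prime factors. -/
theorem big_facts : ∃ N₀ : ℕ, ∀ N ≥ N₀, ∀ q a : ℕ, IsNontrivial q a → Q N 24 1 < Q N q a →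
    2 ≤ q ∧ 3 / 2 * Real.sqrt N ≤ (Q N q a : ℝ) ∧ Real.sqrt N ≤ (q.primeFactors.card : ℝ) := by
  obtain ⟨N₂, h2⟩ := range2
  obtain ⟨N₃, h3⟩ := range3 (1 / 2) (by norm_num)
  refine ⟨max (max N₂ N₃) (201 ^ 4 + 1), ?_⟩
  intro N hN q a hqa hlt
  have hN2 : N₂ ≤ N := by omega
  have hN3 : N₃ ≤ N := by omega
  have hNb : 201 ^ 4 + 1 ≤ N := by omega
  obtain ⟨hq1, ha1, hc, hne⟩ := hqa
  have hq0 : q ≠ 0 := by omega
  have hlow : 3 / 2 * Real.sqrt N ≤ (Q N 24 1 : ℝ) := Q24_ge N (by omega)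
  have hsq : 0 ≤ Real.sqrt N := Real.sqrt_nonneg _
  obtain ⟨S, hS, hcard, hSa⟩ := exists_good N q a hq1 hc
  have hlt' : (Q N 24 1 : ℝ) < S.card := by
    rw [hcard]
    exact_mod_cast hlt
  have h24 : q ≠ 24 := by
    intro h24
    subst h24
    exact absurd (Q24_le N a ha1 hc) (not_le.mpr hlt)
  have hsm' : N < 10000 * q := by
    by_contra hsm
    have := card_le_small hq0 h24 (by omega) hS
    norm_num at this
    linarith
  have hD1 : N < 16 ^ q.primeFactors.card := by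
    by_contra hD1
    have := range1 hq0 hsm' hS (by omega) (by omega)
    linarith
  have hD2 : N < q.primeFactors.card ^ 4 := by
    by_contra hD2
    have := h2 N hN2 q S hq0 hS hD1 (by omega)
    linarith
  have hTD := h3 N hN3 q S hq0 hS hD2
  refine ⟨by omega, ?_, ?_⟩
  · rw [← hcard]
    linarith
  · linarith

end Pool.Agent.Lib.MP_2c6f70_nt.KW
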