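import Pool.Agent.Lib.MP_2c6f70_nt.KW.Mn
import Pool.Agent.Lib.MP_2c6f70_nt.KW.Facts

/-!
# JOB Cor: the strong form for rough moduli

`C = 64000`.  `N` large, `λ = log N` (`λ ≥ 8`, `N^(1/4) ≥ 5`).  Suppose `Q N q a > Q N 24 1`; `big_facts`: `q ≥ 2`, `T = Q N q a ≥ (3/2) sqrt N`; `exists_rts`.
`k = ⌊4 log (17 r) / λ⌋ + 1`, so `k λ / 4 > log (17 r)`.  `log 17 < 3`: `k ≤ (12 + 4 log r) / λ + 1 ≤ 4 (λ + log r) / λ`, and `k ≤ (12 + 4 N^(1/4)) / λ + 1 ≤ N^(1/4)`.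
`Nat.pow_le_choose`: `(T + 1 - k)^k ≤ k! C(T,k) ≤ k^k C(T,k)` (`Nat.factorial_le_pow`), and `T + 1 - k ≥ (3/2) sqrt N - N^(1/4) ≥ sqrt N ≥ k N^(1/4)`, so `C(T,k) ≥ N^(k/4) = exp (k λ / 4) > 17 r`.
Hypothesis of `main_ineq`: `log (8 N) ≤ 2 λ`, `k^2 log (8N) ≤ 32 (λ + log r)^2 / λ`, `2000 * 32 = 64000`.  Conclusion `C(T,k) slw ≤ 17 (log q)^2 ≤ 17 r slw`, `slw > 0` (`slw_pos`): contradiction.
-/

set_option autoImplicit false

namespace Pool.Agent.Lib.MP_2c6f70_nt.KW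

open Necdea073

theorem strong_ineq : ∃ C : ℝ, 0 < C ∧ ∃ N₀ : ℕ, ∀ N ≥ N₀, ∀ r : ℝ, 1 ≤ r →
    Real.log r ≤ (N : ℝ) ^ (1 / 4 : ℝ) → ∀ q a : ℕ, IsNontrivial q a →
    Real.log q ^ 2 ≤ r * slw q →
    C * (Real.log N + Real.log r) ^ 2 * Real.log q ≤ Real.log N * slw q →
    Q N q a ≤ Q N 24 1 := by
  obtain ⟨N₁, h1⟩ := big_facts
  refine ⟨64000, by norm_num, max N₁ 3000, ?_⟩
  intro N hN r hr hrN q a hqa hsl hC
  by_contra hlt
  rw [not_le] at hlt
  have hNN : N₁ ≤ N := le_trans (le_max_left _ _) hN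
  have hN3 : 3000 ≤ N := le_trans (le_max_right _ _) hN
  obtain ⟨hq2, hT, -⟩ := h1 N hNN q a hqa hlt
  obtain ⟨hq1, ha1, hc, -⟩ := hqa
  obtain ⟨S, hS, hcard⟩ := exists_rts N q a (by omega)
  have hNr : (3000 : ℝ) ≤ N := by exact_mod_cast hN3
  have hN0 : (0 : ℝ) < N := by linarith
  -- the fourth root
  obtain ⟨x, hx⟩ : ∃ x : ℝ, x = (N : ℝ) ^ (1 / 4 : ℝ) := ⟨_, rfl⟩
  have hx0 : 0 < x := by rw [hx]; positivity
  have hx4 : x ^ 4 = N := by
    rw [hx, ← Real.rpow_natCast, ← Real.rpow_mul hN0.le]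
    norm_num
  have hx2 : Real.sqrt N = x ^ 2 := by
    rw [← hx4, show x ^ 4 = (x ^ 2) ^ 2 by ring, Real.sqrt_sq (by positivity)]
  have hx5 : 5 ≤ x := by
    by_contra h
    rw [not_le] at h
    have h2 : x ^ 4 ≤ 5 ^ 4 := pow_le_pow_left₀ hx0.le h.le 4
    rw [hx4] at h2
    norm_num at h2
    linarith
  obtain ⟨lam, hlam⟩ : ∃ lam : ℝ, lam = Real.log N := ⟨_, rfl⟩
  have hlamx : Real.log x = lam / 4 := by
    rw [hlam, ← hx4, Real.log_pow]
    push_cast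
    ring
  have hlam8 : 8 ≤ lam := by
    rw [hlam, Real.le_log_iff_exp_le hN0]
    have h2 : Real.exp 8 = Real.exp 1 ^ 8 := by
      rw [← Real.exp_nat_mul]
      norm_num
    rw [h2]
    have h3 : Real.exp 1 ^ 8 ≤ (2.7182818286 : ℝ) ^ 8 :=
      pow_le_pow_left₀ (Real.exp_pos 1).le Real.exp_one_lt_d9.le 8
    refine le_trans h3 (le_trans ?_ hNr)
    norm_num
  have hlam0 : 0 < lam := by linarith
  rw [← hlam] at hC
  rw [← hx] at hrN
  have hr0 : 0 < r := by linarith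
  have hlr : 0 ≤ Real.log r := Real.log_nonneg hr
  have hlog17 : Real.log 17 ≤ 3 := by
    rw [Real.log_le_iff_le_exp (by norm_num)]
    have h2 : Real.exp 3 = Real.exp 1 ^ 3 := by
      rw [← Real.exp_nat_mul]
      norm_num
    rw [h2]
    have h3 : (2.7182818283 : ℝ) ^ 3 ≤ Real.exp 1 ^ 3 :=
      pow_le_pow_left₀ (by norm_num) Real.exp_one_gt_d9.le 3
    refine le_trans ?_ h3
    norm_num
  obtain ⟨L, hL⟩ : ∃ L : ℝ, L = Real.log (17 * r) := ⟨_, rfl⟩
  have hLe : L = Real.log 17 + Real.log r := by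
    rw [hL, Real.log_mul (by norm_num) hr0.ne']
  have hL0 : 0 ≤ L := by
    rw [hLe]
    have : 0 ≤ Real.log 17 := Real.log_nonneg (by norm_num)
    linarith
  obtain ⟨k, hk⟩ : ∃ k : ℕ, k = ⌊4 * L / lam⌋₊ + 1 := ⟨_, rfl⟩
  have hk1 : 1 ≤ k := by omega
  have hkpos : (0 : ℝ) < k := by exact_mod_cast hk1
  have hdiv0 : 0 ≤ 4 * L / lam := by positivity
  have hklow : 4 * L / lam < k := by
    rw [hk]
    push_cast
    exact Nat.lt_floor_add_one _
  have hkup : (k : ℝ) ≤ 4 * L / lam + 1 := by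
    rw [hk]
    push_cast
    have := Nat.floor_le hdiv0
    linarith
  have hkl : (k : ℝ) * lam ≤ 4 * L + lam := by
    have h2 := mul_le_mul_of_nonneg_right hkup hlam0.le
    have h3 : (4 * L / lam + 1) * lam = 4 * L + lam := by
      field_simp
    linarith
  have hkl2 : 4 * L < k * lam := by
    rw [div_lt_iff₀ hlam0] at hklow
    exact hklow
  -- `k λ ≤ 4 (λ + log r)`
  have hkA : (k : ℝ) * lam ≤ 4 * (lam + Real.log r) := by linarith
  -- `k ≤ x`
  have hkx : (k : ℝ) ≤ x := by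
    by_contra h
    rw [not_le] at h
    have h2 : x * lam < k * lam := mul_lt_mul_of_pos_right h hlam0
    have h3 : x * lam ≤ 12 + 4 * x + lam := by linarith
    have h4 : 0 ≤ (x - 1) * (lam - 8) := mul_nonneg (by linarith) (by linarith)
    linarith
  -- the binomial coefficient
  have hTx : 3 / 2 * x ^ 2 ≤ (S.card : ℝ) := by
    rw [hcard, ← hx2]
    exact hT
  have hxx : x ≤ x ^ 2 / 2 := by
    have h2 : 5 * x ≤ x * x := mul_le_mul_of_nonneg_right hx5 hx0.le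
    linarith
  have hkS : k ≤ S.card := by
    have h2 : (k : ℝ) ≤ (S.card : ℝ) := by
      have h3 : 0 ≤ x ^ 2 := by positivity
      linarith
    exact_mod_cast h2
  have hbase : (k : ℝ) * x ≤ ((S.card + 1 - k : ℕ) : ℝ) := by
    rw [Nat.cast_sub (by omega)]
    push_cast
    have h2 : (k : ℝ) * x ≤ x * x := mul_le_mul_of_nonneg_right hkx hx0.le
    have h3 : x * x = x ^ 2 := by ring
    linarith
  have hch : 17 * r < (S.card.choose k : ℝ) := by
    have h2 : (((S.card + 1 - k : ℕ) : ℝ) ^ k) / (k.factorial : ℝ) ≤ (S.card.choose k : ℝ) :=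
      Nat.pow_le_choose (α := ℝ) k S.card
    have hf0 : (0 : ℝ) < (k.factorial : ℝ) := by exact_mod_cast k.factorial_pos
    have hf1 : (k.factorial : ℝ) ≤ (k : ℝ) ^ k := by exact_mod_cast k.factorial_le_pow
    rw [div_le_iff₀ hf0] at h2
    have hkk : (0 : ℝ) < (k : ℝ) ^ k := pow_pos hkpos k
    have h3 : ((k : ℝ) * x) ^ k ≤ ((S.card + 1 - k : ℕ) : ℝ) ^ k :=
      pow_le_pow_left₀ (by positivity) hbase k
    have hc0 : (0 : ℝ) ≤ (S.card.choose k : ℝ) := Nat.cast_nonneg _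
    have h4 : (S.card.choose k : ℝ) * (k.factorial : ℝ) ≤ (S.card.choose k : ℝ) * (k : ℝ) ^ k :=
      mul_le_mul_of_nonneg_left hf1 hc0
    have h5 : (k : ℝ) ^ k * x ^ k ≤ (k : ℝ) ^ k * (S.card.choose k : ℝ) := by
      rw [← mul_pow, mul_comm ((k : ℝ) ^ k) (S.card.choose k : ℝ)]
      linarith
    have h6 : x ^ k ≤ (S.card.choose k : ℝ) := le_of_mul_le_mul_left h5 hkk
    refine lt_of_lt_of_le ?_ h6
    have h7 : 0 < 17 * r := by positivity
    rw [← Real.log_lt_log_iff h7 (pow_pos hx0 k), Real.log_pow, hlamx, ← hL]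
    linarith
  -- the main inequality
  have hlog8 : Real.log (8 * N) ≤ 2 * lam := by
    rw [Real.log_mul (by norm_num) hN0.ne', ← hlam]
    have h2 : Real.log 8 ≤ 7 := by
      have := Real.log_le_sub_one_of_pos (show (0 : ℝ) < 8 by norm_num)
      linarith
    linarith
  have hq0 : (1 : ℝ) < q := by
    have : (2 : ℝ) ≤ q := by exact_mod_cast hq2
    linarith
  have hlq : 0 < Real.log q := Real.log_pos hq0
  have hmain : 2000 * (k : ℝ) ^ 2 * Real.log (8 * N) * Real.log q ≤ slw q := by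
    have h2 : 2000 * (k : ℝ) ^ 2 * Real.log (8 * N) * Real.log q
        ≤ 2000 * (k : ℝ) ^ 2 * (2 * lam) * Real.log q := by
      refine mul_le_mul_of_nonneg_right ?_ hlq.le
      exact mul_le_mul_of_nonneg_left hlog8 (by positivity)
    refine le_trans h2 ?_
    have h3 : ((k : ℝ) * lam) ^ 2 ≤ (4 * (lam + Real.log r)) ^ 2 :=
      pow_le_pow_left₀ (by positivity) hkA 2
    have h4 : 4000 * ((k : ℝ) * lam) ^ 2 * Real.log q
        ≤ 4000 * (4 * (lam + Real.log r)) ^ 2 * Real.log q := by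
      refine mul_le_mul_of_nonneg_right ?_ hlq.le
      exact mul_le_mul_of_nonneg_left h3 (by norm_num)
    have h5 : 4000 * (4 * (lam + Real.log r)) ^ 2 * Real.log q
        = 64000 * (lam + Real.log r) ^ 2 * Real.log q := by ring
    have h6 : lam * (2000 * (k : ℝ) ^ 2 * (2 * lam) * Real.log q) ≤ lam * slw q := by
      have h7 : lam * (2000 * (k : ℝ) ^ 2 * (2 * lam) * Real.log q)
          = 4000 * ((k : ℝ) * lam) ^ 2 * Real.log q := by ring
      rw [h7]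
      linarith
    exact le_of_mul_le_mul_left h6 hlam0
  have hfin := main_ineq (by omega : 1 ≤ q) ha1 hc hS hk1 hmain
  have hsp : 0 < slw q := slw_pos (by omega)
  have h8 : (S.card.choose k : ℝ) * slw q ≤ 17 * r * slw q := by linarith
  have h9 := le_of_mul_le_mul_right h8 hsp
  linarith

end Pool.Agent.Lib.MP_2c6f70_nt.KW
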