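import Pool.Agent.Lib.MP_2c6f70_nt.KW.Hom

/-!
Roots and indices, elementary facts
-/

set_option autoImplicit false

namespace Pool.Agent.Lib.MP_2c6f70_nt.KW

open Polynomial

/-- `x^2 = a + q nn`. -/
theorem nn_spec {q a N : ℕ} {S : Finset ℕ} (hq : 1 ≤ q) (hS : Rts q a N S) {x : ℕ} (hx : x ∈ S) :
    x ^ 2 = a + q * nn q a x ∧ nn q a x < N := by
  obtain ⟨n, hn, h⟩ := hS x hx
  have h1 : nn q a x = n := by
    unfold nn
    rw [h, Nat.add_sub_cancel_left]
    exact Nat.mul_div_cancel_left n hq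
  rw [h1]
  exact ⟨h, hn⟩

theorem nn_inj {q a N : ℕ} {S : Finset ℕ} (hq : 1 ≤ q) (hS : Rts q a N S) :
    Set.InjOn (nn q a) (S : Set ℕ) := by
  intro x hx y hy h
  have h1 := (nn_spec hq hS hx).1
  have h2 := (nn_spec hq hS hy).1
  rw [h, ← h2] at h1
  exact Nat.pow_left_injective (by norm_num : (2 : ℕ) ≠ 0) h1

/-- The roots form a good set in the sense of the first part (`x` is coprime to `q` because `gcd (x, q)` divides `a`). -/
theorem good_of_rts {q a N : ℕ} {S : Finset ℕ} (hq : 1 ≤ q) (hc : Nat.Coprime q a) (hS : Rts q a N S) :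
    Good q N S := by
  constructor
  · intro x hx
    have h1 := (nn_spec hq hS hx).1
    have h2 : Nat.Coprime (a + q * nn q a x) q :=
      (Nat.coprime_add_mul_left_left a q (nn q a x)).2 hc.symm
    rw [← h1] at h2
    exact Nat.Coprime.coprime_dvd_left (dvd_pow_self x (by norm_num)) h2
  · intro x hx y hy hxy
    obtain ⟨h1, h1'⟩ := nn_spec hq hS hx
    obtain ⟨h2, h2'⟩ := nn_spec hq hS hy
    have h3 : x ^ 2 ≤ y ^ 2 := Nat.pow_le_pow_left hxy 2
    rw [h1, h2] at h3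
    have h4 : nn q a x ≤ nn q a y := by
      have h5 : q * nn q a x ≤ q * nn q a y := by omega
      exact Nat.le_of_mul_le_mul_left h5 hq
    refine ⟨nn q a y - nn q a x, ?_, by omega⟩
    rw [h1, h2, Nat.mul_sub]
    have h5 : q * nn q a x ≤ q * nn q a y := Nat.mul_le_mul_left q h4
    omega

theorem DD_natDegree_le (q a : ℕ) (J : Finset ℕ) : (DD q a J).natDegree ≤ J.card := by
  unfold DD
  refine (natDegree_prod_le _ _).trans ?_
  have h : ∀ x ∈ J, (1 + C (4 * (nn q a x : ℤ)) * X : ℤ[X]).natDegree ≤ 1 := by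
    intro x _
    refine (natDegree_add_le _ _).trans (max_le ?_ ?_)
    · rw [natDegree_one]
      exact Nat.zero_le _
    · exact (natDegree_C_mul_le _ _).trans natDegree_X_le
  refine (Finset.sum_le_sum h).trans ?_
  rw [Finset.sum_const, smul_eq_mul, mul_one]

/-- `(4^j ∏ x)^2 = ∏ (4 a + 4 n_x q)`, `J.card = 2 j`. -/
theorem sq_prod {q a N j : ℕ} {S J : Finset ℕ} (hq : 1 ≤ q) (ha : 1 ≤ a) (hS : Rts q a N S)
    (hJ : J ⊆ S) (hJc : J.card = 2 * j) :
    ((4 : ℤ) ^ j * ∏ x ∈ J, (x : ℤ)) ^ 2 = hom (DD q a J) (2 * j) (4 * (a : ℤ)) q := by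
  have h := hom_prod J (fun x => 4 * (nn q a x : ℤ)) (u := 4 * (a : ℤ)) (by positivity) q
  rw [hJc] at h
  have h1 : hom (DD q a J) (2 * j) (4 * (a : ℤ)) q =
      ∏ x ∈ J, (4 * (a : ℤ) + 4 * (nn q a x : ℤ) * q) := h
  have h2 : ∏ x ∈ J, (4 * (a : ℤ) + 4 * (nn q a x : ℤ) * q) = ∏ x ∈ J, (4 * (x : ℤ) ^ 2) := by
    refine Finset.prod_congr rfl fun x hx => ?_
    have h3 : (x : ℤ) ^ 2 = a + q * nn q a x := by
      exact_mod_cast (nn_spec hq hS (hJ hx)).1
    rw [h3]
    ring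
  rw [h1, h2, Finset.prod_mul_distrib, Finset.prod_const, hJc, Finset.prod_pow, mul_pow]
  ring

/-- The same with `q = 4 q'`: `(∏ x)^2 = ∏ (a + 4 n_x q')`. -/
theorem sq_prod' {q q' a N j : ℕ} {S J : Finset ℕ} (hq : 1 ≤ q) (hq' : q = 4 * q') (ha : 1 ≤ a)
    (hS : Rts q a N S) (hJ : J ⊆ S) (hJc : J.card = 2 * j) :
    (∏ x ∈ J, (x : ℤ)) ^ 2 = hom (DD q a J) (2 * j) (a : ℤ) q' := by
  have h := hom_prod J (fun x => 4 * (nn q a x : ℤ)) (u := (a : ℤ)) (by positivity) q'
  rw [hJc] at h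
  have h1 : hom (DD q a J) (2 * j) (a : ℤ) q' =
      ∏ x ∈ J, ((a : ℤ) + 4 * (nn q a x : ℤ) * q') := h
  have h2 : ∏ x ∈ J, ((a : ℤ) + 4 * (nn q a x : ℤ) * q') = ∏ x ∈ J, (x : ℤ) ^ 2 := by
    refine Finset.prod_congr rfl fun x hx => ?_
    have h3 : (x : ℤ) ^ 2 = a + q * nn q a x := by
      exact_mod_cast (nn_spec hq hS (hJ hx)).1
    have h4 : (q : ℤ) = 4 * q' := by exact_mod_cast hq'
    rw [h3, h4]
    ring
  rw [h1, h2, Finset.prod_pow]

/-- `x ≡ sg z` modulo `md q p` for all `x ∈ S`, so the product is congruent to `(∏ sg) z^(2j)`, and `z^2 ≡ a (mod q)`.  `ε = ∏ sg = ± 1`;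
`md_dvd_or`, `sg` (`Sg.lean`); `md q p ∣ q`. -/
theorem prod_congr {q a N j : ℕ} {S J : Finset ℕ} (hq : 1 ≤ q) (hc : Nat.Coprime q a) (hS : Rts q a N S)
    (hJ : J ⊆ S) (hJc : J.card = 2 * j) {z : ℕ} (hz : z ∈ S) {p : ℕ} (hp : p ∈ q.primeFactors)
    (ε : ℤ) (hε : ε = 1 ∨ ε = -1) (h : ∏ x ∈ J, sg q z p x = (ε : ℝ)) :
    (md q p : ℤ) ∣ ε * ∏ x ∈ J, (x : ℤ) - (a : ℤ) ^ j := by
  classical
  have hG := good_of_rts hq hc hS
  set M := md q p with hM
  have hq0 : q ≠ 0 := by omega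
  have hMq : M ∣ q := by
    obtain ⟨k, _, hk, e⟩ := md_eq_pow hp
    rw [hM, e]
    exact (pow_dvd_pow p hk).trans (Nat.ordProj_dvd q p)
  -- the signs
  have hτ : ∀ x : ℕ, ∃ t : ℤ, (t : ℝ) = sg q z p x ∧ (x ∈ J → ((x : ℤ) : ZMod M) = t * z) := by
    intro x
    by_cases h1 : (M : ℤ) ∣ (x : ℤ) - z
    · refine ⟨1, ?_, fun _ => ?_⟩
      · unfold sg
        rw [if_pos h1]
        norm_num
      · have h2 := (ZMod.intCast_zmod_eq_zero_iff_dvd _ _).2 h1
        push_cast at h2 ⊢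
        linear_combination h2
    · refine ⟨-1, ?_, fun hx => ?_⟩
      · unfold sg
        rw [if_neg h1]
        norm_num
      · have h3 := (md_dvd_or hG (hJ hx) hz hp).resolve_left h1
        have h2 := (ZMod.intCast_zmod_eq_zero_iff_dvd _ _).2 h3
        push_cast at h2 ⊢
        linear_combination h2
  choose τ hτ1 hτ2 using hτ
  have h3 : ∏ x ∈ J, τ x = ε := by
    have h4 : ((∏ x ∈ J, τ x : ℤ) : ℝ) = (ε : ℝ) := by
      rw [← h]
      push_cast
      exact Finset.prod_congr rfl fun x _ => hτ1 x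
    exact_mod_cast h4
  have h5 : ((∏ x ∈ J, (x : ℤ) : ℤ) : ZMod M) = ε * (z : ZMod M) ^ (2 * j) := by
    have h6 : ((∏ x ∈ J, (x : ℤ) : ℤ) : ZMod M) = ∏ x ∈ J, ((τ x : ZMod M) * z) := by
      rw [Int.cast_prod]
      exact Finset.prod_congr rfl fun x hx => hτ2 x hx
    rw [h6, Finset.prod_mul_distrib, Finset.prod_const, hJc, ← h3]
    push_cast
    rfl
  have h7 : (z : ZMod M) ^ 2 = a := by
    have h8 : (z : ℤ) ^ 2 = a + q * nn q a z := by
      exact_mod_cast (nn_spec hq hS hz).1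
    have h9 := congrArg (Int.cast : ℤ → ZMod M) h8
    push_cast at h9
    have h10 : (q : ZMod M) = 0 := (ZMod.natCast_eq_zero_iff _ _).2 hMq
    rw [h10, zero_mul, add_zero] at h9
    exact h9
  have h11 : (ε : ZMod M) * ε = 1 := by
    rcases hε with rfl | rfl <;> push_cast <;> ring
  rw [← ZMod.intCast_zmod_eq_zero_iff_dvd]
  rw [Int.cast_sub, Int.cast_mul, h5, pow_mul, h7]
  push_cast
  linear_combination (a : ZMod M) ^ j * h11

theorem mr_pos {q p : ℕ} (hp : p ∈ q.primeFactors) : 1 ≤ mr q p := by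
  have h := (Nat.prime_of_mem_primeFactors hp).pos
  unfold mr
  split_ifs
  · exact le_rfl
  · exact Nat.one_le_two_pow
  · exact Nat.one_le_pow _ _ h

/-- `∏ mr` over all primes divides `q` and is at least `q / 8`. -/
theorem prod_mr_le {q : ℕ} (hq : q ≠ 0) :
    ∏ p ∈ q.primeFactors, mr q p ≤ q ∧ q ≤ 8 * ∏ p ∈ q.primeFactors, mr q p := by
  have hprod := Md_prod hq
  have hodd : ∀ p, p ≠ 2 → mr q p = p ^ q.factorization p := by
    intro p h2
    unfold mr
    rw [if_neg h2]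
  have h2a : mr q 2 ≤ 2 ^ q.factorization 2 ∧ 2 ^ q.factorization 2 ≤ 8 * mr q 2 := by
    unfold mr
    rw [if_pos rfl]
    split_ifs with h
    · refine ⟨Nat.one_le_two_pow, ?_⟩
      calc 2 ^ q.factorization 2 ≤ 2 ^ 3 := Nat.pow_le_pow_right (by norm_num) h
        _ = 8 * 1 := by norm_num
    · obtain ⟨k, hk⟩ : ∃ k, q.factorization 2 = k + 2 := ⟨q.factorization 2 - 2, by omega⟩
      rw [hk, Nat.add_sub_cancel, pow_add]
      have h5 : 0 < 2 ^ k := by positivity
      omega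
  by_cases h2 : 2 ∈ q.primeFactors
  · have e1 := Finset.mul_prod_erase q.primeFactors (fun p => mr q p) h2
    have e2 := Finset.mul_prod_erase q.primeFactors (fun p => p ^ q.factorization p) h2
    have e3 : ∏ p ∈ q.primeFactors.erase 2, mr q p =
        ∏ p ∈ q.primeFactors.erase 2, p ^ q.factorization p :=
      Finset.prod_congr rfl fun p hp => hodd p (Finset.ne_of_mem_erase hp)
    rw [hprod] at e2
    rw [← e1, e3]
    constructor
    · calc mr q 2 * ∏ p ∈ q.primeFactors.erase 2, p ^ q.factorization p ≤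
          2 ^ q.factorization 2 * ∏ p ∈ q.primeFactors.erase 2, p ^ q.factorization p :=
            Nat.mul_le_mul_right _ h2a.1
        _ = q := e2
    · calc q = 2 ^ q.factorization 2 * ∏ p ∈ q.primeFactors.erase 2, p ^ q.factorization p :=
            e2.symm
        _ ≤ (8 * mr q 2) * ∏ p ∈ q.primeFactors.erase 2, p ^ q.factorization p :=
            Nat.mul_le_mul_right _ h2a.2
        _ = 8 * (mr q 2 * ∏ p ∈ q.primeFactors.erase 2, p ^ q.factorization p) := by ring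
  · have e3 : ∏ p ∈ q.primeFactors, mr q p = ∏ p ∈ q.primeFactors, p ^ q.factorization p :=
      Finset.prod_congr rfl fun p hp => hodd p (fun h => h2 (h ▸ hp))
    rw [e3, hprod]
    omega

/-- `log p^e ≤ log mr + log 8` for `p = 2`, equality for odd `p`: `(log p^e)^2 ≤ 2 (log mr)^2 + 2 (log 8)^2` for `p = 2`, `(log 8)^2 ≤ 4.4`
(`log 2 < 0.6931471808`). -/
theorem slw_le (q : ℕ) : slw q ≤ 2 * ∑ p ∈ q.primeFactors, Real.log (mr q p) ^ 2 + 9 := by
  unfold slw
  have hterm : ∀ p ∈ q.primeFactors, Real.log ((p : ℝ) ^ q.factorization p) ^ 2 ≤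
      2 * Real.log (mr q p) ^ 2 + (if p = 2 then 9 else 0) := by
    intro p hp
    by_cases h2 : p = 2
    · subst h2
      rw [if_pos rfl]
      have hl := Real.log_two_lt_d9
      have hl0 : 0 < Real.log 2 := Real.log_pos (by norm_num)
      have hl2 : Real.log 2 ^ 2 ≤ 0.5 := by nlinarith
      unfold mr
      rw [if_pos rfl]
      split_ifs with h
      · rw [Real.log_pow]
        have h3 : (q.factorization 2 : ℝ) ≤ 3 := by exact_mod_cast h
        have h4 : (q.factorization 2 : ℝ) ^ 2 ≤ 9 := by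
          have h5 : (0 : ℝ) ≤ q.factorization 2 := Nat.cast_nonneg _
          nlinarith
        push_cast
        rw [mul_pow, Real.log_one]
        nlinarith [sq_nonneg (Real.log 2)]
      · obtain ⟨k, hk⟩ : ∃ k, q.factorization 2 = k + 2 := ⟨q.factorization 2 - 2, by omega⟩
        rw [hk, Nat.add_sub_cancel]
        push_cast
        rw [Real.log_pow, Real.log_pow]
        push_cast
        have h6 := sq_nonneg ((k : ℝ) * Real.log 2 - 2 * Real.log 2)
        nlinarith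
    · rw [if_neg h2, add_zero]
      have h3 : (mr q p : ℝ) = (p : ℝ) ^ q.factorization p := by
        unfold mr
        rw [if_neg h2]
        push_cast
        rfl
      rw [h3]
      nlinarith [sq_nonneg (Real.log ((p : ℝ) ^ q.factorization p))]
  refine (Finset.sum_le_sum hterm).trans ?_
  rw [Finset.sum_add_distrib, ← Finset.mul_sum]
  have h5 : ∑ p ∈ q.primeFactors, (if p = 2 then (9 : ℝ) else 0) ≤ 9 := by
    rw [Finset.sum_ite_eq']
    split_ifs
    · exact le_rfl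
    · norm_num
  linarith

/-- `∑ (log p^e)^2 ≤ (∑ log p^e)^2 = (log q)^2`, and `slw q > 0` for `q ≥ 2`. -/
theorem slw_le_sq {q : ℕ} (hq : q ≠ 0) : slw q ≤ Real.log q ^ 2 := by
  have h1 : ∀ p ∈ q.primeFactors, 0 ≤ Real.log ((p : ℝ) ^ q.factorization p) := by
    intro p hp
    have h2 : (1 : ℝ) ≤ p := by
      exact_mod_cast (Nat.prime_of_mem_primeFactors hp).one_le
    exact Real.log_nonneg (one_le_pow₀ h2)
  have h2 : Real.log q = ∑ p ∈ q.primeFactors, Real.log ((p : ℝ) ^ q.factorization p) := by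
    rw [← Real.log_prod]
    · congr 1
      exact_mod_cast (Md_prod hq).symm
    · intro p hp
      have h3 : (p : ℝ) ≠ 0 := by
        exact_mod_cast (Nat.prime_of_mem_primeFactors hp).ne_zero
      exact pow_ne_zero _ h3
  rw [h2]
  unfold slw
  exact Finset.sum_sq_le_sq_sum_of_nonneg h1

theorem slw_pos {q : ℕ} (hq : 2 ≤ q) : 0 < slw q := by
  unfold slw
  refine Finset.sum_pos ?_ (Nat.nonempty_primeFactors.2 (by omega))
  intro p hp
  have h2 : (1 : ℝ) < p := by
    exact_mod_cast (Nat.prime_of_mem_primeFactors hp).one_lt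
  have h3 := Md_fact_pos hp
  have h4 : 0 < Real.log ((p : ℝ) ^ q.factorization p) :=
    Real.log_pos (one_lt_pow₀ h2 (by omega))
  positivity

end Pool.Agent.Lib.MP_2c6f70_nt.KW
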