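import Pool.Agent.Lib.MP_2c6f70_nt.KW.Loc
import Pool.Agent.Lib.MP_2c6f70_nt.KW.Idx

/-!
Divisibility of `FF` by the product of the moduli of one type

For every `p ∈ P` we show `mr q p ^ m ∣ 2 FF`, `m = 2 K + j + 1`; the moduli are pairwise coprime, so the product of the powers divides
(`Finset.prod_dvd_of_coprime` or `Finset.prod_dvd_of_isRelPrime`, over `ℤ`).

Odd `p`: `loc_dvd` with `E = q.factorization p ≥ 1`, `u = 4 a`, `v = q`, `Y = ε 4^j ∏ x`: `Y^2` is `sq_prod` (`ε^2 = 1`), `p ∤ 4 a`, and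
`Y - u^j = 4^j (ε ∏ x - a^j)` is divisible by `p^E = md q p` (`prod_congr`).

`p = 2`, exponent at most `3`: `mr q 2 = 1`.

`p = 2`, exponent `e ≥ 4`: `q = 4 q'`; `FF A B K j (4 a) (4 q') (4^j Y') = 4^(K+j) FF A B K j a q' Y'` by `hom_smul` (`Y' = ε ∏ x`);
`loc_dvd` with `E = e - 2 ≥ 2`, `u = a` odd, `v = q'`, `Y = Y'`: `sq_prod'`, `2^(e-2) ∣ md q 2 = 2^(e-1) ∣ ε ∏ x - a^j`.
-/

set_option autoImplicit false

namespace Pool.Agent.Lib.MP_2c6f70_nt.KW

open Polynomial

theorem glob_dvd {q a N j K H : ℕ} {S J : Finset ℕ} {g : PowerSeries ℤ} {A B : ℤ[X]} (hq : 1 ≤ q)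
    (ha : 1 ≤ a) (hc : Nat.Coprime q a) (hS : Rts q a N S) (hJ : J ⊆ S) (hJc : J.card = 2 * j)
    {z : ℕ} (hz : z ∈ S) (hgD : g ^ 2 = (DD q a J : PowerSeries ℤ)) (hg0 : PowerSeries.coeff 0 g = 1)
    (hP : IsPade g K j H A B) (ε : ℤ) (hε : ε = 1 ∨ ε = -1) (P : Finset ℕ) (hPq : P ⊆ q.primeFactors)
    (h : ∀ p ∈ P, ∏ x ∈ J, sg q z p x = (ε : ℝ)) :
    ((∏ p ∈ P, mr q p : ℕ) : ℤ) ^ (2 * K + j + 1) ∣
      2 * FF A B K j (4 * (a : ℤ)) q (ε * (4 ^ j * ∏ x ∈ J, (x : ℤ))) := by
  classical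
  have key : ∀ p ∈ P, (mr q p : ℤ) ^ (2 * K + j + 1) ∣
      2 * FF A B K j (4 * (a : ℤ)) q (ε * (4 ^ j * ∏ x ∈ J, (x : ℤ))) := by
    intro p hpP
    have hp := hPq hpP
    have hpp := Nat.prime_of_mem_primeFactors hp
    have hpq := Nat.dvd_of_mem_primeFactors hp
    have hE := Md_fact_pos hp
    have hcong := prod_congr hq hc hS hJ hJc hz hp ε hε (h p hpP)
    have hpa : ¬ (p : ℤ) ∣ (a : ℤ) := by
      intro hd
      have h1 : p ∣ a := Int.natCast_dvd_natCast.mp hd
      have h2 := Nat.dvd_gcd hpq h1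
      rw [hc] at h2
      exact hpp.one_lt.ne' (Nat.dvd_one.mp h2)
    have hε2 : ε ^ 2 = 1 := by
      rcases hε with rfl | rfl <;> norm_num
    have hpi : Prime (p : ℤ) := Nat.prime_iff_prime_int.mp hpp
    by_cases h2 : p = 2
    · subst h2
      by_cases h3 : q.factorization 2 ≤ 3
      · have h4 : mr q 2 = 1 := by
          unfold mr
          rw [if_pos rfl, if_pos h3]
        rw [h4, Nat.cast_one, one_pow]
        exact one_dvd _
      · obtain ⟨e, he⟩ : ∃ e, q.factorization 2 = e + 2 := ⟨q.factorization 2 - 2, by omega⟩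
        have h4 : mr q 2 = 2 ^ e := by
          unfold mr
          rw [if_pos rfl, if_neg h3, he, Nat.add_sub_cancel]
        have h5 : 2 ^ (e + 2) ∣ q := by
          rw [← he]
          exact Nat.ordProj_dvd q 2
        obtain ⟨q', hq'⟩ : 4 ∣ q := by
          refine dvd_trans ?_ h5
          rw [pow_add]
          exact Dvd.intro_left _ rfl
        have h6 : 2 ^ e ∣ q' := by
          rw [hq', pow_add] at h5
          have h7 : 4 * 2 ^ e ∣ 4 * q' := by
            have h8 : 2 ^ e * 2 ^ 2 = 4 * 2 ^ e := by ring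
            rwa [h8] at h5
          exact Nat.dvd_of_mul_dvd_mul_left (by norm_num) h7
        have hFF : FF A B K j (4 * (a : ℤ)) q (ε * (4 ^ j * ∏ x ∈ J, (x : ℤ))) =
            4 ^ (K + j) * FF A B K j (a : ℤ) q' (ε * ∏ x ∈ J, (x : ℤ)) := by
          unfold FF
          have h9 : (q : ℤ) = 4 * q' := by exact_mod_cast hq'
          rw [h9, hom_smul, hom_smul, pow_add]
          ring
        have hmd : (2 : ℤ) ^ e ∣ ε * ∏ x ∈ J, (x : ℤ) - (a : ℤ) ^ j := by
          refine dvd_trans ?_ hcong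
          have h10 : md q 2 = 2 ^ (e + 1) := by
            unfold md
            rw [if_pos rfl, if_neg (by omega), he]
            rfl
          rw [h10]
          push_cast
          exact pow_dvd_pow 2 (Nat.le_succ e)
        have hloc := loc_dvd (p := 2) (E := e) (K := K) (j := j) (H := H) (g := g)
          (D := DD q a J) (A := A) (B := B) hpp hgD
          ((DD_natDegree_le q a J).trans hJc.le) hg0 hP (u := (a : ℤ)) (v := (q' : ℤ))
          (Y := ε * ∏ x ∈ J, (x : ℤ)) (by
            rw [mul_pow, hε2, one_mul]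
            exact sq_prod' hq hq' ha hS hJ hJc) (by omega) (fun _ => by omega)
          (by exact_mod_cast h6) hpa (by exact_mod_cast hmd)
        rw [hFF, h4]
        have h11 : ((2 ^ e : ℕ) : ℤ) ^ (2 * K + j + 1) =
            ((2 : ℕ) : ℤ) ^ (e * (2 * K + j + 1)) := by
          push_cast
          rw [pow_mul]
        rw [h11]
        refine hloc.trans ?_
        exact ⟨4 ^ (K + j), by ring⟩
    · have h4 : mr q p = p ^ q.factorization p := by
        unfold mr
        rw [if_neg h2]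
      have h5 : md q p = p ^ q.factorization p := by
        unfold md
        rw [if_neg h2]
      have hp4 : ¬ (p : ℤ) ∣ 4 * (a : ℤ) := by
        intro hd
        rcases hpi.dvd_or_dvd hd with h6 | h6
        · have h7 : p ∣ 4 := by exact_mod_cast h6
          have h8 : p ∣ 2 ^ 2 := by
            norm_num
            exact h7
          exact h2 ((Nat.prime_dvd_prime_iff_eq hpp Nat.prime_two).mp (hpp.dvd_of_dvd_pow h8))
        · exact hpa h6
      have hloc := loc_dvd (p := p) (E := q.factorization p) (K := K) (j := j) (H := H) (g := g)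
          (D := DD q a J) (A := A) (B := B) hpp hgD
          ((DD_natDegree_le q a J).trans hJc.le) hg0 hP (u := 4 * (a : ℤ)) (v := (q : ℤ))
          (Y := ε * (4 ^ j * ∏ x ∈ J, (x : ℤ))) (by
            rw [mul_pow, hε2, one_mul]
            exact sq_prod hq ha hS hJ hJc) hE (fun h => absurd h h2)
          (by exact_mod_cast Nat.ordProj_dvd q p) hp4 (by
            rw [h5] at hcong
            push_cast at hcong
            have h12 : ε * (4 ^ j * ∏ x ∈ J, (x : ℤ)) - (4 * (a : ℤ)) ^ j =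
                4 ^ j * (ε * ∏ x ∈ J, (x : ℤ) - (a : ℤ) ^ j) := by
              rw [mul_pow]
              ring
            rw [h12]
            exact dvd_mul_of_dvd_right hcong _)
      rw [h4]
      push_cast
      rw [← pow_mul]
      exact hloc
  push_cast
  rw [← Finset.prod_pow]
  refine Finset.prod_dvd_of_coprime ?_ key
  intro p hp p' hp' hne
  have hpr := Nat.prime_of_mem_primeFactors (hPq hp)
  have hpr' := Nat.prime_of_mem_primeFactors (hPq hp')
  have hk : ∀ p, ∃ k, mr q p = p ^ k := by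
    intro p
    unfold mr
    split_ifs with h1 h3
    · exact ⟨0, rfl⟩
    · exact ⟨q.factorization 2 - 2, by rw [h1]⟩
    · exact ⟨_, rfl⟩
  obtain ⟨k, hk1⟩ := hk p
  obtain ⟨k', hk2⟩ := hk p'
  have hcop : IsCoprime (p : ℤ) (p' : ℤ) :=
    Nat.isCoprime_iff_coprime.mpr ((Nat.coprime_primes hpr hpr').mpr hne)
  change IsCoprime ((mr q p : ℤ) ^ (2 * K + j + 1)) ((mr q p' : ℤ) ^ (2 * K + j + 1))
  rw [hk1, hk2]
  push_cast
  exact (hcop.pow).pow

end Pool.Agent.Lib.MP_2c6f70_nt.KW
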