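import Pool.Agent.Lib.MP_2c6f70_nt.KW.Defs

/-!
Logarithms of the constants

`ℓ = log (8 N) ≥ log 8 > 2`.  `log HH = (K+1) (log (K+1) + j log 4 + (2 K + j) ℓ)`; `log (K+1) ≤ K log 2 ≤ 0.7 K ≤ 0.35 K ℓ` (`K + 1 ≤ 2^K`),
`j log 4 ≤ 1.4 K ≤ 0.7 K ℓ`, `(2 K + j) ℓ ≤ 3 K ℓ`: sum at most `4.1 K ℓ`, and `K + 1 ≤ 2 K`: `log HH ≤ 8.2 K^2 ℓ`.
-/

set_option autoImplicit false

namespace Pool.Agent.Lib.MP_2c6f70_nt.KW

private theorem LogA_succ (n : ℕ) : Real.log ((n : ℝ) + 1) ≤ n * Real.log 2 := by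
  have h : ((n : ℝ) + 1) ≤ 2 ^ n := by
    have := Nat.lt_two_pow_self (n := n)
    exact_mod_cast this
  have h1 := Real.log_le_log (by positivity) h
  rwa [Real.log_pow] at h1

private theorem LogA_ell {N : ℕ} (hN : 1 ≤ N) : 3 * Real.log 2 ≤ Real.log (8 * N) := by
  have h : (2 : ℝ) ^ 3 ≤ 8 * N := by
    have : (1 : ℝ) ≤ N := by exact_mod_cast hN
    linarith
  have h1 := Real.log_le_log (by positivity) h
  rw [Real.log_pow] at h1
  exact_mod_cast h1

private theorem LogA_four : Real.log 4 = 2 * Real.log 2 := by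
  have h : (4 : ℝ) = 2 ^ 2 := by norm_num
  rw [h, Real.log_pow]
  push_cast
  ring

private theorem LogA_HH {N K j : ℕ} (hN : 1 ≤ N) :
    Real.log (HH N K j) = ((K : ℝ) + 1) *
      (Real.log ((K : ℝ) + 1) + (j * (2 * Real.log 2) + (2 * K + j) * Real.log (8 * N))) := by
  have hN' : (0 : ℝ) < N := by exact_mod_cast hN
  unfold HH
  push_cast
  rw [Real.log_pow, Real.log_mul (by positivity) (by positivity),
    Real.log_mul (by positivity) (by positivity), Real.log_pow, Real.log_pow, LogA_four]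
  push_cast
  ring

private theorem LogA_core {N K j : ℕ} (hN : 1 ≤ N) (hjK : j ≤ K) :
    Real.log ((K : ℝ) + 1) + (j * (2 * Real.log 2) + (2 * K + j) * Real.log (8 * N)) ≤
      4 * K * Real.log (8 * N) := by
  have h1 := LogA_succ K
  have h2 := LogA_ell hN
  have hl : 0 < Real.log 2 := Real.log_pos (by norm_num)
  have hj : (j : ℝ) ≤ K := by exact_mod_cast hjK
  have hK : (0 : ℝ) ≤ K := Nat.cast_nonneg _
  have h3 : (j : ℝ) * (2 * Real.log 2) ≤ K * (2 * Real.log 2) :=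
    mul_le_mul_of_nonneg_right hj (by positivity)
  have h4 : (j : ℝ) * Real.log (8 * N) ≤ K * Real.log (8 * N) :=
    mul_le_mul_of_nonneg_right hj (by linarith)
  have h5 : (K : ℝ) * (3 * Real.log 2) ≤ K * Real.log (8 * N) := mul_le_mul_of_nonneg_left h2 hK
  linarith

theorem HH_pos {N K j : ℕ} (hN : 1 ≤ N) : 1 ≤ HH N K j := by
  unfold HH
  have h : 0 < N := hN
  exact Nat.succ_le_of_lt (by positivity)

theorem log_HH_le {N K j : ℕ} (hN : 1 ≤ N) (hj : 1 ≤ j) (hjK : j ≤ K) :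
    Real.log (HH N K j) ≤ 9 * (K : ℝ) ^ 2 * Real.log (8 * N) := by
  rw [LogA_HH hN]
  have h1 := LogA_core (K := K) (j := j) hN hjK
  have h2 := LogA_ell hN
  have hl : 0 < Real.log 2 := Real.log_pos (by norm_num)
  have hK : (1 : ℝ) ≤ K := by exact_mod_cast hj.trans hjK
  have hℓ : 0 < Real.log (8 * N) := by linarith
  refine (mul_le_mul_of_nonneg_left h1 (by positivity)).trans ?_
  have h3 : (0 : ℝ) ≤ (K : ℝ) * Real.log (8 * N) * (K - 1) :=
    mul_nonneg (by positivity) (by linarith)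
  have h4 : (0 : ℝ) ≤ (K : ℝ) * Real.log (8 * N) * K := by positivity
  nlinarith

/-- The sharper form used for the error term: `log HH ≤ (K + 1) * 4.1 K ℓ`. -/
theorem log_HH_le' {N K j : ℕ} (hN : 1 ≤ N) (hj : 1 ≤ j) (hjK : j ≤ K) :
    Real.log (HH N K j) ≤ ((K : ℝ) + 1) * (5 * K * Real.log (8 * N)) := by
  rw [LogA_HH hN]
  have h1 := LogA_core (K := K) (j := j) hN hjK
  have h2 := LogA_ell hN
  have hl : 0 < Real.log 2 := Real.log_pos (by norm_num)
  have hℓ : 0 < Real.log (8 * N) := by linarith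
  refine mul_le_mul_of_nonneg_left (h1.trans ?_) (by positivity)
  have h4 : (0 : ℝ) ≤ (K : ℝ) * Real.log (8 * N) := by positivity
  linarith

/-- The condition of `FF_ne_zero` with `H = HH N K j`: logarithm of the left side at most
`0.7 + 1.1 K + 2.2 K + 1.4 K + 2.8 K + 2 K ℓ + 18 K^2 ℓ < 50 K^2 ℓ` (`log (2 K + 1) ≤ 1.1 K`: `2 K + 1 ≤ 3^K`, `log 3 < 1.1`). -/
theorem big_of_log {q N K j : ℕ} (hq : 2 ≤ q) (hN : 1 ≤ N) (hj : 1 ≤ j) (hjK : j ≤ K)
    (hW : 50 * (K : ℝ) ^ 2 * Real.log (8 * N) ≤ Real.log q) :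
    4 ^ j * (2 * (K + j + 1) * (2 * j + 1) ^ 2 * 16 ^ j * (8 * N) ^ (2 * j) * (HH N K j) ^ 2) < q := by
  have hN' : (0 : ℝ) < N := by exact_mod_cast hN
  have hH1 := HH_pos (N := N) (K := K) (j := j) hN
  have hH : (0 : ℝ) < HH N K j := by exact_mod_cast hH1
  have hK : (1 : ℝ) ≤ K := by exact_mod_cast hj.trans hjK
  have hjK' : (j : ℝ) ≤ K := by exact_mod_cast hjK
  have hq' : (0 : ℝ) < q := by
    have : 0 < q := by omega
    exact_mod_cast this
  have hl : 0 < Real.log 2 := Real.log_pos (by norm_num)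
  have h2 := LogA_ell hN
  have hℓ : 0 < Real.log (8 * N) := by linarith
  have hlog : Real.log ((4 ^ j * (2 * (K + j + 1) * (2 * j + 1) ^ 2 * 16 ^ j * (8 * N) ^ (2 * j) *
      (HH N K j) ^ 2) : ℕ) : ℝ) = j * (2 * Real.log 2) + (Real.log 2 + Real.log ((K : ℝ) + j + 1) +
      2 * Real.log (2 * (j : ℝ) + 1) + j * (4 * Real.log 2) + 2 * j * Real.log (8 * N) +
      2 * Real.log (HH N K j)) := by
    have h16 : Real.log 16 = 4 * Real.log 2 := by
      have h : (16 : ℝ) = 2 ^ 4 := by norm_num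
      rw [h, Real.log_pow]
      push_cast
      ring
    push_cast
    rw [Real.log_mul (by positivity) (by positivity), Real.log_pow, LogA_four,
      Real.log_mul (by positivity) (by positivity), Real.log_mul (by positivity) (by positivity),
      Real.log_mul (by positivity) (by positivity), Real.log_mul (by positivity) (by positivity),
      Real.log_mul (by positivity) (by positivity), Real.log_pow, Real.log_pow, Real.log_pow,
      Real.log_pow, h16]
    push_cast
    ring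
  have ha : Real.log ((K : ℝ) + j + 1) ≤ 2 * K * Real.log 2 := by
    have h3 : ((K : ℝ) + j + 1) ≤ ((2 * K : ℕ) : ℝ) + 1 := by
      push_cast
      linarith
    have h4 := (Real.log_le_log (by positivity) h3).trans (LogA_succ (2 * K))
    push_cast at h4
    exact h4
  have hb : Real.log (2 * (j : ℝ) + 1) ≤ 2 * K * Real.log 2 := by
    have h4 := LogA_succ (2 * j)
    push_cast at h4
    have h5 : (j : ℝ) * Real.log 2 ≤ K * Real.log 2 := mul_le_mul_of_nonneg_right hjK' hl.le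
    linarith
  have hc := log_HH_le (N := N) hN hj hjK
  have hj1 : (j : ℝ) * Real.log 2 ≤ K * Real.log 2 := mul_le_mul_of_nonneg_right hjK' hl.le
  have hj2 : (j : ℝ) * Real.log (8 * N) ≤ K * Real.log (8 * N) :=
    mul_le_mul_of_nonneg_right hjK' hℓ.le
  have h5 : (K : ℝ) * (3 * Real.log 2) ≤ K * Real.log (8 * N) :=
    mul_le_mul_of_nonneg_left h2 (by linarith)
  have h6 : Real.log 2 ≤ K * Real.log 2 := le_mul_of_one_le_left hl.le hK
  have h7 : (K : ℝ) * Real.log (8 * N) ≤ (K : ℝ) ^ 2 * Real.log (8 * N) := by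
    rw [sq, mul_assoc]
    exact le_mul_of_one_le_left (by positivity) hK
  have h8 : 0 < (K : ℝ) ^ 2 * Real.log (8 * N) := by positivity
  have hlt : Real.log ((4 ^ j * (2 * (K + j + 1) * (2 * j + 1) ^ 2 * 16 ^ j * (8 * N) ^ (2 * j) *
      (HH N K j) ^ 2) : ℕ) : ℝ) < Real.log q := by
    rw [hlog]
    refine lt_of_lt_of_le ?_ hW
    linarith
  have hpos : (0 : ℝ) < ((4 ^ j * (2 * (K + j + 1) * (2 * j + 1) ^ 2 * 16 ^ j * (8 * N) ^ (2 * j) *
      (HH N K j) ^ 2) : ℕ) : ℝ) := by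
    push_cast
    positivity
  have h9 := (Real.log_lt_log_iff hpos hq').1 hlt
  exact_mod_cast h9

/-- `(1/K) log (4 (K + j + 1)) ≤ 2.5`: `4 (2 K + 1) ≤ 12^K`, so `log (4 (K+j+1)) ≤ K log 12 ≤ 2.5 K`. -/
theorem log_small_a {K j : ℕ} (hj : 1 ≤ j) (hjK : j ≤ K) :
    Real.log (4 * ((K : ℝ) + j + 1)) ≤ 2.5 * K := by
  have hK : 1 ≤ K := hj.trans hjK
  have hjK' : (j : ℝ) ≤ K := by exact_mod_cast hjK
  have h1 : 4 * (2 * K + 1) ≤ 12 ^ K := by
    induction K, hK using Nat.le_induction with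
    | base => norm_num
    | succ n hn ih =>
      rcases Nat.eq_or_lt_of_le hn with h | h
      · subst h
        norm_num
      · have hjn : 4 * (2 * n + 1) ≤ 12 ^ n := by
          clear ih hjK hjK'
          induction n, hn using Nat.le_induction with
          | base => norm_num
          | succ k hk ih' =>
            rcases Nat.eq_or_lt_of_le hk with h' | h'
            · subst h'
              norm_num
            · rw [pow_succ]
              have := ih' h'
              omega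
        rw [pow_succ]
        omega
  have h2 : 4 * ((K : ℝ) + j + 1) ≤ (12 : ℝ) ^ K := by
    have h3 : (4 : ℝ) * (2 * K + 1) ≤ 12 ^ K := by exact_mod_cast h1
    linarith
  have h4 := Real.log_le_log (by positivity) h2
  rw [Real.log_pow] at h4
  have h5 : Real.log 12 ≤ 2.5 := by
    have h6 : Real.log (12 ^ 2) ≤ 5 := by
      rw [Real.log_le_iff_le_exp (by positivity)]
      have h7 := Real.exp_one_gt_d9
      have h8 : Real.exp 5 = Real.exp 1 ^ 5 := by
        rw [← Real.exp_nat_mul]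
        norm_num
      rw [h8]
      have h9 : (2.7182818283 : ℝ) ^ 5 ≤ Real.exp 1 ^ 5 := pow_le_pow_left₀ (by norm_num) h7.le 5
      refine le_trans ?_ h9
      norm_num
    rw [Real.log_pow] at h6
    push_cast at h6
    linarith
  have h10 : (K : ℝ) * Real.log 12 ≤ K * 2.5 := mul_le_mul_of_nonneg_left h5 (Nat.cast_nonneg _)
  linarith

/-- `12 * 16^j (K+1) ≤ 24^K 16^K`. -/
theorem log_small_b {K j : ℕ} (hj : 1 ≤ j) (hjK : j ≤ K) :
    Real.log (12 * 16 ^ j * ((K : ℝ) + 1)) ≤ 6 * K := by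
  have hK : 1 ≤ K := hj.trans hjK
  have h0 : ∀ n : ℕ, 12 * (n + 2) ≤ 24 ^ (n + 1) * 12 := by
    intro n
    induction n with
    | zero => norm_num
    | succ k ih =>
      rw [pow_succ]
      omega
  have h1 : 12 * (K + 1) ≤ 24 ^ K := by
    obtain ⟨n, rfl⟩ : ∃ n, K = n + 1 := ⟨K - 1, by omega⟩
    clear h0 hjK hK
    induction n with
    | zero => norm_num
    | succ k ih =>
      rw [pow_succ]
      omega
  have h2 : (12 * 16 ^ j * ((K : ℝ) + 1)) ≤ (384 : ℝ) ^ K := by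
    have h3 : (12 : ℝ) * (K + 1) ≤ 24 ^ K := by exact_mod_cast h1
    have h4 : (16 : ℝ) ^ j ≤ 16 ^ K := pow_le_pow_right₀ (by norm_num) hjK
    have h5 : (384 : ℝ) ^ K = 24 ^ K * 16 ^ K := by
      rw [← mul_pow]
      norm_num
    rw [h5]
    calc (12 * 16 ^ j * ((K : ℝ) + 1)) = (12 * ((K : ℝ) + 1)) * 16 ^ j := by ring
      _ ≤ 24 ^ K * 16 ^ K := mul_le_mul h3 h4 (by positivity) (by positivity)
  have h4 := Real.log_le_log (by positivity) h2
  rw [Real.log_pow] at h4
  have h5 : Real.log 384 ≤ 6 := by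
    rw [Real.log_le_iff_le_exp (by positivity)]
    have h7 := Real.exp_one_gt_d9
    have h8 : Real.exp 6 = Real.exp 1 ^ 6 := by
      rw [← Real.exp_nat_mul]
      norm_num
    rw [h8]
    have h9 : (2.7182818283 : ℝ) ^ 6 ≤ Real.exp 1 ^ 6 := pow_le_pow_left₀ (by norm_num) h7.le 6
    refine le_trans ?_ h9
    norm_num
  have h10 : (K : ℝ) * Real.log 384 ≤ K * 6 := mul_le_mul_of_nonneg_left h5 (Nat.cast_nonneg _)
  linarith

end Pool.Agent.Lib.MP_2c6f70_nt.KW
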