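import Pool.Agent.Lib.MP_2c6f70_nt.KW.Idx

/-!
# `FF` does not vanish
-/

set_option autoImplicit false

namespace Pool.Agent.Lib.MP_2c6f70_nt.KW

open Polynomial

/-- `A^2 = B^2 D` is impossible for `B ≠ 0` if `D = ∏ (1 + 4 n_x X)` with at least two distinct `n_x`: one `n_x ≠ 0`, and
`t = - 1 / (4 n_x)` is a simple root of `D` over `ℚ` (the other factors do not vanish there as the `n_y` are distinct), so the root multiplicity of `t`
is even on the left and odd on the right (`Polynomial.rootMultiplicity_mul`, `rootMultiplicity_pow`). -/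
theorem sub_ne_zero_of_inj {ι : Type*} (J : Finset ι) (n : ι → ℕ) (hn : Set.InjOn n (J : Set ι))
    (hJ : 2 ≤ J.card) (A B : ℤ[X]) (hB : B ≠ 0) :
    A ^ 2 - B ^ 2 * ∏ x ∈ J, (1 + C (4 * (n x : ℤ)) * X) ≠ 0 := by
  classical
  intro h0
  obtain ⟨x₀, hx₀, hn₀⟩ : ∃ x ∈ J, n x ≠ 0 := by
    by_contra hc
    push Not at hc
    obtain ⟨x, hx, y, hy, hxy⟩ := Finset.one_lt_card.1 (show 1 < J.card by omega)
    exact hxy (hn hx hy (by rw [hc x hx, hc y hy]))
  set φ := Int.castRingHom ℚ with hφ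
  have hinj : Function.Injective (Polynomial.map φ) :=
    Polynomial.map_injective φ (RingHom.injective_int φ)
  have hn₀' : (n x₀ : ℚ) ≠ 0 := by exact_mod_cast hn₀
  set t : ℚ := -1 / (4 * n x₀) with ht
  have hfac : ∀ x : ι, Polynomial.map φ (1 + C (4 * (n x : ℤ)) * X) =
      1 + C (4 * (n x : ℚ)) * X := by
    intro x
    rw [Polynomial.map_add, Polynomial.map_one, Polynomial.map_mul, Polynomial.map_X,
      Polynomial.map_C]
    have h : φ (4 * (n x : ℤ)) = 4 * (n x : ℚ) := by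
      rw [hφ, eq_intCast]
      push_cast
      ring
    rw [h]
  have h1 : (Polynomial.map φ A) ^ 2 = (Polynomial.map φ B) ^ 2 *
      ∏ x ∈ J, (1 + C (4 * (n x : ℚ)) * X) := by
    have h2 : A ^ 2 = B ^ 2 * ∏ x ∈ J, (1 + C (4 * (n x : ℤ)) * X) := sub_eq_zero.1 h0
    have h3 := congrArg (Polynomial.map φ) h2
    rw [Polynomial.map_pow, Polynomial.map_mul, Polynomial.map_pow, Polynomial.map_prod] at h3
    rw [h3]
    congr 1
    exact Finset.prod_congr rfl fun x _ => hfac x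
  have hB' : Polynomial.map φ B ≠ 0 := by
    intro h
    apply hB
    apply hinj
    rw [h, Polynomial.map_zero]
  have hlin : (1 + C (4 * (n x₀ : ℚ)) * X : ℚ[X]) = C (4 * (n x₀ : ℚ)) * (X - C t) := by
    rw [mul_sub, ← C_mul, ht]
    have : (4 * (n x₀ : ℚ)) * (-1 / (4 * n x₀)) = -1 := by field_simp
    rw [this, C_neg, C_1]
    ring
  have hne4 : (4 * (n x₀ : ℚ)) ≠ 0 := mul_ne_zero (by norm_num) hn₀'
  have hev : ∀ x ∈ J.erase x₀, (1 + C (4 * (n x : ℚ)) * X : ℚ[X]).eval t ≠ 0 := by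
    intro x hx h
    have hxJ : x ∈ J := Finset.mem_of_mem_erase hx
    have hxne : x ≠ x₀ := Finset.ne_of_mem_erase hx
    simp only [eval_add, eval_one, eval_mul, eval_C, eval_X] at h
    apply hxne
    apply hn hxJ hx₀
    have h4 : (n x : ℚ) = n x₀ := by
      rw [ht] at h
      field_simp at h
      linarith
    exact_mod_cast h4
  have hrest : (∏ x ∈ J.erase x₀, (1 + C (4 * (n x : ℚ)) * X : ℚ[X])).eval t ≠ 0 := by
    rw [eval_prod]
    exact Finset.prod_ne_zero_iff.2 hev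
  have hrest0 : (∏ x ∈ J.erase x₀, (1 + C (4 * (n x : ℚ)) * X : ℚ[X])) ≠ 0 := by
    intro h
    rw [h, eval_zero] at hrest
    exact hrest rfl
  have hlin0 : (X - C t : ℚ[X]) ≠ 0 := X_sub_C_ne_zero t
  have hC0 : (C (4 * (n x₀ : ℚ)) : ℚ[X]) ≠ 0 := C_ne_zero.2 hne4
  rw [← Finset.mul_prod_erase J _ hx₀, hlin] at h1
  have hD0 : C (4 * (n x₀ : ℚ)) * (X - C t) *
      ∏ x ∈ J.erase x₀, (1 + C (4 * (n x : ℚ)) * X : ℚ[X]) ≠ 0 :=
    mul_ne_zero (mul_ne_zero hC0 hlin0) hrest0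
  have hA0 : Polynomial.map φ A ≠ 0 := by
    intro h
    rw [h, zero_pow two_ne_zero] at h1
    exact mul_ne_zero (pow_ne_zero 2 hB') hD0 h1.symm
  have h5 := congrArg (rootMultiplicity t) h1
  rw [pow_two, pow_two, rootMultiplicity_mul (mul_ne_zero hA0 hA0),
    rootMultiplicity_mul (mul_ne_zero (mul_ne_zero hB' hB') hD0),
    rootMultiplicity_mul (mul_ne_zero hB' hB'), rootMultiplicity_mul hD0,
    rootMultiplicity_mul (mul_ne_zero hC0 hlin0), rootMultiplicity_C,
    rootMultiplicity_X_sub_C_self, rootMultiplicity_eq_zero hrest] at h5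
  omega

/-- Bound of the coefficients of a product. -/
theorem Nonv_coeff_mul {P Q : ℤ[X]} {d : ℕ} {M₁ M₂ : ℤ} (hP : P.natDegree ≤ d)
    (h1 : ∀ i, |P.coeff i| ≤ M₁) (h2 : ∀ i, |Q.coeff i| ≤ M₂) (i : ℕ) :
    |(P * Q).coeff i| ≤ (d + 1) * (M₁ * M₂) := by
  have hM₁ : 0 ≤ M₁ := (abs_nonneg _).trans (h1 0)
  have hM₂ : 0 ≤ M₂ := (abs_nonneg _).trans (h2 0)
  rw [coeff_mul, Finset.Nat.sum_antidiagonal_eq_sum_range_succ_mk]
  refine (Finset.abs_sum_le_sum_abs _ _).trans ?_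
  have h3 : ∀ k ∈ Finset.range i.succ, |P.coeff k * Q.coeff (i - k)| ≤
      if k ∈ Finset.range (d + 1) then M₁ * M₂ else 0 := by
    intro k _
    rw [abs_mul]
    split_ifs with hk
    · exact mul_le_mul (h1 k) (h2 _) (abs_nonneg _) hM₁
    · rw [coeff_eq_zero_of_natDegree_lt (by
        rw [Finset.mem_range] at hk
        omega), abs_zero, zero_mul]
  refine (Finset.sum_le_sum h3).trans ?_
  rw [← Finset.sum_filter, Finset.sum_const, nsmul_eq_mul]
  apply mul_le_mul_of_nonneg_right _ (mul_nonneg hM₁ hM₂)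
  have h4 : (Finset.filter (fun k => k ∈ Finset.range (d + 1)) (Finset.range i.succ)).card ≤
      (Finset.range (d + 1)).card := by
    apply Finset.card_le_card
    intro k hk
    exact (Finset.mem_filter.1 hk).2
  rw [Finset.card_range] at h4
  exact_mod_cast h4

/-- `FF(Y) FF(-Y) = hom A^2 - hom B^2 Y^2 = hom (A^2 - B^2 D) (2 K + 2 j) (4a) q` (`sq_prod`, `hom_mul`).  `A^2 - B^2 D = A^2 - B^2 g^2 = (A - B g) (A + B g)` has
vanishing coefficients below `m = 2 K + j + 1`, so it is `X^m R` (`Polynomial.X_pow_dvd_iff`) with `R ≠ 0`, `natDegree R ≤ j - 1`,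
`2 K + 2 j = m + (j - 1)`, and the product is `q^m hom R (j-1) (4a) q` (`hom_X_pow_mul`).  If it vanishes then `le_of_hom_eq_zero`:
`q ≤ 4^(j-1) M`, `M` a bound of the coefficients of `A^2 - B^2 D`: `A^2`: at most `(K + j + 1) H^2`; `B^2`: at most `(K+1) H^2`; the coefficients of `D = g^2`
are at most `(2 j + 1) 16^j (8N)^(2j)` up to degree `2 j` (`|g_i| ≤ 4^j (8N)^i`), so `B^2 D`: at most `(2 j + 1) (K + 1) H^2 (2 j + 1) 16^j (8 N)^(2 j)`. -/
theorem FF_ne_zero {q a N j K H : ℕ} {S J : Finset ℕ} {g : PowerSeries ℤ} {A B : ℤ[X]} (hq : 1 ≤ q)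
    (ha : 1 ≤ a) (hN : 1 ≤ N) (hc : Nat.Coprime q a) (hS : Rts q a N S) (hJ : J ⊆ S) (hj : 1 ≤ j)
    (hJc : J.card = 2 * j) (hH : 1 ≤ H) (hgD : g ^ 2 = (DD q a J : PowerSeries ℤ))
    (hgb : ∀ i, |PowerSeries.coeff i g| ≤ 2 ^ J.card * (8 * (N : ℤ)) ^ i) (hP : IsPade g K j H A B)
    (hbig : 4 ^ j * (2 * (K + j + 1) * (2 * j + 1) ^ 2 * 16 ^ j * (8 * N) ^ (2 * j) * H ^ 2) < q)
    (ε : ℤ) (hε : ε = 1 ∨ ε = -1) :
    FF A B K j (4 * (a : ℤ)) q (ε * (4 ^ j * ∏ x ∈ J, (x : ℤ))) ≠ 0 := by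
  intro h0
  have hu : (4 * (a : ℤ)) ≠ 0 := by
    have : (a : ℤ) ≠ 0 := by
      intro h
      have : a = 0 := by exact_mod_cast h
      omega
    omega
  have hsq := sq_prod hq ha hS hJ hJc
  set u : ℤ := 4 * (a : ℤ) with hudef
  set Y : ℤ := 4 ^ j * ∏ x ∈ J, (x : ℤ) with hY
  have hDdeg : (DD q a J).natDegree ≤ 2 * j := (DD_natDegree_le q a J).trans hJc.le
  have h1 : hom A (K + j) u q ^ 2 = hom B K u q ^ 2 * Y ^ 2 := by
    unfold FF at h0
    have h2 : hom A (K + j) u q = - (hom B K u q * (ε * Y)) := by linarith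
    rw [h2]
    rcases hε with h | h <;> rw [h] <;> ring
  set P : ℤ[X] := A ^ 2 - B ^ 2 * DD q a J with hPd
  have hP0 : P ≠ 0 := by
    have hinj : Set.InjOn (nn q a) (J : Set ℕ) := (nn_inj hq hS).mono (by exact_mod_cast hJ)
    exact sub_ne_zero_of_inj J (nn q a) hinj (by omega) A B hP.ne
  have hPdeg : P.natDegree ≤ 2 * K + 2 * j := by
    rw [hPd]
    refine (natDegree_sub_le _ _).trans (max_le ?_ ?_)
    · refine natDegree_pow_le.trans ?_
      have := hP.degA
      omega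
    · refine natDegree_mul_le.trans ?_
      have h2 : (B ^ 2).natDegree ≤ 2 * B.natDegree := natDegree_pow_le
      have := hP.degB
      omega
  -- vanishing of the low coefficients
  have hlow : ∀ l < 2 * K + j + 1, P.coeff l = 0 := by
    have hdvd : (PowerSeries.X : PowerSeries ℤ) ^ (2 * K + j + 1) ∣
        ((A : PowerSeries ℤ) + (B : PowerSeries ℤ) * g) :=
      PowerSeries.X_pow_dvd_iff.2 hP.van
    have h2 : (P : PowerSeries ℤ) = ((A : PowerSeries ℤ) + (B : PowerSeries ℤ) * g) *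
        ((A : PowerSeries ℤ) - (B : PowerSeries ℤ) * g) := by
      rw [hPd, Polynomial.coe_sub, Polynomial.coe_pow, Polynomial.coe_mul, Polynomial.coe_pow,
        ← hgD]
      ring
    have h3 : (PowerSeries.X : PowerSeries ℤ) ^ (2 * K + j + 1) ∣ (P : PowerSeries ℤ) := by
      rw [h2]
      exact hdvd.mul_right _
    intro l hl
    have h4 := PowerSeries.X_pow_dvd_iff.1 h3 l hl
    rwa [Polynomial.coeff_coe] at h4
  obtain ⟨R, hR⟩ := Polynomial.X_pow_dvd_iff.2 hlow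
  have hR0 : R ≠ 0 := by
    rintro rfl
    exact hP0 (by rw [hR, mul_zero])
  have hRdeg : R.natDegree ≤ j - 1 := by
    have h2 : P.natDegree = (2 * K + j + 1) + R.natDegree := by
      rw [hR, natDegree_mul (pow_ne_zero _ X_ne_zero) hR0, natDegree_X_pow]
    omega
  have hhom : hom R (j - 1) u q = 0 := by
    have e1 : hom P (2 * K + 2 * j) u q = 0 := by
      have e2 : hom (A ^ 2) (2 * K + 2 * j) u q = hom A (K + j) u q ^ 2 := by
        have h2 := hom_mul hP.degA hP.degA hu q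
        rw [pow_two, pow_two, ← h2]
        congr 1
        ring
      have e3 : hom (B ^ 2 * DD q a J) (2 * K + 2 * j) u q =
          hom B K u q ^ 2 * hom (DD q a J) (2 * j) u q := by
        have h2 := hom_mul hP.degB hP.degB hu q
        have h4 : (B * B).natDegree ≤ K + K :=
          natDegree_mul_le.trans (add_le_add hP.degB hP.degB)
        have h3 := hom_mul h4 hDdeg hu q
        rw [pow_two, pow_two, ← h2, ← h3]
        congr 1
        ring
      rw [hPd, hom_sub, e2, e3, h1, hsq]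
      ring
    have h2 : 2 * K + 2 * j = (2 * K + j + 1) + (j - 1) := by omega
    rw [h2, hR, hom_X_pow_mul hRdeg hu] at e1
    rcases mul_eq_zero.1 e1 with h3 | h3
    · exfalso
      have h4 : (q : ℤ) ≠ 0 := by
        intro h
        have : q = 0 := by exact_mod_cast h
        omega
      exact pow_ne_zero _ h4 h3
    · exact h3
  -- the bound of the coefficients
  have hN8 : 1 ≤ 8 * N := by omega
  have hDc : ∀ i, |(DD q a J).coeff i| ≤ (2 * j + 1) * (16 ^ j * (8 * (N : ℤ)) ^ (2 * j)) := by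
    intro i
    by_cases hi : i ≤ 2 * j
    · have h2 : (DD q a J).coeff i = PowerSeries.coeff i (g ^ 2) := by
        rw [hgD, Polynomial.coeff_coe]
      rw [h2, pow_two, PowerSeries.coeff_mul]
      refine (Finset.abs_sum_le_sum_abs _ _).trans ?_
      have h3 : ∀ k ∈ Finset.HasAntidiagonal.antidiagonal i, |PowerSeries.coeff k.1 g * PowerSeries.coeff k.2 g| ≤
          16 ^ j * (8 * (N : ℤ)) ^ (2 * j) := by
        intro k hk
        rw [abs_mul]
        have h4 := mul_le_mul (hgb k.1) (hgb k.2) (abs_nonneg _) (by positivity)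
        refine h4.trans ?_
        have h5 : (2 : ℤ) ^ J.card * (8 * (N : ℤ)) ^ k.1 * (2 ^ J.card * (8 * (N : ℤ)) ^ k.2) =
            16 ^ j * (8 * (N : ℤ)) ^ i := by
          rw [hJc, ← Finset.HasAntidiagonal.mem_antidiagonal.1 hk, pow_add, pow_mul]
          have : (16 : ℤ) ^ j = (2 ^ 2) ^ j * (2 ^ 2) ^ j := by
            rw [← mul_pow]
            norm_num
          rw [this]
          ring
        rw [h5]
        apply mul_le_mul_of_nonneg_left _ (by positivity)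
        exact pow_le_pow_right₀ (by exact_mod_cast hN8) hi
      refine (Finset.sum_le_sum h3).trans ?_
      rw [Finset.sum_const, nsmul_eq_mul, Finset.Nat.card_antidiagonal]
      apply mul_le_mul_of_nonneg_right _ (by positivity)
      push_cast
      have : (i : ℤ) ≤ 2 * j := by exact_mod_cast hi
      linarith
    · rw [coeff_eq_zero_of_natDegree_lt (by omega), abs_zero]
      positivity
  have hAc : ∀ i, |(A ^ 2).coeff i| ≤ (K + j + 1) * ((H : ℤ) * H) := by
    intro i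
    rw [pow_two]
    have h2 := Nonv_coeff_mul hP.degA hP.boundA hP.boundA i
    push_cast at h2
    exact h2
  have hBc : ∀ i, |(B ^ 2).coeff i| ≤ (K + 1) * ((H : ℤ) * H) := by
    intro i
    rw [pow_two]
    exact Nonv_coeff_mul hP.degB hP.boundB hP.boundB i
  have hDBc : ∀ i, |(DD q a J * B ^ 2).coeff i| ≤
      (2 * j + 1) * ((2 * j + 1) * (16 ^ j * (8 * (N : ℤ)) ^ (2 * j)) * ((K + 1) * ((H : ℤ) * H))) := by
    intro i
    have h2 := Nonv_coeff_mul hDdeg hDc hBc i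
    push_cast at h2
    exact h2
  have hPc : ∀ i, |P.coeff i| ≤
      ((2 * (K + j + 1) * (2 * j + 1) ^ 2 * 16 ^ j * (8 * N) ^ (2 * j) * H ^ 2 : ℕ) : ℤ) := by
    intro i
    rw [hPd, coeff_sub, mul_comm (B ^ 2)]
    refine (abs_sub _ _).trans ((add_le_add (hAc i) (hDBc i)).trans ?_)
    push_cast
    set Z : ℤ := 16 ^ j * (8 * (N : ℤ)) ^ (2 * j) with hZ
    have hZ1 : 1 ≤ Z := by
      rw [hZ]
      have h2 : (1 : ℤ) ≤ 16 ^ j := one_le_pow₀ (by norm_num)
      have h3 : (1 : ℤ) ≤ (8 * (N : ℤ)) ^ (2 * j) := one_le_pow₀ (by exact_mod_cast hN8)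
      nlinarith
    have h4 : 2 * ((K : ℤ) + j + 1) * (2 * j + 1) ^ 2 * 16 ^ j * (8 * N) ^ (2 * j) * H ^ 2 =
        2 * ((K : ℤ) + j + 1) * ((2 * j + 1) ^ 2 * Z) * (H * H) := by
      rw [hZ]
      ring
    rw [h4]
    have h5 : (1 : ℤ) ≤ (2 * j + 1) ^ 2 * Z := by
      have : (1 : ℤ) ≤ (2 * j + 1) ^ 2 := one_le_pow₀ (by omega)
      nlinarith
    have h6 : (0 : ℤ) ≤ (H : ℤ) * H := by positivity
    have h7 : ((K : ℤ) + j + 1) * ((H : ℤ) * H) ≤
        ((K : ℤ) + j + 1) * ((2 * j + 1) ^ 2 * Z) * (H * H) := by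
      have h8 : ((K : ℤ) + j + 1) * 1 ≤ ((K : ℤ) + j + 1) * ((2 * j + 1) ^ 2 * Z) :=
        mul_le_mul_of_nonneg_left h5 (by positivity)
      have h9 := mul_le_mul_of_nonneg_right h8 h6
      linarith
    have h10 : (2 * (j : ℤ) + 1) * ((2 * j + 1) * Z * ((K + 1) * ((H : ℤ) * H))) ≤
        ((K : ℤ) + j + 1) * ((2 * j + 1) ^ 2 * Z) * (H * H) := by
      have h11 : ((K : ℤ) + 1) * (((2 * j + 1) ^ 2 * Z) * (H * H)) ≤
          ((K : ℤ) + j + 1) * (((2 * j + 1) ^ 2 * Z) * (H * H)) := by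
        apply mul_le_mul_of_nonneg_right (by linarith [Int.natCast_nonneg j])
        positivity
      linarith
    linarith
  have hRc : ∀ i, |R.coeff i| ≤
      ((2 * (K + j + 1) * (2 * j + 1) ^ 2 * 16 ^ j * (8 * N) ^ (2 * j) * H ^ 2 : ℕ) : ℤ) := by
    intro i
    have h2 := hPc (i + (2 * K + j + 1))
    rwa [hR, coeff_X_pow_mul] at h2
  have hfin := le_of_hom_eq_zero hR0 hRdeg hq hc hRc hhom
  have h4 : 4 ^ (j - 1) ≤ 4 ^ j := Nat.pow_le_pow_right (by norm_num) (Nat.sub_le _ _)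
  have h5 := Nat.mul_le_mul_right
    (2 * (K + j + 1) * (2 * j + 1) ^ 2 * 16 ^ j * (8 * N) ^ (2 * j) * H ^ 2) h4
  omega

end Pool.Agent.Lib.MP_2c6f70_nt.KW
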