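import Pool.Agent.Lib.MP_2c6f70_nt.KW.Defs

/-!
# JOB Pade: Padé approximants by Siegel's lemma
-/

set_option autoImplicit false

namespace Pool.Agent.Lib.MP_2c6f70_nt.KW

open Polynomial

attribute [local instance] Matrix.seminormedAddCommGroup

theorem Pade_siegel (K G : ℕ) (hK : 1 ≤ K) (hG : 1 ≤ G) (M : Matrix (Fin K) (Fin (K + 1)) ℤ)
    (hM : ∀ e i, |M e i| ≤ (G : ℤ)) :
    ∃ t : Fin (K + 1) → ℤ, t ≠ 0 ∧ (∀ e, ∑ i, M e i * t i = 0) ∧
      ∀ i, |t i| ≤ (((K + 1) * G) ^ K : ℕ) := by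
  obtain ⟨t, ht, hMt, hn⟩ := Int.Matrix.exists_ne_zero_int_vec_norm_le M
    (by simp) (by rw [Fintype.card_fin]; exact hK)
  refine ⟨t, ht, fun e => ?_, fun i => ?_⟩
  · have h1 := congrFun hMt e
    simpa [Matrix.mulVec, dotProduct] using h1
  · have hMn : ‖M‖ ≤ (G : ℝ) := by
      rw [Matrix.norm_le_iff (by positivity)]
      intro e i
      rw [Int.norm_eq_abs]
      exact_mod_cast hM e i
    have hG1 : (1 : ℝ) ≤ G := by exact_mod_cast hG
    have h1 : max 1 ‖M‖ ≤ (G : ℝ) := max_le hG1 hMn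
    have h2 : ((Fintype.card (Fin K) : ℝ)) / ((Fintype.card (Fin (K + 1)) : ℝ) - (Fintype.card (Fin K) : ℝ)) =
        (K : ℝ) := by
      rw [Fintype.card_fin, Fintype.card_fin]
      push_cast
      have h3 : (K : ℝ) + 1 - K = 1 := by ring
      rw [h3, div_one]
    rw [h2, Real.rpow_natCast, Fintype.card_fin] at hn
    have h4 : ‖t i‖ ≤ ‖t‖ := norm_le_pi_norm t i
    have h5 : (((K + 1 : ℕ) : ℝ) * max 1 ‖M‖) ^ K ≤ (((K + 1 : ℕ) : ℝ) * G) ^ K := by
      refine pow_le_pow_left₀ (by positivity) ?_ K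
      exact mul_le_mul_of_nonneg_left h1 (by positivity)
    have h6 := (h4.trans hn).trans h5
    rw [Int.norm_eq_abs] at h6
    have h7 : ((|t i| : ℤ) : ℝ) ≤ (((((K + 1) * G) ^ K : ℕ) : ℤ) : ℝ) := by
      push_cast
      push_cast at h6
      exact h6
    exact_mod_cast h7

/-- The polynomial with coefficients `s 0, ..., s K`. -/
noncomputable def Pade_B (K : ℕ) (s : ℕ → ℤ) : ℤ[X] := ∑ i ∈ Finset.range (K + 1), C (s i) * X ^ i

theorem Pade_B_coeff (K : ℕ) (s : ℕ → ℤ) (l : ℕ) :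
    (Pade_B K s).coeff l = if l ≤ K then s l else 0 := by
  unfold Pade_B
  rw [finsetSum_coeff]
  simp_rw [coeff_C_mul_X_pow]
  rw [Finset.sum_ite_eq]
  simp

theorem Pade_B_mul (K : ℕ) (s : ℕ → ℤ) (g : PowerSeries ℤ) (l : ℕ) :
    PowerSeries.coeff l ((Pade_B K s : PowerSeries ℤ) * g) =
      ∑ i ∈ Finset.range (K + 1), s i * (if i ≤ l then PowerSeries.coeff (l - i) g else 0) := by
  have h1 : ((Pade_B K s : ℤ[X]) : PowerSeries ℤ) =
      ∑ i ∈ Finset.range (K + 1), PowerSeries.C (s i) * PowerSeries.X ^ i := by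
    ext m
    rw [Polynomial.coeff_coe, Pade_B_coeff, map_sum]
    simp_rw [PowerSeries.coeff_C_mul, PowerSeries.coeff_X_pow, mul_ite, mul_one, mul_zero]
    rw [Finset.sum_ite_eq]
    simp
  rw [h1, Finset.sum_mul, map_sum]
  refine Finset.sum_congr rfl fun i _ => ?_
  rw [mul_assoc, PowerSeries.coeff_C_mul, PowerSeries.coeff_X_pow_mul']

/-- Siegel's lemma in Mathlib: `Int.Matrix.exists_ne_zero_int_vec_norm_le` (file `Mathlib/NumberTheory/SiegelsLemma.lean`).  Unknowns `t_0, ..., t_K`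
(`β = Fin (K+1)`), equations `e = 0, ..., K-1` (`α = Fin K`): with `l = K + j + 1 + e`: `∑_i t_i g_(l-i) = 0` (`l - i ≥ j + 1`, matrix
`M e i = coeff (K + j + 1 + e - i) g`, all entries at most `G` in absolute value, as `K + j + 1 + e - i ≤ 2 K + j`).  The exponent is
`K / (K + 1 - K) = K`; so `t ≠ 0` and `|t_i| ≤ ((K + 1) max 1 ‖M‖)^K ≤ ((K + 1) G)^K`.  `B = ∑ t_i X^i`;
`A = - ∑_(l ≤ K + j) (∑_(i ≤ min l K) t_i g_(l-i)) X^l`, i.e. minus the truncation of `B g` at degree `K + j`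
(`PowerSeries.trunc (K + j + 1)`); its coefficients are at most `(K + 1) G ((K+1) G)^K`. -/
theorem exists_pade (g : PowerSeries ℤ) (K j G : ℕ) (hK : 1 ≤ K) (hG : 1 ≤ G)
    (hg : ∀ i ≤ 2 * K + j, |PowerSeries.coeff i g| ≤ (G : ℤ)) :
    ∃ A B : ℤ[X], IsPade g K j (((K + 1) * G) ^ (K + 1)) A B := by
  obtain ⟨t, ht, hMt, hti⟩ := Pade_siegel K G hK hG
    (fun e i => PowerSeries.coeff (K + j + 1 + (e : ℕ) - (i : ℕ)) g)
    (fun e i => hg _ (by have := e.isLt; have := i.isLt; omega))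
  obtain ⟨s, hs⟩ : ∃ s : ℕ → ℤ, s = fun i => if h : i < K + 1 then t ⟨i, h⟩ else 0 := ⟨_, rfl⟩
  have hst : ∀ i : Fin (K + 1), s (i : ℕ) = t i := by
    intro i
    rw [hs]
    simp only [i.isLt, dif_pos]
  have hT1 : 1 ≤ (K + 1) * G := Nat.mul_pos (by omega) hG
  have hsb : ∀ i, |s i| ≤ ((((K + 1) * G) ^ K : ℕ) : ℤ) := by
    intro i
    by_cases hi : i < K + 1
    · have h1 := hst ⟨i, hi⟩
      have h2 : s i = t ⟨i, hi⟩ := h1
      rw [h2]
      exact hti _
    · have h2 : s i = 0 := by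
        rw [hs]
        simp only [hi, dif_neg, not_false_iff]
      rw [h2, abs_zero]
      exact Int.natCast_nonneg _
  have hle : ((((K + 1) * G) ^ K : ℕ) : ℤ) ≤ ((((K + 1) * G) ^ (K + 1) : ℕ) : ℤ) := by
    exact_mod_cast Nat.pow_le_pow_right hT1 (Nat.le_succ K)
  refine ⟨-(PowerSeries.trunc (K + j + 1) ((Pade_B K s : PowerSeries ℤ) * g)), Pade_B K s,
    ?_, ?_, ?_, ?_, ?_, ?_⟩
  · rw [natDegree_neg, natDegree_le_iff_coeff_eq_zero]
    intro m hm
    rw [PowerSeries.coeff_trunc, if_neg (by omega)]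
  · rw [natDegree_le_iff_coeff_eq_zero]
    intro m hm
    rw [Pade_B_coeff, if_neg (by omega)]
  · intro h0
    apply ht
    funext i
    have h1 := congrArg (fun P : ℤ[X] => P.coeff (i : ℕ)) h0
    simp only [Pade_B_coeff, coeff_zero] at h1
    rw [if_pos (Nat.lt_succ_iff.1 i.isLt), hst] at h1
    exact h1
  · intro l
    rw [coeff_neg, abs_neg, PowerSeries.coeff_trunc]
    by_cases hl : l < K + j + 1
    · rw [if_pos hl, Pade_B_mul]
      calc |∑ i ∈ Finset.range (K + 1), s i * (if i ≤ l then PowerSeries.coeff (l - i) g else 0)|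
          ≤ ∑ i ∈ Finset.range (K + 1), |s i * (if i ≤ l then PowerSeries.coeff (l - i) g else 0)| :=
            Finset.abs_sum_le_sum_abs _ _
        _ ≤ ∑ i ∈ Finset.range (K + 1), ((((K + 1) * G) ^ K : ℕ) : ℤ) * (G : ℤ) := by
            refine Finset.sum_le_sum fun i _ => ?_
            rw [abs_mul]
            refine mul_le_mul (hsb i) ?_ (abs_nonneg _) (Int.natCast_nonneg _)
            by_cases hi : i ≤ l
            · rw [if_pos hi]
              exact hg _ (by omega)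
            · rw [if_neg hi, abs_zero]
              exact Int.natCast_nonneg _
        _ = ((((K + 1) * G) ^ (K + 1) : ℕ) : ℤ) := by
            rw [Finset.sum_const, Finset.card_range, nsmul_eq_mul]
            push_cast
            ring
    · rw [if_neg hl, abs_zero]
      exact Int.natCast_nonneg _
  · intro i
    rw [Pade_B_coeff]
    by_cases hi : i ≤ K
    · rw [if_pos hi]
      exact (hsb i).trans hle
    · rw [if_neg hi, abs_zero]
      exact Int.natCast_nonneg _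
  · intro l hl
    rw [map_add, Polynomial.coeff_coe, coeff_neg, PowerSeries.coeff_trunc]
    by_cases hl2 : l < K + j + 1
    · rw [if_pos hl2, neg_add_cancel]
    · rw [if_neg hl2, neg_zero, zero_add, Pade_B_mul]
      have he : l - (K + j + 1) < K := by omega
      have h1 := hMt ⟨l - (K + j + 1), he⟩
      rw [Finset.sum_range]
      rw [← h1]
      refine Finset.sum_congr rfl fun i _ => ?_
      have hi := i.isLt
      rw [if_pos (by omega), hst, mul_comm]
      congr 3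
      show l - (i : ℕ) = K + j + 1 + (l - (K + j + 1)) - (i : ℕ)
      omega

end Pool.Agent.Lib.MP_2c6f70_nt.KW
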