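import Pool.Agent.Lib.MP_2c6f70_nt.KW.Hom

/-!
# JOB SizeB: `FF` is small at the real place when `u` is large

Real numbers.  Write `m = 2 K + j + 1`, `t = v / u`, `ρ = 8 N t ≤ 8 / 4^(j+3) = 1 / (8 * 4^j) ≤ 1/8`, `V = ∑_(i < m) g_i v^i u^(m-i)`, `U = u^(m-j) Y`, `U^2 = ∑ D_i v^i u^(2m-i)` (sum over
`i ≤ 2 j`, `2 j ≤ 2 m`).

(1) `u^m FF = Z + u^j hom B K u v (U - V)`, `Z = u^m hom A (K+j) u v + u^j hom B K u v V = ∑_l c_l v^l u^(m+K+j-l)` where `c_l` are the coefficients of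
`A + B T`, `T = ∑_(i<m) g_i X^i`; `c_l = 0` for `l < m` (they agree with those of `A + B g`), and for `m ≤ l ≤ m + K` (`A_l = 0` as `m > K + j`):
`|c_l| ≤ (K+1) H 4^j (8N)^l`.  So `|Z| ≤ u^(m+K+j) (K+1) H 4^j ∑_(l ≥ m) ρ^l ≤ 2 (K+1) H 4^j ρ^m u^(m+K+j)` (as `ρ ≤ 1/2`).

(2) `V ≥ u^m (1 - 4^j ∑_(i ≥ 1) ρ^i) ≥ u^m (1 - 4^j * 2 ρ) ≥ 0`; `U = u^(m-j) Y ≥ u^m`.  So `U + V ≥ u^m`.

(3) `U^2 - V^2 = ∑_(l ≥ m) (D_l - (T^2)_l) v^l u^(2m-l)`, and `|D_l|, |(T^2)_l| ≤ (l+1) 16^j (8N)^l ≤ 16^j (16 N)^l` (`D = g^2`), so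
`|U^2 - V^2| ≤ u^(2m) 2 * 16^j ∑_(l ≥ m) (2 ρ)^l ≤ 4 * 16^j (2 ρ)^m u^(2m)` (`2 ρ ≤ 1/2`), and `|U - V| ≤ 4 * 16^j (2ρ)^m u^m`.

(4) `|hom B K u v| ≤ (K+1) H u^K` (`v ≤ u`).  Total: `u^m |FF| ≤ u^(m+K+j) (K+1) H (2 * 4^j + 4 * 16^j) (2ρ)^m ≤ 6 * 16^j (K+1) H (16 N)^m v^m u^(K+j)`; and
`m = (K + j) + (K + 1)`: cancel `u^(K+j)`: `u^(K+1) |FF| ≤ 6 * 16^j (K+1) H (16 N)^m v^m`.
-/

set_option autoImplicit false

namespace Pool.Agent.Lib.MP_2c6f70_nt.KW

open Polynomial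

theorem SizeB_hom_add (P R : ℤ[X]) (d : ℕ) (u v : ℤ) : hom (P + R) d u v = hom P d u v + hom R d u v := by
  unfold hom
  rw [← Finset.sum_add_distrib]
  refine Finset.sum_congr rfl fun i _ => ?_
  rw [coeff_add]
  ring

theorem SizeB_hom_one (e : ℕ) (u v : ℤ) : hom 1 e u v = u ^ e := by
  unfold hom
  rw [Finset.sum_eq_single 0]
  · simp
  · intro i _ hi
    rw [coeff_one, if_neg hi]
    ring
  · intro h
    exact absurd (Finset.mem_range.mpr (Nat.succ_pos e)) h

theorem SizeB_hom_raise {P : ℤ[X]} {d : ℕ} (hP : P.natDegree ≤ d) (e : ℕ) {u : ℤ} (hu : u ≠ 0) (v : ℤ) :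
    hom P (d + e) u v = u ^ e * hom P d u v := by
  have h := hom_mul hP (R := 1) (e := e) (by simp) hu v
  rw [mul_one, SizeB_hom_one] at h
  rw [h, mul_comm]

/-- Bound of a homogenization whose coefficients vanish below `m` and grow geometrically. -/
theorem SizeB_tail {P : ℤ[X]} {d m : ℕ} (h0 : ∀ l < m, P.coeff l = 0) (hmd : m ≤ d) {c σ : ℝ}
    (hc : 0 ≤ c) (hσ : 0 ≤ σ) (hb : ∀ l, (|P.coeff l| : ℝ) ≤ c * σ ^ l) {u v : ℤ} (hu : 0 < u)
    (hv : 0 ≤ v) (hs : 2 * (σ * v) ≤ (u : ℝ)) :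
    |(hom P d u v : ℝ)| ≤ 2 * c * (σ * v) ^ m * (u : ℝ) ^ (d - m) := by
  have hu' : (0 : ℝ) < u := by exact_mod_cast hu
  have hv' : (0 : ℝ) ≤ v := by exact_mod_cast hv
  have e1 : (hom P d u v : ℝ) = ∑ i ∈ Finset.range (d + 1 - m),
      (P.coeff (m + i) : ℝ) * (v : ℝ) ^ (m + i) * (u : ℝ) ^ (d - (m + i)) := by
    unfold hom
    push_cast
    rw [Finset.range_eq_Ico, ← Finset.sum_Ico_consecutive _ (Nat.zero_le m) (by omega : m ≤ d + 1),
      Finset.sum_Ico_eq_sum_range _ m (d + 1)]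
    have : ∑ i ∈ Finset.Ico 0 m, (P.coeff i : ℝ) * (v : ℝ) ^ i * (u : ℝ) ^ (d - i) = 0 := by
      refine Finset.sum_eq_zero fun i hi => ?_
      rw [h0 i (Finset.mem_Ico.mp hi).2]
      simp
    rw [this, zero_add, Finset.range_eq_Ico]
  rw [e1]
  have hs0 : 0 ≤ σ * v := mul_nonneg hσ hv'
  have hterm : ∀ i ∈ Finset.range (d + 1 - m),
      |(P.coeff (m + i) : ℝ) * (v : ℝ) ^ (m + i) * (u : ℝ) ^ (d - (m + i))| ≤
        (c * (σ * v) ^ m * (u : ℝ) ^ (d - m)) * (1 / 2 : ℝ) ^ i := by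
    intro i hi
    have hi' := Finset.mem_range.mp hi
    rw [abs_mul, abs_mul, abs_of_nonneg (pow_nonneg hv' _), abs_of_nonneg (pow_nonneg hu'.le _)]
    have e2 : (u : ℝ) ^ (d - m) = u ^ i * (u : ℝ) ^ (d - (m + i)) := by
      rw [← pow_add]
      congr 1
      omega
    have e3 : (σ * v) ^ i ≤ (u : ℝ) ^ i * (1 / 2 : ℝ) ^ i := by
      rw [← mul_pow]
      exact pow_le_pow_left₀ hs0 (by linarith) i
    have hu2 : (0 : ℝ) ≤ (u : ℝ) ^ (d - (m + i)) := by positivity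
    calc |(P.coeff (m + i) : ℝ)| * (v : ℝ) ^ (m + i) * (u : ℝ) ^ (d - (m + i))
        ≤ (c * σ ^ (m + i)) * (v : ℝ) ^ (m + i) * (u : ℝ) ^ (d - (m + i)) := by
          refine mul_le_mul_of_nonneg_right (mul_le_mul_of_nonneg_right ?_ (by positivity)) hu2
          exact_mod_cast hb (m + i)
      _ = (c * (σ * v) ^ m * (u : ℝ) ^ (d - (m + i))) * (σ * v) ^ i := by
          rw [pow_add, pow_add, mul_pow, mul_pow]
          ring
      _ ≤ (c * (σ * v) ^ m * (u : ℝ) ^ (d - (m + i))) * ((u : ℝ) ^ i * (1 / 2 : ℝ) ^ i) :=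
          mul_le_mul_of_nonneg_left e3 (by positivity)
      _ = _ := by
          rw [e2]
          ring
  refine (Finset.abs_sum_le_sum_abs _ _).trans ((Finset.sum_le_sum hterm).trans ?_)
  rw [← Finset.mul_sum]
  have h2 := sum_geometric_two_le (d + 1 - m)
  have h3 : 0 ≤ c * (σ * v) ^ m * (u : ℝ) ^ (d - m) := by positivity
  calc (c * (σ * v) ^ m * (u : ℝ) ^ (d - m)) * ∑ i ∈ Finset.range (d + 1 - m), (1 / 2 : ℝ) ^ i
      ≤ (c * (σ * v) ^ m * (u : ℝ) ^ (d - m)) * 2 := mul_le_mul_of_nonneg_left h2 h3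
    _ = _ := by ring

/-- Coefficients of a product of two families bounded by `c (8N)^i`. -/
theorem SizeB_sum_le {f g : ℕ → ℤ} {c σ : ℝ} (hc : 0 ≤ c) (hσ : 0 ≤ σ) (l : ℕ)
    (hf : ∀ a ≤ l, (|f a| : ℝ) ≤ c * σ ^ a) (hg : ∀ a ≤ l, (|g a| : ℝ) ≤ c * σ ^ a) :
    |((∑ x ∈ Finset.HasAntidiagonal.antidiagonal l, f x.1 * g x.2 : ℤ) : ℝ)| ≤ c ^ 2 * (2 * σ) ^ l := by
  push_cast
  refine (Finset.abs_sum_le_sum_abs _ _).trans ?_
  have h1 : ∀ x ∈ Finset.HasAntidiagonal.antidiagonal l, |(f x.1 : ℝ) * (g x.2 : ℝ)| ≤ c ^ 2 * σ ^ l := by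
    intro x hx
    have hx' := Finset.HasAntidiagonal.mem_antidiagonal.mp hx
    rw [abs_mul]
    calc |(f x.1 : ℝ)| * |(g x.2 : ℝ)| ≤ (c * σ ^ x.1) * (c * σ ^ x.2) :=
          mul_le_mul (by exact_mod_cast hf x.1 (by omega)) (by exact_mod_cast hg x.2 (by omega))
            (abs_nonneg _) (by positivity)
      _ = c ^ 2 * σ ^ l := by
          rw [← hx', pow_add]
          ring
  refine (Finset.sum_le_card_nsmul _ _ _ h1).trans ?_
  rw [Finset.Nat.card_antidiagonal, nsmul_eq_mul]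
  have h2 : ((l + 1 : ℕ) : ℝ) ≤ 2 ^ l := by
    have : l + 1 ≤ 2 ^ l := Nat.lt_two_pow_self
    exact_mod_cast this
  calc ((l + 1 : ℕ) : ℝ) * (c ^ 2 * σ ^ l) ≤ 2 ^ l * (c ^ 2 * σ ^ l) :=
        mul_le_mul_of_nonneg_right h2 (by positivity)
    _ = c ^ 2 * (2 * σ) ^ l := by
        rw [mul_pow]
        ring

theorem FF_even_le {K j H N : ℕ} {g : PowerSeries ℤ} {D A B : ℤ[X]} (hjK : j ≤ K) (hN : 1 ≤ N)
    (hgD : g ^ 2 = (D : PowerSeries ℤ)) (hD : D.natDegree ≤ 2 * j) (hg0 : PowerSeries.coeff 0 g = 1)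
    (hgb : ∀ i, |PowerSeries.coeff i g| ≤ 4 ^ j * (8 * (N : ℤ)) ^ i) (hP : IsPade g K j H A B)
    {u v Y : ℤ} (hv : 1 ≤ v) (huv : 4 ^ (j + 3) * N * v ≤ u) (hY : Y ^ 2 = hom D (2 * j) u v)
    (hYu : u ^ j ≤ Y) :
    (|FF A B K j u v Y| : ℝ) * (u : ℝ) ^ (K + 1) ≤
      6 * 16 ^ j * (K + 1) * H * (16 * N) ^ (2 * K + j + 1) * (v : ℝ) ^ (2 * K + j + 1) := by
  obtain ⟨m, hm⟩ : ∃ m, m = 2 * K + j + 1 := ⟨_, rfl⟩
  rw [← hm]
  have hNr : (1 : ℝ) ≤ N := by exact_mod_cast hN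
  have hvr : (1 : ℝ) ≤ v := by exact_mod_cast hv
  have huvr : (4 : ℝ) ^ (j + 3) * N * v ≤ u := by exact_mod_cast huv
  have h4 : (1 : ℝ) ≤ 4 ^ j := one_le_pow₀ (by norm_num)
  have hNv : (1 : ℝ) ≤ N * v := by nlinarith
  have h64 : 64 * 4 ^ j * ((N : ℝ) * v) ≤ u := by
    calc 64 * 4 ^ j * ((N : ℝ) * v) = (4 : ℝ) ^ (j + 3) * N * v := by ring
      _ ≤ u := huvr
  have h64' : 64 * ((N : ℝ) * v) ≤ u := by nlinarith
  have hur : (1 : ℝ) ≤ u := by linarith
  have hvu : (v : ℝ) ≤ u := by nlinarith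
  have hu : 0 < u := by
    have : (0 : ℝ) < u := by linarith
    exact_mod_cast this
  have hu0 : u ≠ 0 := hu.ne'
  have hv0 : 0 ≤ v := by omega
  -- the truncation
  obtain ⟨T, hT⟩ : ∃ T : ℤ[X], T = PowerSeries.trunc m g := ⟨_, rfl⟩
  have hTc : ∀ l < m, T.coeff l = PowerSeries.coeff l g := by
    intro l hl
    rw [hT, PowerSeries.coeff_trunc, if_pos hl]
  have hTz : ∀ l, m ≤ l → T.coeff l = 0 := by
    intro l hl
    rw [hT, PowerSeries.coeff_trunc, if_neg (by omega)]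
  have hTd : T.natDegree ≤ m := by
    refine Polynomial.natDegree_le_iff_coeff_eq_zero.mpr fun l hl => hTz l (by omega)
  have hgr : ∀ l, |((PowerSeries.coeff l g : ℤ) : ℝ)| ≤ 4 ^ j * (8 * (N : ℝ)) ^ l := by
    intro l
    exact_mod_cast hgb l
  have hTr : ∀ l, (|T.coeff l| : ℝ) ≤ 4 ^ j * (8 * (N : ℝ)) ^ l := by
    intro l
    by_cases hl : l < m
    · rw [hTc l hl]
      exact hgr l
    · rw [hTz l (by omega)]
      simp only [Int.cast_zero, abs_zero]
      positivity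
  have h16 : ((4 : ℝ) ^ j) ^ 2 = 16 ^ j := by
    rw [← pow_mul, mul_comm j 2, pow_mul]
    norm_num
  have hDr : ∀ l, (|D.coeff l| : ℝ) ≤ 16 ^ j * (16 * (N : ℝ)) ^ l := by
    intro l
    have e1 : D.coeff l = ∑ x ∈ Finset.HasAntidiagonal.antidiagonal l,
        PowerSeries.coeff x.1 g * PowerSeries.coeff x.2 g := by
      rw [← Polynomial.coeff_coe, ← hgD, sq, PowerSeries.coeff_mul]
    have e2 := SizeB_sum_le (f := fun a => PowerSeries.coeff a g)
      (g := fun a => PowerSeries.coeff a g) (by positivity) (by positivity) l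
      (fun a _ => hgr a) (fun a _ => hgr a)
    rw [← e1, h16, show 2 * (8 * (N : ℝ)) = 16 * N by ring] at e2
    exact e2
  have hTTr : ∀ l, (|(T * T).coeff l| : ℝ) ≤ 16 ^ j * (16 * (N : ℝ)) ^ l := by
    intro l
    have e1 : (T * T).coeff l = ∑ x ∈ Finset.HasAntidiagonal.antidiagonal l, T.coeff x.1 * T.coeff x.2 :=
      Polynomial.coeff_mul _ _ _
    have e2 := SizeB_sum_le (f := fun a => T.coeff a) (g := fun a => T.coeff a) (by positivity)
      (by positivity) l (fun a _ => hTr a) (fun a _ => hTr a)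
    rw [← e1, h16, show 2 * (8 * (N : ℝ)) = 16 * N by ring] at e2
    exact e2
  obtain ⟨V, hV⟩ : ∃ V, V = hom T m u v := ⟨_, rfl⟩
  obtain ⟨U, hU⟩ : ∃ U, U = u ^ (m - j) * Y := ⟨_, rfl⟩
  -- (2)
  have hU1 : u ^ m ≤ U := by
    have e1 : u ^ m = u ^ (m - j) * u ^ j := by
      rw [← pow_add]
      congr 1
      omega
    rw [e1, hU]
    exact mul_le_mul_of_nonneg_left hYu (by positivity)
  have hU1r : (u : ℝ) ^ m ≤ U := by exact_mod_cast hU1
  have hV0 : (0 : ℝ) ≤ V := by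
    have e1 : (V : ℝ) - (u : ℝ) ^ m = (hom (T - 1) m u v : ℝ) := by
      have : V - u ^ m = hom (T - 1) m u v := by rw [hom_sub, SizeB_hom_one, hV]
      exact_mod_cast this
    have e2 : |(hom (T - 1) m u v : ℝ)| ≤
        2 * 4 ^ j * (8 * (N : ℝ) * v) ^ 1 * (u : ℝ) ^ (m - 1) := by
      refine SizeB_tail ?_ (by omega) (by positivity) (by positivity) ?_ hu hv0 ?_
      · intro l hl
        have : l = 0 := by omega
        subst this
        rw [coeff_sub, hTc 0 (by omega), hg0]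
        simp
      · intro l
        rcases Nat.eq_zero_or_pos l with h | h
        · subst h
          rw [coeff_sub, hTc 0 (by omega), hg0]
          simp only [coeff_one_zero, sub_self, Int.cast_zero, abs_zero]
          positivity
        · rw [coeff_sub, coeff_one, if_neg (by omega), sub_zero]
          exact hTr l
      · nlinarith
    have e3 : (u : ℝ) ^ m = u * (u : ℝ) ^ (m - 1) := by
      rw [← pow_succ']
      congr 1
      omega
    have e4 : 2 * 4 ^ j * (8 * (N : ℝ) * v) ^ 1 * (u : ℝ) ^ (m - 1) ≤ (u : ℝ) ^ m := by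
      rw [e3]
      refine mul_le_mul_of_nonneg_right ?_ (by positivity)
      rw [pow_one]
      nlinarith
    have e5 := (abs_le.mp (e2.trans e4)).1
    rw [← e1] at e5
    linarith
  -- (3)
  have h3 : |(U : ℝ) - V| ≤ 4 * 16 ^ j * (16 * (N : ℝ) * v) ^ m := by
    have e1 : U ^ 2 = hom D (m + m) u v := by
      have : m + m = 2 * j + 2 * (m - j) := by omega
      rw [this, SizeB_hom_raise hD _ hu0, ← hY, hU]
      ring
    have e2 : V ^ 2 = hom (T * T) (m + m) u v := by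
      rw [hom_mul hTd hTd hu0, ← hV]
      ring
    have e3 : (U - V) * (U + V) = hom (D - T * T) (m + m) u v := by
      rw [hom_sub, ← e1, ← e2]
      ring
    have e3r : ((U : ℝ) - V) * (U + V) = (hom (D - T * T) (m + m) u v : ℝ) := by exact_mod_cast e3
    have e4 : |(hom (D - T * T) (m + m) u v : ℝ)| ≤
        2 * (2 * 16 ^ j) * (16 * (N : ℝ) * v) ^ m * (u : ℝ) ^ (m + m - m) := by
      refine SizeB_tail ?_ (by omega) (by positivity) (by positivity) ?_ hu hv0 ?_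
      · intro l hl
        rw [coeff_sub, Polynomial.coeff_mul]
        have e4 : D.coeff l = PowerSeries.coeff l (g ^ 2) := by rw [hgD, Polynomial.coeff_coe]
        rw [e4, sq, PowerSeries.coeff_mul, sub_eq_zero]
        refine Finset.sum_congr rfl fun x hx => ?_
        have hx' := Finset.HasAntidiagonal.mem_antidiagonal.mp hx
        rw [hTc x.1 (by omega), hTc x.2 (by omega)]
      · intro l
        rw [coeff_sub]
        push_cast
        have := hDr l
        have := hTTr l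
        refine (abs_sub _ _).trans ?_
        linarith
      · nlinarith
    rw [show m + m - m = m by omega] at e4
    have hsum : (u : ℝ) ^ m ≤ U + V := by linarith
    have hupos : (0 : ℝ) < (u : ℝ) ^ m := by positivity
    have e5 : |(U : ℝ) - V| * (u : ℝ) ^ m ≤ (4 * 16 ^ j * (16 * (N : ℝ) * v) ^ m) * (u : ℝ) ^ m := by
      calc |(U : ℝ) - V| * (u : ℝ) ^ m ≤ |(U : ℝ) - V| * (U + V) :=
            mul_le_mul_of_nonneg_left hsum (abs_nonneg _)
        _ = |((U : ℝ) - V) * (U + V)| := by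
            rw [abs_mul, abs_of_nonneg (by linarith : (0 : ℝ) ≤ (U : ℝ) + V)]
        _ ≤ _ := by
            rw [e3r]
            refine e4.trans (le_of_eq ?_)
            ring
    exact le_of_mul_le_mul_right e5 hupos
  -- (1)
  have h1 : |(hom (A + B * T) (m + (K + j)) u v : ℝ)| ≤
      2 * ((K + 1) * H * 4 ^ j) * (8 * (N : ℝ) * v) ^ m * (u : ℝ) ^ (m + (K + j) - m) := by
    refine SizeB_tail ?_ (by omega) (by positivity) (by positivity) ?_ hu hv0 ?_
    · intro l hl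
      have e1 := hP.van l (by omega)
      rw [map_add, Polynomial.coeff_coe, PowerSeries.coeff_mul] at e1
      rw [coeff_add, Polynomial.coeff_mul]
      rw [← e1]
      congr 1
      refine Finset.sum_congr rfl fun x hx => ?_
      have hx' := Finset.HasAntidiagonal.mem_antidiagonal.mp hx
      rw [Polynomial.coeff_coe, hTc x.2 (by omega)]
    · intro l
      by_cases hl : l < m
      · have e1 := hP.van l (by omega)
        rw [map_add, Polynomial.coeff_coe, PowerSeries.coeff_mul] at e1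
        have e2 : (A + B * T).coeff l = 0 := by
          rw [coeff_add, Polynomial.coeff_mul]
          rw [← e1]
          congr 1
          refine Finset.sum_congr rfl fun x hx => ?_
          have hx' := Finset.HasAntidiagonal.mem_antidiagonal.mp hx
          rw [Polynomial.coeff_coe, hTc x.2 (by omega)]
        rw [e2]
        simp only [Int.cast_zero, abs_zero]
        positivity
      · have hAl : A.coeff l = 0 := by
          refine coeff_eq_zero_of_natDegree_lt (lt_of_le_of_lt hP.degA ?_)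
          omega
        rw [coeff_add, hAl, zero_add, Polynomial.coeff_mul,
          Finset.Nat.sum_antidiagonal_eq_sum_range_succ_mk]
        push_cast
        refine (Finset.abs_sum_le_sum_abs _ _).trans ?_
        have e1 : ∑ i ∈ Finset.range l.succ, |(B.coeff i : ℝ) * (T.coeff (l - i) : ℝ)| =
            ∑ i ∈ Finset.range (K + 1), |(B.coeff i : ℝ) * (T.coeff (l - i) : ℝ)| := by
          symm
          refine Finset.sum_subset ?_ ?_
          · intro i hi
            have := Finset.mem_range.mp hi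
            exact Finset.mem_range.mpr (by omega)
          · intro i _ hi
            have hi' : K < i := by
              by_contra h
              exact hi (Finset.mem_range.mpr (by omega))
            rw [coeff_eq_zero_of_natDegree_lt (lt_of_le_of_lt hP.degB hi')]
            simp
        rw [e1]
        have e2 : ∀ i ∈ Finset.range (K + 1), |(B.coeff i : ℝ) * (T.coeff (l - i) : ℝ)| ≤
            H * (4 ^ j * (8 * (N : ℝ)) ^ l) := by
          intro i hi
          rw [abs_mul]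
          have f1 : |(B.coeff i : ℝ)| ≤ H := by exact_mod_cast hP.boundB i
          have f2 := hTr (l - i)
          have f3 : (8 * (N : ℝ)) ^ (l - i) ≤ (8 * (N : ℝ)) ^ l :=
            pow_le_pow_right₀ (by linarith) (Nat.sub_le _ _)
          have f4 : |(T.coeff (l - i) : ℝ)| ≤ 4 ^ j * (8 * (N : ℝ)) ^ l :=
            f2.trans (mul_le_mul_of_nonneg_left f3 (by positivity))
          exact mul_le_mul f1 f4 (abs_nonneg _) (Nat.cast_nonneg _)
        refine (Finset.sum_le_card_nsmul _ _ _ e2).trans (le_of_eq ?_)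
        rw [Finset.card_range, nsmul_eq_mul]
        push_cast
        ring
    · nlinarith
  rw [show m + (K + j) - m = K + j by omega] at h1
  -- (4)
  have hB : |(hom B K u v : ℝ)| ≤ (K + 1) * H * (u : ℝ) ^ K := by
    unfold hom
    push_cast
    refine (Finset.abs_sum_le_sum_abs _ _).trans ?_
    have e2 : ∀ i ∈ Finset.range (K + 1),
        |(B.coeff i : ℝ) * (v : ℝ) ^ i * (u : ℝ) ^ (K - i)| ≤ H * (u : ℝ) ^ K := by
      intro i hi
      have hi' := Finset.mem_range.mp hi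
      have hvr0 : (0 : ℝ) ≤ v := by linarith
      have hur0 : (0 : ℝ) ≤ u := by linarith
      rw [abs_mul, abs_mul, abs_of_nonneg (pow_nonneg hvr0 _), abs_of_nonneg (pow_nonneg hur0 _)]
      have f1 : |(B.coeff i : ℝ)| ≤ H := by exact_mod_cast hP.boundB i
      have f2 : (v : ℝ) ^ i ≤ (u : ℝ) ^ i := pow_le_pow_left₀ hvr0 hvu i
      have f3 : (u : ℝ) ^ K = (u : ℝ) ^ i * (u : ℝ) ^ (K - i) := by
        rw [← pow_add]
        congr 1
        omega
      rw [f3, ← mul_assoc]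
      refine mul_le_mul_of_nonneg_right ?_ (by positivity)
      exact mul_le_mul f1 f2 (by positivity) (Nat.cast_nonneg _)
    refine (Finset.sum_le_card_nsmul _ _ _ e2).trans (le_of_eq ?_)
    rw [Finset.card_range, nsmul_eq_mul]
    push_cast
    ring
  have hmain : u ^ m * FF A B K j u v Y = hom (A + B * T) (m + (K + j)) u v +
      u ^ j * hom B K u v * (U - V) := by
    have e1 : hom (A + B * T) (m + (K + j)) u v =
        u ^ m * hom A (K + j) u v + u ^ j * (hom B K u v * V) := by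
      rw [SizeB_hom_add, show m + (K + j) = (K + j) + m by omega, SizeB_hom_raise hP.degA _ hu0,
        show (K + j) + m = (K + m) + j by omega,
        SizeB_hom_raise (natDegree_mul_le.trans (add_le_add hP.degB hTd)) _ hu0,
        hom_mul hP.degB hTd hu0, ← hV]
    rw [e1, hU]
    unfold FF
    have : u ^ m = u ^ j * u ^ (m - j) := by
      rw [← pow_add]
      congr 1
      omega
    rw [this]
    ring
  have hmainr : (u : ℝ) ^ m * (FF A B K j u v Y : ℝ) = (hom (A + B * T) (m + (K + j)) u v : ℝ) +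
      (u : ℝ) ^ j * (hom B K u v : ℝ) * ((U : ℝ) - V) := by exact_mod_cast hmain
  have hfin : (u : ℝ) ^ m * |(FF A B K j u v Y : ℝ)| ≤
      (6 * 16 ^ j * (K + 1) * H * (16 * (N : ℝ) * v) ^ m) * (u : ℝ) ^ (K + j) := by
    have e1 : (u : ℝ) ^ m * |(FF A B K j u v Y : ℝ)| = |(u : ℝ) ^ m * (FF A B K j u v Y : ℝ)| := by
      rw [abs_mul, abs_of_nonneg (by positivity : (0 : ℝ) ≤ (u : ℝ) ^ m)]
    rw [e1, hmainr]
    refine (abs_add_le _ _).trans ?_
    rw [abs_mul, abs_mul, abs_of_nonneg (by positivity : (0 : ℝ) ≤ (u : ℝ) ^ j)]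
    have f1 : (8 * (N : ℝ) * v) ^ m ≤ (16 * (N : ℝ) * v) ^ m :=
      pow_le_pow_left₀ (by positivity) (by nlinarith) m
    have f2 : (4 : ℝ) ^ j ≤ 16 ^ j := pow_le_pow_left₀ (by norm_num) (by norm_num) j
    have f3 : (u : ℝ) ^ j * |(hom B K u v : ℝ)| * |(U : ℝ) - V| ≤
        (u : ℝ) ^ j * ((K + 1) * H * (u : ℝ) ^ K) * (4 * 16 ^ j * (16 * (N : ℝ) * v) ^ m) :=
      mul_le_mul (mul_le_mul_of_nonneg_left hB (by positivity)) h3 (abs_nonneg _) (by positivity)
    have f4 : 2 * ((K + 1) * H * 4 ^ j) * (8 * (N : ℝ) * v) ^ m * (u : ℝ) ^ (K + j) ≤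
        2 * ((K + 1) * H * 16 ^ j) * (16 * (N : ℝ) * v) ^ m * (u : ℝ) ^ (K + j) := by
      refine mul_le_mul_of_nonneg_right ?_ (by positivity)
      refine mul_le_mul ?_ f1 (by positivity) (by positivity)
      exact mul_le_mul_of_nonneg_left (mul_le_mul_of_nonneg_left f2 (by positivity)) (by norm_num)
    refine (add_le_add (h1.trans f4) f3).trans (le_of_eq ?_)
    rw [pow_add]
    ring
  have hpos : (0 : ℝ) < (u : ℝ) ^ (K + j) := by positivity
  refine le_of_mul_le_mul_right ?_ hpos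
  have e1 : (u : ℝ) ^ m = (u : ℝ) ^ (K + 1) * (u : ℝ) ^ (K + j) := by
    rw [← pow_add]
    congr 1
    omega
  calc |(FF A B K j u v Y : ℝ)| * (u : ℝ) ^ (K + 1) * (u : ℝ) ^ (K + j)
      = (u : ℝ) ^ m * |(FF A B K j u v Y : ℝ)| := by
        rw [e1]
        ring
    _ ≤ _ := hfin
    _ = _ := by
        rw [mul_pow]
        ring

end Pool.Agent.Lib.MP_2c6f70_nt.KW
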