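import Pool.Agent.Lib.MP_2c6f70_nt.KW.CorA

/-!
# JOB CorB: near orthogonality of order `2 j`

`m = 2 K + j + 1`, `ℓ = log (8 N) ≥ 2`, `W = log q`.  `P_e`, `P_o`: the primes with `∏ sg = 1`, resp. `-1` (`sg_eq_or`; a product of signs is a sign); `ω_e`, `ω_o` the sums
of `log (mr q p)`; `ω_e + ω_o = log ∏ mr` lies in `[W - log 8, W]` (`prod_mr_le`).  The sum in question is `M = ω_e - ω_o + L`.

Case `a < 4^(k+2) N q`, `L = 0`: `4 (a + q N) ≤ 4^(k+4) N q`, `log ≤ W + ℓ + (k+4) log 4`.  `bound_a` for both types: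
`m ω ≤ log (4 (K+j+1)) + log HH + (K+j) (W + ℓ + (k+4) log 4)`.  `|M| ≤ 2 max (ω_e, ω_o) - (ω_e + ω_o)`, so
`m |M| ≤ (2 (K + j) - m) W + 2 (K+j) (ℓ + (k+4) log 4) + m log 8 + 2 log (4 (K+j+1)) + 2 log HH`; `2 (K+j) - m = j - 1`, `K + j ≤ m`, `m ≥ 2 K + 2`; divide by `m`:
`|M| ≤ (j-1)/m W + 2 ℓ + 2 (k+4) log 4 + log 8 + (1/(K+1)) (2.5 K + (K+1) 5 K ℓ) ≤ (j-1)/(2K) W + 2 ℓ + 7 K ℓ + ℓ + 2.5 + 5 K ℓ` (`(k + 4) ≤ 5 K`, `2 * 5 K * 1.4 = 14 K ≤ 7 K ℓ`; `2.5 ≤ 1.25 ℓ`).

Case `4^(k+2) N q ≤ a`, `L = log a - log q ≥ 0`: `bound_a` for `P_o`: `4 (a + q N) ≤ 8 a`: `m ω_o ≤ log (4 (K+j+1)) + log HH + (K+j) (log 8 + W + L)`;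
`bound_b` for `P_e`: `m ω_e ≤ log (12 16^j (K+1)) + log HH + m (log (16 N) + W) - (K+1) (W + L)` (drop `log 4`).
`M = 2 ω_e - (ω_e + ω_o) + L ≤ 2 ω_e - W + log 8 + L` and `m M ≤ (m - 2 (K+1)) (W + L) + 2 m log (16 N) + m log 8 + 2 log (12 16^j (K+1)) + 2 log HH` (`m (-W + 2 W + L) - 2 (K+1) (W+L)`), `m - 2 (K+1) = j - 1`;
`M = (ω_e + ω_o) + L - 2 ω_o ≥ W - log 8 + L - 2 ω_o`, `m M ≥ (m - 2 (K+j)) (W + L) - m log 8 - 2 (K+j) log 8 - 2 log (4 (K+j+1)) - 2 log HH`, `m - 2 (K+j) = - (j - 1)`.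
Everything is at most `25 K ℓ` after division by `m` (`log (16 N) ≤ ℓ + 0.7 ≤ 1.35 ℓ`).
-/

set_option autoImplicit false

namespace Pool.Agent.Lib.MP_2c6f70_nt.KW

private theorem CorB_div {m K j X R M : ℝ} (hm : 2 * K ≤ m) (hK : 0 < K) (hj : 1 ≤ j)
    (hX : 0 ≤ X) (h : m * M ≤ (j - 1) * X + m * R) : M ≤ (j - 1) / (2 * K) * X + R := by
  have hm0 : 0 < m := by linarith
  have h1 : M ≤ ((j - 1) * X) / m + R := by
    have h2 : m * M ≤ m * (((j - 1) * X) / m + R) := by
      rw [mul_add, mul_div_cancel₀ _ hm0.ne']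
      exact h
    exact le_of_mul_le_mul_left h2 hm0
  have h3 : ((j - 1) * X) / m ≤ ((j - 1) * X) / (2 * K) :=
    div_le_div_of_nonneg_left (mul_nonneg (by linarith) hX) (by linarith) hm
  have h4 : ((j - 1) * X) / (2 * K) = (j - 1) / (2 * K) * X := by ring
  linarith

private theorem CorB_sign (q z p : ℕ) (J : Finset ℕ) :
    ∏ x ∈ J, sg q z p x = 1 ∨ ∏ x ∈ J, sg q z p x = -1 := by
  classical
  induction J using Finset.induction with
  | empty => exact Or.inl Finset.prod_empty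
  | insert y J hy ih =>
    rw [Finset.prod_insert hy]
    rcases sg_eq_or q z p y with h | h <;> rcases ih with h' | h' <;> rw [h, h'] <;> norm_num

private theorem CorB_four : Real.log 4 ≤ 1.4 := by
  have h : Real.log 4 = 2 * Real.log 2 := by
    rw [show (4 : ℝ) = 2 ^ 2 by norm_num, Real.log_pow]
    push_cast
    ring
  rw [h]
  linarith [Real.log_two_lt_d9]

private theorem CorB_eight : 2 ≤ Real.log 8 := by
  have h : Real.log 8 = 3 * Real.log 2 := by
    rw [show (8 : ℝ) = 2 ^ 3 by norm_num, Real.log_pow]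
    push_cast
    ring
  rw [h]
  linarith [Real.log_two_gt_d9]

private theorem CorB_split {q z : ℕ} (J : Finset ℕ) (hq : 2 ≤ q) : ∃ Pe Po : Finset ℕ,
    Pe ⊆ q.primeFactors ∧ Po ⊆ q.primeFactors ∧
    (∀ p ∈ Pe, ∏ x ∈ J, sg q z p x = 1) ∧ (∀ p ∈ Po, ∏ x ∈ J, sg q z p x = -1) ∧
    (∑ p ∈ q.primeFactors, Real.log (mr q p) * ∏ x ∈ J, sg q z p x =
      ∑ p ∈ Pe, Real.log (mr q p) - ∑ p ∈ Po, Real.log (mr q p)) ∧
    ∑ p ∈ Pe, Real.log (mr q p) + ∑ p ∈ Po, Real.log (mr q p) ≤ Real.log q ∧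
    Real.log q - Real.log 8 ≤ ∑ p ∈ Pe, Real.log (mr q p) + ∑ p ∈ Po, Real.log (mr q p) := by
  classical
  have hsum : ∑ p ∈ q.primeFactors, Real.log (mr q p) =
      Real.log ((∏ p ∈ q.primeFactors, mr q p : ℕ) : ℝ) := by
    rw [Nat.cast_prod, Real.log_prod]
    intro p hp
    have := mr_pos hp
    positivity
  obtain ⟨h1, h2⟩ := prod_mr_le (q := q) (by omega)
  have hpos : 1 ≤ ∏ p ∈ q.primeFactors, mr q p := by
    by_contra h
    have h3 : ∏ p ∈ q.primeFactors, mr q p = 0 := by omega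
    rw [h3] at h2
    omega
  have hposR : (0 : ℝ) < ((∏ p ∈ q.primeFactors, mr q p : ℕ) : ℝ) := by exact_mod_cast hpos
  have hle : Real.log ((∏ p ∈ q.primeFactors, mr q p : ℕ) : ℝ) ≤ Real.log q :=
    Real.log_le_log hposR (by exact_mod_cast h1)
  have hge : Real.log q ≤
      Real.log 8 + Real.log ((∏ p ∈ q.primeFactors, mr q p : ℕ) : ℝ) := by
    rw [← Real.log_mul (by norm_num) hposR.ne']
    refine Real.log_le_log (by exact_mod_cast (by omega : 0 < q)) ?_
    exact_mod_cast h2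
  have hadd : ∑ p ∈ q.primeFactors.filter (fun p => ∏ x ∈ J, sg q z p x = 1),
      Real.log (mr q p) + ∑ p ∈ q.primeFactors.filter (fun p => ¬ ∏ x ∈ J, sg q z p x = 1),
      Real.log (mr q p) = Real.log ((∏ p ∈ q.primeFactors, mr q p : ℕ) : ℝ) := by
    rw [Finset.sum_filter_add_sum_filter_not, hsum]
  have he : ∀ p ∈ q.primeFactors.filter (fun p => ∏ x ∈ J, sg q z p x = 1),
      ∏ x ∈ J, sg q z p x = 1 := fun p hp => (Finset.mem_filter.1 hp).2
  have ho : ∀ p ∈ q.primeFactors.filter (fun p => ¬ ∏ x ∈ J, sg q z p x = 1),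
      ∏ x ∈ J, sg q z p x = -1 := fun p hp =>
    (CorB_sign q z p J).resolve_left (Finset.mem_filter.1 hp).2
  refine ⟨q.primeFactors.filter (fun p => ∏ x ∈ J, sg q z p x = 1),
    q.primeFactors.filter (fun p => ¬ ∏ x ∈ J, sg q z p x = 1), Finset.filter_subset _ _,
    Finset.filter_subset _ _, he, ho, ?_, ?_, ?_⟩
  · rw [← Finset.sum_filter_add_sum_filter_not q.primeFactors
      (fun p => ∏ x ∈ J, sg q z p x = 1), Finset.sum_congr rfl (fun p hp => by
        rw [he p hp, mul_one] : ∀ p ∈ q.primeFactors.filter (fun p => ∏ x ∈ J, sg q z p x = 1),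
          Real.log (mr q p) * ∏ x ∈ J, sg q z p x = Real.log (mr q p)),
      Finset.sum_congr rfl (fun p hp => by
        rw [ho p hp, mul_neg_one] :
          ∀ p ∈ q.primeFactors.filter (fun p => ¬ ∏ x ∈ J, sg q z p x = 1),
          Real.log (mr q p) * ∏ x ∈ J, sg q z p x = -Real.log (mr q p)),
      Finset.sum_neg_distrib]
    ring
  · rw [hadd]
    exact hle
  · rw [hadd]
    linarith

private theorem CorB_LL {q a N k : ℕ} (hq : 1 ≤ q) (hN : 1 ≤ N) : 0 ≤ LL q a N k := by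
  unfold LL
  split_ifs with h
  · have h1 : q ≤ a := by
      refine le_trans ?_ h
      have h2 : 1 ≤ 4 ^ (k + 2) * N := Nat.mul_pos (by positivity) hN
      calc q = 1 * q := (one_mul q).symm
        _ ≤ 4 ^ (k + 2) * N * q := Nat.mul_le_mul_right _ h2
    have h3 : Real.log q ≤ Real.log a :=
      Real.log_le_log (by exact_mod_cast hq) (by exact_mod_cast h1)
    linarith
  · exact le_rfl

theorem corr_le {q a N j K k : ℕ} {S J : Finset ℕ} (hq : 2 ≤ q) (ha : 1 ≤ a) (hN : 1 ≤ N)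
    (hc : Nat.Coprime q a) (hS : Rts q a N S) (hJ : J ⊆ S) (hJc : J.card = 2 * j) (hj : 1 ≤ j)
    (hjk : j ≤ k) (hkK : k ≤ K) (hW : 50 * (K : ℝ) ^ 2 * Real.log (8 * N) ≤ Real.log q) {z : ℕ}
    (hz : z ∈ S) :
    |∑ p ∈ q.primeFactors, Real.log (mr q p) * ∏ x ∈ J, sg q z p x + LL q a N k| ≤
      ((j : ℝ) - 1) / (2 * K) * (Real.log q + LL q a N k) + 25 * K * Real.log (8 * N) := by
  have hL := CorB_LL (q := q) (a := a) (N := N) (k := k) (by omega) hN
  obtain ⟨Pe, Po, hPe, hPo, he, ho, hdiff, hsumle, hsumge⟩ := CorB_split (z := z) J hq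
  obtain ⟨W, hWd⟩ : ∃ W : ℝ, W = Real.log q := ⟨_, rfl⟩
  obtain ⟨l, hl⟩ : ∃ l : ℝ, l = Real.log (8 * N) := ⟨_, rfl⟩
  obtain ⟨we, hwe⟩ : ∃ w : ℝ, w = ∑ p ∈ Pe, Real.log (mr q p) := ⟨_, rfl⟩
  obtain ⟨wo, hwo⟩ : ∃ w : ℝ, w = ∑ p ∈ Po, Real.log (mr q p) := ⟨_, rfl⟩
  have hjK : j ≤ K := hjk.trans hkK
  have hN' : (1 : ℝ) ≤ N := by exact_mod_cast hN
  have hj' : (1 : ℝ) ≤ j := by exact_mod_cast hj
  have hjk' : (j : ℝ) ≤ k := by exact_mod_cast hjk
  have hkK' : (k : ℝ) ≤ K := by exact_mod_cast hkK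
  have hK1 : (1 : ℝ) ≤ K := by linarith
  have hqR : (2 : ℝ) ≤ q := by exact_mod_cast hq
  have haR : (1 : ℝ) ≤ a := by exact_mod_cast ha
  have hlN : l = Real.log 8 + Real.log N := by
    rw [hl, Real.log_mul (by norm_num) (by linarith)]
  have hlogN : 0 ≤ Real.log N := Real.log_nonneg hN'
  have hl8 : Real.log 8 ≤ l := by linarith
  have hl2 : 2 ≤ l := by linarith [CorB_eight]
  have hW0 : 0 ≤ W := by
    rw [hWd]
    exact Real.log_nonneg (by linarith)
  have hH := log_HH_le' (N := N) (K := K) (j := j) hN hj hjK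
  rw [← hl] at hH
  have hsa := log_small_a (K := K) (j := j) hj hjK
  have hsb := log_small_b (K := K) (j := j) hj hjK
  rw [hdiff, ← hwe, ← hwo, ← hl, ← hWd]
  rw [← hwe, ← hwo, ← hWd] at hsumle hsumge
  -- the product bounds
  obtain ⟨m, hm⟩ : ∃ m : ℝ, m = 2 * (K : ℝ) + j + 1 := ⟨_, rfl⟩
  have hmK : 2 * (K : ℝ) ≤ m := by linarith
  have hm4 : 4 ≤ m := by linarith
  have hmK2 : 2 * ((K : ℝ) + 1) ≤ m := by linarith
  have hKj : (K : ℝ) + j ≤ m := by linarith
  obtain ⟨T, hT⟩ : ∃ T : ℝ, T = (K : ℝ) * m * l := ⟨_, rfl⟩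
  have t1 : m * l ≤ T := by
    rw [hT, mul_assoc]
    exact le_mul_of_one_le_left (by positivity) hK1
  have t2 : (K : ℝ) * m * 2 ≤ T := by
    rw [hT]
    exact mul_le_mul_of_nonneg_left hl2 (by positivity)
  have t3 : (K : ℝ) * l ≤ T := by
    have h1 : (K : ℝ) * l * 1 ≤ (K : ℝ) * l * m :=
      mul_le_mul_of_nonneg_left (by linarith) (by positivity)
    have h2 : T = (K : ℝ) * l * m := by rw [hT]; ring
    linarith
  have t4 : (K : ℝ) * 2 ≤ K * l := mul_le_mul_of_nonneg_left hl2 (by positivity)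
  have t5 : (K : ℝ) * l * (2 * ((K : ℝ) + 1)) ≤ T := by
    have h2 : T = (K : ℝ) * l * m := by rw [hT]; ring
    rw [h2]
    exact mul_le_mul_of_nonneg_left hmK2 (by positivity)
  have hH' : Real.log (HH N K j) ≤ 5 / 2 * T := by
    have h1 : ((K : ℝ) + 1) * (5 * K * l) = 5 / 2 * ((K : ℝ) * l * (2 * ((K : ℝ) + 1))) := by ring
    rw [h1] at hH
    linarith
  have hmT : m * (25 * (K : ℝ) * l) = 25 * T := by rw [hT]; ring
  have hm8 : m * Real.log 8 ≤ T := le_trans (mul_le_mul_of_nonneg_left hl8 (by linarith)) t1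
  have hba := bound_a hq ha hN hc hS hJ hJc hj hjK hW hz (-1) (Or.inr rfl) Po hPo
    (fun p hp => by rw [ho p hp]; norm_num)
  rw [← hwo, ← hm] at hba
  have hX : 0 ≤ W + LL q a N k := by linarith
  by_cases hcase : 4 ^ (k + 2) * N * q ≤ a
  · -- the place at infinity
    have hLL : LL q a N k = Real.log a - W := by
      unfold LL
      rw [if_pos hcase, hWd]
    have hla : Real.log a = W + LL q a N k := by linarith
    obtain ⟨X, hXd⟩ : ∃ X : ℝ, X = W + LL q a N k := ⟨_, rfl⟩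
    have hNq : (N : ℝ) * q ≤ a := by
      have h1 : N * q ≤ a := by
        refine le_trans ?_ hcase
        have h2 : 1 ≤ 4 ^ (k + 2) := Nat.one_le_pow _ _ (by norm_num)
        calc N * q = 1 * (N * q) := (one_mul _).symm
          _ ≤ 4 ^ (k + 2) * (N * q) := Nat.mul_le_mul_right _ h2
          _ = 4 ^ (k + 2) * N * q := (mul_assoc _ _ _).symm
      exact_mod_cast h1
    have hlog1 : Real.log (4 * ((a : ℝ) + q * N)) ≤ Real.log 8 + X := by
      rw [hXd, ← hla, ← Real.log_mul (by norm_num) (by linarith)]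
      refine Real.log_le_log (by positivity) ?_
      linarith [mul_comm (N : ℝ) q]
    have hbb := bound_b hq ha hN hc hS hJ hJc hj hjk hjK hW hcase hz Pe hPe he
    rw [← hwe, ← hm, ← hWd] at hbb
    have hlog2 : X ≤ Real.log (4 * a) := by
      rw [hXd, ← hla]
      exact Real.log_le_log (by linarith) (by linarith)
    have hlog16 : Real.log (16 * N) ≤ l + 0.7 := by
      have h1 : (16 : ℝ) * N = 2 * (8 * N) := by ring
      rw [h1, Real.log_mul (by norm_num) (by positivity), ← hl]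
      linarith [Real.log_two_lt_d9]
    have e1 : ((K : ℝ) + j) * Real.log (4 * ((a : ℝ) + q * N)) ≤
        ((K : ℝ) + j) * (Real.log 8 + X) := mul_le_mul_of_nonneg_left hlog1 (by positivity)
    have e2 : ((K : ℝ) + 1) * X ≤ ((K : ℝ) + 1) * Real.log (4 * a) :=
      mul_le_mul_of_nonneg_left hlog2 (by positivity)
    have e3 : m * Real.log (16 * N) ≤ m * (l + 0.7) :=
      mul_le_mul_of_nonneg_left hlog16 (by linarith)
    have e4 : ((K : ℝ) + j) * Real.log 8 ≤ T := by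
      refine le_trans ?_ hm8
      exact mul_le_mul_of_nonneg_right hKj (by linarith [CorB_eight])
    have e5 : m ≤ T / 2 := by
      have h1 : m * 1 ≤ m * (K : ℝ) := mul_le_mul_of_nonneg_left hK1 (by linarith)
      linarith [mul_comm (K : ℝ) m]
    have e6 : m * (we + wo) ≥ m * (W - Real.log 8) :=
      mul_le_mul_of_nonneg_left hsumge (by linarith)
    rw [hWd] at hXd ⊢
    rw [← hWd] at hXd ⊢
    rw [← hXd] at hX ⊢
    have hLX : LL q a N k = X - W := by linarith
    rw [hLX, abs_le]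
    constructor
    · have h1 : -(we - wo + (X - W)) ≤ ((j : ℝ) - 1) / (2 * K) * X + 25 * K * l := by
        refine CorB_div hmK (by linarith) hj' hX ?_
        rw [hmT]
        have e7 : m * -(we - wo + (X - W)) = 2 * (m * wo) - m * (we + wo) - m * X + m * W := by
          ring
        rw [e7]
        have e8 : m * (W - Real.log 8) = m * W - m * Real.log 8 := by ring
        have e9 : ((K : ℝ) + j) * (Real.log 8 + X) =
          ((K : ℝ) + j) * Real.log 8 + ((K : ℝ) + j) * X := by ring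
        have e10 : 2 * (((K : ℝ) + j) * X) - m * X = ((j : ℝ) - 1) * X := by
          rw [hm]; ring
        linarith
      linarith
    · refine CorB_div hmK (by linarith) hj' hX ?_
      rw [hmT]
      have e7 : m * (we - wo + (X - W)) = 2 * (m * we) - m * (we + wo) + m * X - m * W := by
        ring
      rw [e7]
      have e8 : m * (W - Real.log 8) = m * W - m * Real.log 8 := by ring
      have e9 : m * (Real.log (16 * N) + W) = m * Real.log (16 * N) + m * W := by ring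
      have e10 : m * X - 2 * (((K : ℝ) + 1) * X) = ((j : ℝ) - 1) * X := by
        rw [hm]; ring
      have e11 : m * (l + 0.7) = m * l + 0.7 * m := by ring
      linarith
  · -- no weight at infinity
    have hLL : LL q a N k = 0 := by
      unfold LL
      rw [if_neg hcase]
    have hbe := bound_a hq ha hN hc hS hJ hJc hj hjK hW hz 1 (Or.inl rfl) Pe hPe
      (fun p hp => by rw [he p hp]; norm_num)
    rw [← hwe, ← hm] at hbe
    rw [hLL, add_zero, add_zero]
    have hlog1 : Real.log (4 * ((a : ℝ) + q * N)) ≤ W + l + (k + 4) * Real.log 4 := by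
      have h1 : a + q * N ≤ 4 ^ (k + 3) * (N * q) := by
        have h2 : a ≤ 4 ^ (k + 2) * (N * q) := by
          rw [← mul_assoc]
          exact (not_le.mp hcase).le
        have h3 : 1 ≤ 4 ^ (k + 2) := Nat.one_le_pow _ _ (by norm_num)
        have h4 : 1 * (N * q) ≤ 4 ^ (k + 2) * (N * q) := Nat.mul_le_mul_right _ h3
        have h5 : 4 ^ (k + 3) * (N * q) = 4 * (4 ^ (k + 2) * (N * q)) := by ring
        have h6 : q * N = N * q := mul_comm _ _
        omega
      have h2 : (4 : ℝ) * ((a : ℝ) + q * N) ≤ 4 ^ (k + 4) * (N * q) := by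
        have h3 : ((a + q * N : ℕ) : ℝ) ≤ ((4 ^ (k + 3) * (N * q) : ℕ) : ℝ) := by exact_mod_cast h1
        push_cast at h3
        have h4 : (4 : ℝ) ^ (k + 4) * (N * q) = 4 * (4 ^ (k + 3) * (N * q)) := by ring
        rw [h4]
        linarith
      have h3 : Real.log (4 ^ (k + 4) * ((N : ℝ) * q)) = (k + 4) * Real.log 4 + (Real.log N + W) := by
        rw [Real.log_mul (by positivity) (by positivity), Real.log_mul (by positivity) (by positivity),
          Real.log_pow, hWd]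
        push_cast
        ring
      have h4 := Real.log_le_log (by positivity) h2
      rw [h3] at h4
      linarith [CorB_eight]
    have hk4 : ((k : ℝ) + 4) * Real.log 4 ≤ 7 * K := by
      have h1 : ((k : ℝ) + 4) * Real.log 4 ≤ (5 * K) * 1.4 :=
        mul_le_mul (by linarith) CorB_four (Real.log_nonneg (by norm_num)) (by linarith)
      linarith
    have e1 : ((K : ℝ) + j) * Real.log (4 * ((a : ℝ) + q * N)) ≤
        ((K : ℝ) + j) * W + ((K : ℝ) + j) * (l + 7 * K) := by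
      rw [← mul_add]
      exact mul_le_mul_of_nonneg_left (by linarith) (by positivity)
    have e2 : ((K : ℝ) + j) * (l + 7 * K) ≤ m * (l + 7 * K) :=
      mul_le_mul_of_nonneg_right hKj (by linarith)
    have e3 : m * (l + 7 * K) = m * l + 7 / 2 * (K * m * 2) := by ring
    have e6 : m * (we + wo) ≥ m * (W - Real.log 8) :=
      mul_le_mul_of_nonneg_left hsumge (by linarith)
    have e8 : m * (W - Real.log 8) = m * W - m * Real.log 8 := by ring
    have e10 : 2 * (((K : ℝ) + j) * W) - m * W = ((j : ℝ) - 1) * W := by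
      rw [hm]; ring
    rw [abs_le]
    constructor
    · have h1 : -(we - wo) ≤ ((j : ℝ) - 1) / (2 * K) * W + 25 * K * l := by
        refine CorB_div hmK (by linarith) hj' hW0 ?_
        rw [hmT]
        have e7 : m * -(we - wo) = 2 * (m * wo) - m * (we + wo) := by ring
        rw [e7]
        linarith
      linarith
    · refine CorB_div hmK (by linarith) hj' hW0 ?_
      rw [hmT]
      have e7 : m * (we - wo) = 2 * (m * we) - m * (we + wo) := by ring
      rw [e7]
      linarith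

theorem LL_nonneg {q a N k : ℕ} (hq : 1 ≤ q) (hN : 1 ≤ N) : 0 ≤ LL q a N k := by
  unfold LL
  split_ifs with h
  · have h1 : q ≤ a := by
      refine le_trans ?_ h
      have h2 : 1 ≤ 4 ^ (k + 2) * N := Nat.mul_pos (by positivity) hN
      calc q = 1 * q := (one_mul q).symm
        _ ≤ 4 ^ (k + 2) * N * q := Nat.mul_le_mul_right _ h2
    have h3 : Real.log q ≤ Real.log a :=
      Real.log_le_log (by exact_mod_cast hq) (by exact_mod_cast h1)
    linarith
  · exact le_rfl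

end Pool.Agent.Lib.MP_2c6f70_nt.KW
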