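import Mathlib
import Pool.Agent.Lib.MP_2c6f70_nt.Md
import Pool.Agent.Lib.MP_2c6f70_nt.Sg

/-!
# Squares in arithmetic progressions: correlations of several sign vectors

`Rts q a N S`: all elements of `S` are roots `x`, `x^2 = a + q n`, `n < N`.
`nn q a x = (x^2 - a) / q`: the index `n` of the root `x`.
`mr q p`: the power of `p` in `q` for odd `p`; for `p = 2` a quarter of it if the exponent is at least four, and `1` otherwise.
`hom P d u v = ∑ P_i v^i u^(d-i)`: the homogenization of degree `d` of the polynomial `P` at `(u, v)`.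
`FF A B K j u v Y = hom A (K+j) u v + hom B K u v * Y`.
`DD q a J = ∏ (1 + 4 n_x X)`, `x ∈ J`.
`IsPade g K j H A B`: `A + B g` vanishes to order `2 K + j + 1`, degrees at most `K + j` and `K`, coefficients at most `H`.
`slw q = ∑ (log p^e)^2`, sum over the prime powers exactly dividing `q`.
`LL q a N k`: the weight at infinity, `log (a / q)` if `4^(k+2) N q ≤ a` and `0` otherwise.
-/

set_option autoImplicit false

namespace Pool.Agent.Lib.MP_2c6f70_nt.KW

open Polynomial

def Rts (q a N : ℕ) (S : Finset ℕ) : Prop := ∀ x ∈ S, ∃ n < N, x ^ 2 = a + q * n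

def nn (q a x : ℕ) : ℕ := (x ^ 2 - a) / q

def mr (q p : ℕ) : ℕ :=
  if p = 2 then (if q.factorization 2 ≤ 3 then 1 else 2 ^ (q.factorization 2 - 2))
  else p ^ q.factorization p

noncomputable def hom (P : ℤ[X]) (d : ℕ) (u v : ℤ) : ℤ :=
  ∑ i ∈ Finset.range (d + 1), P.coeff i * v ^ i * u ^ (d - i)

noncomputable def FF (A B : ℤ[X]) (K j : ℕ) (u v Y : ℤ) : ℤ := hom A (K + j) u v + hom B K u v * Y

noncomputable def DD (q a : ℕ) (J : Finset ℕ) : ℤ[X] := ∏ x ∈ J, (1 + C (4 * (nn q a x : ℤ)) * X)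

structure IsPade (g : PowerSeries ℤ) (K j H : ℕ) (A B : ℤ[X]) : Prop where
  degA : A.natDegree ≤ K + j
  degB : B.natDegree ≤ K
  ne : B ≠ 0
  boundA : ∀ i, |A.coeff i| ≤ (H : ℤ)
  boundB : ∀ i, |B.coeff i| ≤ (H : ℤ)
  van : ∀ l < 2 * K + j + 1, PowerSeries.coeff l ((A : PowerSeries ℤ) + (B : PowerSeries ℤ) * g) = 0

noncomputable def slw (q : ℕ) : ℝ :=
  ∑ p ∈ q.primeFactors, Real.log ((p : ℝ) ^ q.factorization p) ^ 2

noncomputable def LL (q a N k : ℕ) : ℝ :=
  open Classical in if 4 ^ (k + 2) * N * q ≤ a then Real.log a - Real.log q else 0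

/-- The bound of the coefficients of the Padé approximants. -/
def HH (N K j : ℕ) : ℕ := ((K + 1) * (4 ^ j * (8 * N) ^ (2 * K + j))) ^ (K + 1)

end Pool.Agent.Lib.MP_2c6f70_nt.KW
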