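import Pool.Agent.Lib.MP_2c6f70_nt.KW.Defs

/-!
# JOB Hom: homogenization

Key lemma `hom_cast`; all other identities follow by casting to `ℚ` when `u ≠ 0`.
-/

set_option autoImplicit false

namespace Pool.Agent.Lib.MP_2c6f70_nt.KW

open Polynomial

/-- `u^d P(v/u)`; `Polynomial.eval_eq_sum_range'`. -/
theorem hom_cast {P : ℤ[X]} {d : ℕ} (hP : P.natDegree ≤ d) {u : ℤ} (hu : u ≠ 0) (v : ℤ) :
    ((hom P d u v : ℤ) : ℚ) = (u : ℚ) ^ d * (P.map (Int.castRingHom ℚ)).eval ((v : ℚ) / u) := by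
  unfold hom
  have hP1 : (P.map (Int.castRingHom ℚ)).natDegree < d + 1 :=
    lt_of_le_of_lt (natDegree_map_le.trans hP) (Nat.lt_succ_self d)
  rw [eval_eq_sum_range' hP1]
  push_cast
  rw [Finset.mul_sum]
  refine Finset.sum_congr rfl fun i hi => ?_
  have hi' : i ≤ d := Nat.lt_succ_iff.1 (Finset.mem_range.1 hi)
  have hu' : (u : ℚ) ≠ 0 := by exact_mod_cast hu
  rw [coeff_map, eq_intCast, div_pow]
  have h1 : (u : ℚ) ^ d = (u : ℚ) ^ (d - i) * (u : ℚ) ^ i := by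
    rw [← pow_add, Nat.sub_add_cancel hi']
  rw [h1]
  field_simp

theorem hom_mul {P R : ℤ[X]} {d e : ℕ} (hP : P.natDegree ≤ d) (hR : R.natDegree ≤ e) {u : ℤ} (hu : u ≠ 0)
    (v : ℤ) : hom (P * R) (d + e) u v = hom P d u v * hom R e u v := by
  have hd : (P * R).natDegree ≤ d + e := natDegree_mul_le.trans (Nat.add_le_add hP hR)
  have h1 := hom_cast hd hu v
  have h2 := hom_cast hP hu v
  have h3 := hom_cast hR hu v
  have h4 : ((hom (P * R) (d + e) u v : ℤ) : ℚ) = ((hom P d u v * hom R e u v : ℤ) : ℚ) := by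
    push_cast
    rw [h1, h2, h3, Polynomial.map_mul, eval_mul, pow_add]
    ring
  exact_mod_cast h4

theorem hom_sub (P R : ℤ[X]) (d : ℕ) (u v : ℤ) : hom (P - R) d u v = hom P d u v - hom R d u v := by
  unfold hom
  rw [← Finset.sum_sub_distrib]
  refine Finset.sum_congr rfl fun i _ => ?_
  rw [coeff_sub]
  ring

/-- `hom (X^m R) (m + e) = v^m hom R e`. -/
theorem hom_X_pow_mul {R : ℤ[X]} {m e : ℕ} (hR : R.natDegree ≤ e) {u : ℤ} (hu : u ≠ 0) (v : ℤ) :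
    hom (X ^ m * R) (m + e) u v = v ^ m * hom R e u v := by
  have hd : (X ^ m * R).natDegree ≤ m + e :=
    natDegree_mul_le.trans (Nat.add_le_add (natDegree_X_pow_le m) hR)
  have h1 := hom_cast hd hu v
  have h3 := hom_cast hR hu v
  have hu' : (u : ℚ) ≠ 0 := by exact_mod_cast hu
  have h4 : ((hom (X ^ m * R) (m + e) u v : ℤ) : ℚ) = ((v ^ m * hom R e u v : ℤ) : ℚ) := by
    push_cast
    rw [h1, h3, Polynomial.map_mul, eval_mul, pow_add, Polynomial.map_pow, map_X, eval_pow, eval_X,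
      div_pow]
    field_simp
  exact_mod_cast h4

/-- Homogeneity. -/
theorem hom_smul (P : ℤ[X]) (d : ℕ) (c u v : ℤ) : hom P d (c * u) (c * v) = c ^ d * hom P d u v := by
  unfold hom
  rw [Finset.mul_sum]
  refine Finset.sum_congr rfl fun i hi => ?_
  have hi' : i ≤ d := Nat.lt_succ_iff.1 (Finset.mem_range.1 hi)
  have h1 : c ^ d = c ^ i * c ^ (d - i) := by
    rw [← pow_add, Nat.add_sub_cancel' hi']
  rw [h1, mul_pow, mul_pow]
  ring

theorem hom_prod {ι : Type*} (J : Finset ι) (n : ι → ℤ) {u : ℤ} (hu : u ≠ 0) (v : ℤ) :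
    hom (∏ x ∈ J, (1 + C (n x) * X)) J.card u v = ∏ x ∈ J, (u + n x * v) := by
  have hd : (∏ x ∈ J, (1 + C (n x) * X) : ℤ[X]).natDegree ≤ J.card := by
    refine (natDegree_prod_le _ _).trans ?_
    have h1 : ∀ x ∈ J, (1 + C (n x) * X : ℤ[X]).natDegree ≤ 1 := by
      intro x _
      refine (natDegree_add_le _ _).trans ?_
      refine max_le ?_ ?_
      · rw [natDegree_one]
        exact Nat.zero_le _
      · exact (natDegree_C_mul_le _ _).trans natDegree_X_le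
    refine (Finset.sum_le_sum h1).trans ?_
    simp
  have h1 := hom_cast hd hu v
  have hu' : (u : ℚ) ≠ 0 := by exact_mod_cast hu
  have h4 : ((hom (∏ x ∈ J, (1 + C (n x) * X)) J.card u v : ℤ) : ℚ) =
      ((∏ x ∈ J, (u + n x * v) : ℤ) : ℚ) := by
    rw [h1, Polynomial.map_prod, eval_prod, ← Finset.prod_const, ← Finset.prod_mul_distrib]
    push_cast
    refine Finset.prod_congr rfl fun x _ => ?_
    simp only [Polynomial.map_add, Polynomial.map_one, Polynomial.map_mul, map_C, map_X, eval_add,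
      eval_one, eval_mul, eval_C, eval_X]
    rw [eq_intCast]
    field_simp
  exact_mod_cast h4

theorem hom_abs_le {P : ℤ[X]} {H : ℕ} (hP : ∀ i, |P.coeff i| ≤ (H : ℤ)) (d : ℕ) {u v : ℤ} {μ : ℕ}
    (hu : |u| ≤ (μ : ℤ)) (hv : |v| ≤ (μ : ℤ)) : |hom P d u v| ≤ (d + 1 : ℤ) * H * (μ : ℤ) ^ d := by
  unfold hom
  have hH : (0 : ℤ) ≤ H := Int.natCast_nonneg H
  have hμ : (0 : ℤ) ≤ μ := Int.natCast_nonneg μ
  refine (Finset.abs_sum_le_sum_abs _ _).trans ?_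
  have h1 : ∀ i ∈ Finset.range (d + 1), |P.coeff i * v ^ i * u ^ (d - i)| ≤ (H : ℤ) * (μ : ℤ) ^ d := by
    intro i hi
    have hi' : i ≤ d := Nat.lt_succ_iff.1 (Finset.mem_range.1 hi)
    rw [abs_mul, abs_mul, abs_pow, abs_pow]
    have h2 : |v| ^ i ≤ (μ : ℤ) ^ i := pow_le_pow_left₀ (abs_nonneg _) hv i
    have h3 : |u| ^ (d - i) ≤ (μ : ℤ) ^ (d - i) := pow_le_pow_left₀ (abs_nonneg _) hu _
    have h4 : (μ : ℤ) ^ d = (μ : ℤ) ^ i * (μ : ℤ) ^ (d - i) := by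
      rw [← pow_add, Nat.add_sub_cancel' hi']
    rw [h4, ← mul_assoc]
    refine mul_le_mul (mul_le_mul (hP i) h2 (pow_nonneg (abs_nonneg _) _) hH) h3
      (pow_nonneg (abs_nonneg _) _) (mul_nonneg hH (pow_nonneg hμ _))
  refine (Finset.sum_le_sum h1).trans ?_
  rw [Finset.sum_const, Finset.card_range, nsmul_eq_mul]
  push_cast
  rw [mul_assoc]

/-- Trivial bound of `FF`: `K + j + 1 + (K + 1) ≤ 2 (K + j + 1)`. -/
theorem FF_abs_le {A B : ℤ[X]} {K j H : ℕ} (hA : ∀ i, |A.coeff i| ≤ (H : ℤ))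
    (hB : ∀ i, |B.coeff i| ≤ (H : ℤ)) {u v Y : ℤ} {μ : ℕ} (hu : |u| ≤ (μ : ℤ)) (hv : |v| ≤ (μ : ℤ))
    (hY : |Y| ≤ (μ : ℤ) ^ j) : |FF A B K j u v Y| ≤ 2 * (K + j + 1 : ℤ) * H * (μ : ℤ) ^ (K + j) := by
  unfold FF
  have hH : (0 : ℤ) ≤ H := Int.natCast_nonneg H
  have hμ : (0 : ℤ) ≤ μ := Int.natCast_nonneg μ
  have h1 := hom_abs_le hA (K + j) hu hv
  have h2 := hom_abs_le hB K hu hv
  refine (abs_add_le _ _).trans ?_
  rw [abs_mul]
  have h3 : |hom B K u v| * |Y| ≤ ((K + 1 : ℤ) * H * (μ : ℤ) ^ K) * (μ : ℤ) ^ j :=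
    mul_le_mul h2 hY (abs_nonneg _) (by positivity)
  have h4 : ((K + 1 : ℤ) * H * (μ : ℤ) ^ K) * (μ : ℤ) ^ j = (K + 1 : ℤ) * (H * (μ : ℤ) ^ (K + j)) := by
    rw [pow_add]
    ring
  have h5 : (0 : ℤ) ≤ H * (μ : ℤ) ^ (K + j) := mul_nonneg hH (pow_nonneg hμ _)
  have hj : (0 : ℤ) ≤ j := Int.natCast_nonneg j
  push_cast at h1
  rw [h4] at h3
  have h6 : (K + 1 : ℤ) * (H * (μ : ℤ) ^ (K + j)) ≤ (K + j + 1 : ℤ) * (H * (μ : ℤ) ^ (K + j)) :=
    mul_le_mul_of_nonneg_right (by linarith) h5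
  have h7 : (K + j + 1 : ℤ) * H * (μ : ℤ) ^ (K + j) = (K + j + 1 : ℤ) * (H * (μ : ℤ) ^ (K + j)) := by
    ring
  rw [h7] at h1
  have h8 : 2 * (K + j + 1 : ℤ) * H * (μ : ℤ) ^ (K + j) =
      (K + j + 1 : ℤ) * (H * (μ : ℤ) ^ (K + j)) + (K + j + 1 : ℤ) * (H * (μ : ℤ) ^ (K + j)) := by
    ring
  rw [h8]
  exact add_le_add h1 (h3.trans h6)

/-- A nonzero form vanishing at `(4 a, q)`, `gcd (a, q) = 1`: let `l` be the least index with `R_l ≠ 0`; then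
`0 = q^l (R_l (4a)^(d-l) + q (...))`, so `q ∣ R_l (4 a)^(d - l)`, so `q ∣ 4^(d-l) R_l`, and `q ≤ 4^d |R_l|`. -/
theorem le_of_hom_eq_zero {R : ℤ[X]} {d : ℕ} (hR : R ≠ 0) (hd : R.natDegree ≤ d) {q a : ℕ} (hq : 1 ≤ q)
    (hc : Nat.Coprime q a) {M : ℕ} (hM : ∀ i, |R.coeff i| ≤ (M : ℤ))
    (h0 : hom R d (4 * (a : ℤ)) q = 0) : q ≤ 4 ^ d * M := by
  classical
  have hex : ∃ l, R.coeff l ≠ 0 := by
    by_contra h
    push Not at h
    exact hR (Polynomial.ext (by simpa using h))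
  set l := Nat.find hex with hl
  have hl1 : R.coeff l ≠ 0 := Nat.find_spec hex
  have hl2 : ∀ i < l, R.coeff i = 0 := fun i hi => by
    by_contra h
    exact Nat.find_min hex hi h
  have hld : l ≤ d := (le_natDegree_of_ne_zero hl1).trans hd
  have hq0 : (q : ℤ) ≠ 0 := by
    have : q ≠ 0 := by omega
    exact_mod_cast this
  unfold hom at h0
  rw [← Finset.add_sum_erase _ _ (Finset.mem_range.2 (Nat.lt_succ_of_le hld))] at h0
  have h1 : (q : ℤ) ^ (l + 1) ∣ ∑ i ∈ (Finset.range (d + 1)).erase l,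
      R.coeff i * (q : ℤ) ^ i * (4 * (a : ℤ)) ^ (d - i) := by
    refine Finset.dvd_sum fun i hi => ?_
    have hil : i ≠ l := (Finset.mem_erase.1 hi).1
    rcases lt_or_gt_of_ne hil with h | h
    · rw [hl2 i h]
      simp
    · exact dvd_mul_of_dvd_left (dvd_mul_of_dvd_right (pow_dvd_pow _ h) _) _
  have h2 : (q : ℤ) ^ (l + 1) ∣ R.coeff l * (q : ℤ) ^ l * (4 * (a : ℤ)) ^ (d - l) := by
    rw [eq_neg_of_add_eq_zero_left h0]
    exact (dvd_neg).2 h1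
  have h3 : (q : ℤ) ^ l * (q : ℤ) ∣ (q : ℤ) ^ l * (R.coeff l * (4 * (a : ℤ)) ^ (d - l)) := by
    rw [← pow_succ]
    have h4 : (q : ℤ) ^ l * (R.coeff l * (4 * (a : ℤ)) ^ (d - l)) =
        R.coeff l * (q : ℤ) ^ l * (4 * (a : ℤ)) ^ (d - l) := by ring
    rw [h4]
    exact h2
  have h4 : (q : ℤ) ∣ R.coeff l * (4 * (a : ℤ)) ^ (d - l) :=
    (mul_dvd_mul_iff_left (pow_ne_zero l hq0)).1 h3
  have h5 : (q : ℤ) ∣ (R.coeff l * 4 ^ (d - l)) * (a : ℤ) ^ (d - l) := by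
    have h6 : (R.coeff l * 4 ^ (d - l)) * (a : ℤ) ^ (d - l) = R.coeff l * (4 * (a : ℤ)) ^ (d - l) := by
      rw [mul_pow]
      ring
    rw [h6]
    exact h4
  have hcop : IsCoprime (q : ℤ) ((a : ℤ) ^ (d - l)) := (Nat.isCoprime_iff_coprime.2 hc).pow_right
  have h7 : (q : ℤ) ∣ R.coeff l * 4 ^ (d - l) := hcop.dvd_of_dvd_mul_right h5
  have h8 : R.coeff l * 4 ^ (d - l) ≠ 0 := mul_ne_zero hl1 (pow_ne_zero _ (by norm_num))
  have h9 : (q : ℤ) ≤ |R.coeff l * 4 ^ (d - l)| :=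
    Int.le_of_dvd (abs_pos.2 h8) ((dvd_abs _ _).2 h7)
  have h10 : |R.coeff l * 4 ^ (d - l)| ≤ 4 ^ d * (M : ℤ) := by
    rw [abs_mul, abs_of_nonneg (by positivity : (0 : ℤ) ≤ 4 ^ (d - l)), mul_comm]
    have h11 : (4 : ℤ) ^ (d - l) ≤ 4 ^ d := pow_le_pow_right₀ (by norm_num) (Nat.sub_le _ _)
    exact mul_le_mul h11 (hM l) (abs_nonneg _) (by positivity)
  have h12 : (q : ℤ) ≤ ((4 ^ d * M : ℕ) : ℤ) := by
    push_cast
    exact h9.trans h10
  exact_mod_cast h12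

end Pool.Agent.Lib.MP_2c6f70_nt.KW
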