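import Pool.Agent.Lib.MP_2c6f70_nt.KW.Hom

/-!
# JOB Loc: divisibility of `FF` at one prime

Write `m = 2 K + j + 1`, `g_i` the coefficients of `g`, `V = ∑_(i < m) g_i v^i u^(m-i)`, `U = u^(m-j) Y` (`j ≤ m`).

(1) `U^2 ≡ V^2 (mod v^m)`: `U^2 = u^(2m - 2j) Y^2 = u^(2m-2j) hom D (2j) u v = hom D (2m) u v` (also for `2 j > ...`: `2 m ≥ 2 j`; use `hom_mul` with `1`,
or directly `∑ D_i v^i u^(2m - i)`), and `V^2 = hom (T^2) (2m) u v` where `T = ∑_(i<m) g_i X^i` (`PowerSeries.trunc m g`); `D - T^2` has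
vanishing coefficients below `m` because `g^2 = D` (coefficients of `T^2` and of `g^2` below `m` agree).  So `v^m ∣ U^2 - V^2`
(`Polynomial.X_pow_dvd_iff`, `hom_X_pow_mul`), and `p^(E m) ∣ (U - V) (U + V)`.

(2) `U ≡ u^m` and `V ≡ u^m` modulo `p^E`, so `U + V ≡ 2 u^m (mod p^E)`.  If `p ≠ 2`: `p ∤ U + V`, so `p^(E m) ∣ U - V`.  If `p = 2`:
`E ≥ 2`, `U + V = 2 w` with `w` odd, so `2^(E m) ∣ 2 (U - V) w` and `2^(E m) ∣ 2 (U - V)`.  In both cases `p^(E m) ∣ 2 (U - V)`.

(3) `u^m FF = (u^m hom A (K+j) u v + u^j hom B K u v * V) + u^j hom B K u v * (U - V)`; the first bracket is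
`hom (A + B T) (m + K + j) u v`, and the coefficients of `A + B T` below `m` vanish (they agree with those of `A + B g`), so it is divisible by
`v^m`.  So `p^(E m) ∣ 2 u^m FF`, and `p ∤ u`.
-/

set_option autoImplicit false

namespace Pool.Agent.Lib.MP_2c6f70_nt.KW

open Polynomial

theorem Loc_hom_add (P R : ℤ[X]) (d : ℕ) (u v : ℤ) : hom (P + R) d u v = hom P d u v + hom R d u v := by
  unfold hom
  rw [← Finset.sum_add_distrib]
  refine Finset.sum_congr rfl fun i _ => ?_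
  rw [coeff_add]
  ring

theorem Loc_hom_one (e : ℕ) (u v : ℤ) : hom 1 e u v = u ^ e := by
  unfold hom
  rw [Finset.sum_eq_single 0]
  · simp
  · intro i _ hi
    rw [coeff_one, if_neg hi]
    ring
  · intro h
    exact absurd (Finset.mem_range.mpr (Nat.succ_pos e)) h

/-- Raising the degree. -/
theorem Loc_hom_raise {P : ℤ[X]} {d : ℕ} (hP : P.natDegree ≤ d) (e : ℕ) {u : ℤ} (hu : u ≠ 0) (v : ℤ) :
    hom P (d + e) u v = u ^ e * hom P d u v := by
  have h := hom_mul hP (R := 1) (e := e) (by simp) hu v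
  rw [mul_one, Loc_hom_one] at h
  rw [h, mul_comm]

/-- Divisibility by `v^m`. -/
theorem Loc_hom_dvd {P : ℤ[X]} {m e : ℕ} (hP : P.natDegree ≤ m + e) (h0 : ∀ l < m, P.coeff l = 0)
    {u : ℤ} (hu : u ≠ 0) (v : ℤ) : v ^ m ∣ hom P (m + e) u v := by
  obtain ⟨R, hR⟩ := Polynomial.X_pow_dvd_iff.mpr h0
  by_cases hR0 : R = 0
  · rw [hR0, mul_zero] at hR
    rw [hR]
    have : hom 0 (m + e) u v = 0 := by
      unfold hom
      simp
    rw [this]
    exact dvd_zero _
  · have hdeg : R.natDegree ≤ e := by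
      rw [hR, natDegree_X_pow_mul m hR0] at hP
      omega
    rw [hR, hom_X_pow_mul hdeg hu]
    exact dvd_mul_right _ _

theorem loc_dvd {p E K j H : ℕ} {g : PowerSeries ℤ} {D A B : ℤ[X]} (hp : p.Prime)
    (hgD : g ^ 2 = (D : PowerSeries ℤ)) (hD : D.natDegree ≤ 2 * j) (hg0 : PowerSeries.coeff 0 g = 1)
    (hP : IsPade g K j H A B) {u v Y : ℤ} (hY : Y ^ 2 = hom D (2 * j) u v) (hE : 1 ≤ E)
    (hE2 : p = 2 → 2 ≤ E) (hv : (p : ℤ) ^ E ∣ v) (hu : ¬ (p : ℤ) ∣ u) (hYu : (p : ℤ) ^ E ∣ Y - u ^ j) :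
    (p : ℤ) ^ (E * (2 * K + j + 1)) ∣ 2 * FF A B K j u v Y := by
  have hu0 : u ≠ 0 := by
    rintro rfl
    exact hu (dvd_zero _)
  have hpZ : Prime (p : ℤ) := Nat.prime_iff_prime_int.mp hp
  obtain ⟨m, hm⟩ : ∃ m, m = 2 * K + j + 1 := ⟨_, rfl⟩
  rw [← hm]
  obtain ⟨T, hT⟩ : ∃ T : ℤ[X], T = PowerSeries.trunc m g := ⟨_, rfl⟩
  have hTc : ∀ l < m, T.coeff l = PowerSeries.coeff l g := by
    intro l hl
    rw [hT, PowerSeries.coeff_trunc, if_pos hl]
  have hTd : T.natDegree ≤ m := by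
    refine Polynomial.natDegree_le_iff_coeff_eq_zero.mpr fun l hl => ?_
    rw [hT, PowerSeries.coeff_trunc, if_neg (by omega)]
  -- products with the truncation
  have hmulT : ∀ P : ℤ[X], ∀ l < m, (P * T).coeff l =
      PowerSeries.coeff l ((P : PowerSeries ℤ) * g) := by
    intro P l hl
    rw [Polynomial.coeff_mul, PowerSeries.coeff_mul]
    refine Finset.sum_congr rfl fun x hx => ?_
    have hx' := Finset.HasAntidiagonal.mem_antidiagonal.mp hx
    rw [Polynomial.coeff_coe, hTc x.2 (by omega)]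
  obtain ⟨V, hV⟩ : ∃ V, V = hom T m u v := ⟨_, rfl⟩
  obtain ⟨U, hU⟩ : ∃ U, U = u ^ (m - j) * Y := ⟨_, rfl⟩
  have hvE : (p : ℤ) ^ (E * m) ∣ v ^ m := by
    rw [pow_mul]
    exact pow_dvd_pow_of_dvd hv m
  -- (1)
  have h1 : v ^ m ∣ (U - V) * (U + V) := by
    have e1 : U ^ 2 = hom D (m + m) u v := by
      have : m + m = 2 * j + 2 * (m - j) := by omega
      rw [this, Loc_hom_raise hD _ hu0, ← hY, hU]
      ring
    have e2 : V ^ 2 = hom (T * T) (m + m) u v := by
      rw [hom_mul hTd hTd hu0, ← hV]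
      ring
    have e3 : (U - V) * (U + V) = hom (D - T * T) (m + m) u v := by
      rw [hom_sub, ← e1, ← e2]
      ring
    rw [e3]
    refine Loc_hom_dvd ?_ ?_ hu0 v
    · refine (natDegree_sub_le _ _).trans (max_le (by omega) ?_)
      exact natDegree_mul_le.trans (by omega)
    · intro l hl
      rw [coeff_sub, Polynomial.coeff_mul]
      have e4 : D.coeff l = PowerSeries.coeff l (g ^ 2) := by rw [hgD, Polynomial.coeff_coe]
      rw [e4, sq, PowerSeries.coeff_mul, sub_eq_zero]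
      refine Finset.sum_congr rfl fun x hx => ?_
      have hx' := Finset.HasAntidiagonal.mem_antidiagonal.mp hx
      rw [hTc x.1 (by omega), hTc x.2 (by omega)]
  -- (2)
  have hVm : (p : ℤ) ^ E ∣ V - u ^ m := by
    have e1 : V - u ^ m = hom (T - 1) m u v := by
      rw [hom_sub, Loc_hom_one, hV]
    rw [e1]
    have e2 : v ^ 1 ∣ hom (T - 1) (1 + (m - 1)) u v := by
      refine Loc_hom_dvd ?_ ?_ hu0 v
      · refine (natDegree_sub_le _ _).trans (max_le (by omega) ?_)
        rw [natDegree_one]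
        omega
      · intro l hl
        have : l = 0 := by omega
        subst this
        rw [coeff_sub, hTc 0 (by omega), hg0]
        simp
    rw [pow_one, show 1 + (m - 1) = m by omega] at e2
    exact hv.trans e2
  have hUm : (p : ℤ) ^ E ∣ U - u ^ m := by
    have e1 : U - u ^ m = u ^ (m - j) * (Y - u ^ j) := by
      rw [hU, mul_sub, ← pow_add, show m - j + j = m by omega]
    rw [e1]
    exact hYu.mul_left _
  have hsum : (p : ℤ) ^ E ∣ (U + V) - 2 * u ^ m := by
    have := dvd_add hUm hVm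
    rwa [show U - u ^ m + (V - u ^ m) = (U + V) - 2 * u ^ m by ring] at this
  have hum : ¬ (p : ℤ) ∣ u ^ m := fun h => hu (hpZ.dvd_of_dvd_pow h)
  have h2 : (p : ℤ) ^ (E * m) ∣ 2 * (U - V) := by
    have h3 : (p : ℤ) ^ (E * m) ∣ (U - V) * (U + V) := hvE.trans h1
    by_cases hp2 : p = 2
    · subst hp2
      have hE' := hE2 rfl
      -- `U + V = 2 w`, `w` odd
      have h4 : (4 : ℤ) ∣ (U + V) - 2 * u ^ m := by
        refine dvd_trans ?_ hsum
        rw [show (4 : ℤ) = ((2 : ℕ) : ℤ) ^ 2 by norm_num]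
        exact pow_dvd_pow _ hE'
      obtain ⟨c, hc⟩ := h4
      have h5 : U + V = 2 * (u ^ m + 2 * c) := by linarith
      have h6 : ¬ ((2 : ℕ) : ℤ) ∣ u ^ m + 2 * c := by
        intro h
        apply hum
        have h7 : ((2 : ℕ) : ℤ) ∣ 2 * c := ⟨c, by norm_num⟩
        exact (dvd_add_left h7).mp h
      rw [h5, show (U - V) * (2 * (u ^ m + 2 * c)) = (2 * (U - V)) * (u ^ m + 2 * c) by ring] at h3
      exact hpZ.pow_dvd_of_dvd_mul_right _ h6 h3
    · have h4 : ¬ (p : ℤ) ∣ U + V := by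
        intro h
        have h5 : (p : ℤ) ∣ (U + V) - 2 * u ^ m :=
          (dvd_pow_self _ (by omega : E ≠ 0)).trans hsum
        have h6 : (p : ℤ) ∣ 2 * u ^ m := (dvd_sub_right h).mp h5
        rcases hpZ.dvd_or_dvd h6 with h7 | h7
        · have h8 : p ∣ 2 := by exact_mod_cast h7
          exact hp2 ((Nat.prime_dvd_prime_iff_eq hp Nat.prime_two).mp h8)
        · exact hum h7
      exact (hpZ.pow_dvd_of_dvd_mul_right _ h4 h3).mul_left 2
  -- (3)
  have h7 : (p : ℤ) ^ (E * m) ∣ (2 * FF A B K j u v Y) * u ^ m := by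
    have e1 : u ^ m * hom A (K + j) u v + u ^ j * (hom B K u v * V) =
        hom (A + B * T) (m + (K + j)) u v := by
      rw [Loc_hom_add, show m + (K + j) = (K + j) + m by omega, Loc_hom_raise hP.degA _ hu0,
        show (K + j) + m = (K + m) + j by omega,
        Loc_hom_raise (natDegree_mul_le.trans (add_le_add hP.degB hTd)) _ hu0,
        hom_mul hP.degB hTd hu0, ← hV]
    have e2 : (2 * FF A B K j u v Y) * u ^ m =
        2 * hom (A + B * T) (m + (K + j)) u v + (u ^ j * hom B K u v) * (2 * (U - V)) := by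
      rw [← e1, hU]
      unfold FF
      have : u ^ m = u ^ j * u ^ (m - j) := by
        rw [← pow_add]
        congr 1
        omega
      rw [this]
      ring
    rw [e2]
    refine dvd_add ?_ (h2.mul_left _)
    refine (hvE.trans ?_).mul_left 2
    refine Loc_hom_dvd ?_ ?_ hu0 v
    · refine (natDegree_add_le _ _).trans (max_le (hP.degA.trans (by omega)) ?_)
      exact (natDegree_mul_le.trans (add_le_add hP.degB hTd)).trans (by omega)
    · intro l hl
      rw [coeff_add, hmulT B l hl]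
      have := hP.van l (by omega)
      rwa [map_add, Polynomial.coeff_coe] at this
  have h8 : ¬ (p : ℤ) ∣ u ^ m := hum
  exact hpZ.pow_dvd_of_dvd_mul_right _ h8 h7

end Pool.Agent.Lib.MP_2c6f70_nt.KW
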