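import Pool.Agent.Lib.MP_2c6f70_nt.KW.Rank

/-!
# JOB Mn: the main inequality

`N = 0`: `S = ∅` and the binomial coefficient is `0` (`k ≥ 1`).  `q = 1`: `slw 1 = 0`.  Let `q ≥ 2`, `N ≥ 1`, `W = log q > 0`, `s = slw q > 0` (`slw_pos`), `s ≤ W^2` (`slw_le_sq`), `r = W^2 / s ≥ 1`,
`ℓ = log (8 N) ≥ 2`.  The hypothesis `2000 k^2 ℓ W ≤ s` gives `2000 k^2 ℓ ≤ s / W ≤ W` and `2000 k^2 ℓ r ≤ W`.
Suppose `C(T,k) > 17 r`, `T = #S`.  `n = ⌊16 r⌋ + 1 ≤ 16 r + 1 ≤ 17 r < C(T,k) = #(S.powersetCard k)` (`Finset.card_powersetCard`), so there is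
`I ⊆ S.powersetCard k` with `#I = n` (`Finset.exists_subset_card_eq`).  `K = ⌈5 k sqrt r⌉`: `5 k sqrt r ≤ K ≤ 5 k sqrt r + 1 ≤ 6 k sqrt r`, `k ≤ K`,
`50 K^2 ℓ ≤ 1800 k^2 r ℓ ≤ W`.  `n (k/K)^2 ≤ 17 r / (25 r) < 1`.  `rank_ineq`: `n (∑ log^2 mr + L^2) < 2 (W + L)^2 ≤ 4 (W^2 + L^2)`.  By `slw_le`: `∑ log^2 mr ≥ (s - 9)/2 ≥ s / 4`
(`s ≥ 2000 * 2 * W * ... ≥ 18`: `s ≥ 2000 k^2 ℓ W ≥ 4000 * log 2`).  But `n > 16 r = 16 W^2 / s`: `n s / 4 > 4 W^2`, `n L^2 ≥ 4 L^2`: contradiction.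
-/

set_option autoImplicit false

namespace Pool.Agent.Lib.MP_2c6f70_nt.KW

theorem main_ineq {q a N k : ℕ} {S : Finset ℕ} (hq : 1 ≤ q) (ha : 1 ≤ a) (hc : Nat.Coprime q a)
    (hS : Rts q a N S) (hk : 1 ≤ k)
    (hs : 2000 * (k : ℝ) ^ 2 * Real.log (8 * N) * Real.log q ≤ slw q) :
    (S.card.choose k : ℝ) * slw q ≤ 17 * Real.log q ^ 2 := by
  classical
  rcases Nat.eq_zero_or_pos N with hN0 | hN
  · have hSe : S = ∅ := by
      rw [Finset.eq_empty_iff_forall_notMem]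
      intro x hx
      obtain ⟨n, hn, _⟩ := hS x hx
      omega
    rw [hSe, Finset.card_empty, Nat.choose_eq_zero_of_lt (by omega)]
    simp only [Nat.cast_zero, zero_mul]
    positivity
  rcases Nat.lt_or_ge q 2 with hq1 | hq2
  · have hq1' : q = 1 := by omega
    subst hq1'
    have h0 : slw 1 = 0 := by simp [slw]
    rw [h0]
    simp
  by_contra hcon
  push Not at hcon
  have hWpos : 0 < Real.log q := Real.log_pos (by exact_mod_cast hq2)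
  have hspos : 0 < slw q := slw_pos hq2
  have hsle : slw q ≤ Real.log q ^ 2 := slw_le_sq (by omega)
  have hslw : slw q ≤ 2 * ∑ p ∈ q.primeFactors, Real.log (mr q p) ^ 2 + 9 := slw_le q
  have hlog2 := Real.log_two_gt_d9
  have hWlow : Real.log 2 ≤ Real.log q := Real.log_le_log (by norm_num) (by exact_mod_cast hq2)
  have hl : 2 ≤ Real.log (8 * N) := by
    have hN1 : (1 : ℝ) ≤ N := by exact_mod_cast hN
    have h8 : Real.log 8 ≤ Real.log (8 * N) := Real.log_le_log (by norm_num) (by linarith)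
    have h8' : Real.log 8 = 3 * Real.log 2 := by
      rw [show (8 : ℝ) = 2 ^ 3 by norm_num, Real.log_pow]
      norm_num
    linarith
  have hLL0 : 0 ≤ LL q a N k := LL_nonneg hq hN
  have hk1 : (1 : ℝ) ≤ k := by exact_mod_cast hk
  obtain ⟨W, hWdef⟩ : ∃ W, W = Real.log q := ⟨_, rfl⟩
  obtain ⟨s, hsdef⟩ : ∃ s, s = slw q := ⟨_, rfl⟩
  obtain ⟨l, hldef⟩ : ∃ l, l = Real.log (8 * N) := ⟨_, rfl⟩
  obtain ⟨L, hLdef⟩ : ∃ L, L = LL q a N k := ⟨_, rfl⟩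
  obtain ⟨M, hMdef⟩ : ∃ M, M = ∑ p ∈ q.primeFactors, Real.log (mr q p) ^ 2 := ⟨_, rfl⟩
  rw [← hWdef] at hs hcon hWpos hsle hWlow
  rw [← hsdef] at hs hcon hspos hsle hslw
  rw [← hldef] at hs hl
  rw [← hLdef] at hLL0
  rw [← hMdef] at hslw
  obtain ⟨r, hrdef⟩ : ∃ r, r = W ^ 2 / s := ⟨_, rfl⟩
  have hrs : r * s = W ^ 2 := by rw [hrdef]; exact div_mul_cancel₀ _ hspos.ne'
  have hr1 : 1 ≤ r := by rw [hrdef]; exact (one_le_div hspos).2 hsle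
  have hr0 : 0 ≤ r := by linarith
  -- 2000 k^2 l r ≤ W
  have hkl : 0 ≤ 2000 * (k : ℝ) ^ 2 * l := by positivity
  have hWr : 2000 * (k : ℝ) ^ 2 * l * r ≤ W := by
    have h1 : 2000 * (k : ℝ) ^ 2 * l * r * s ≤ W * s := by
      calc 2000 * (k : ℝ) ^ 2 * l * r * s = 2000 * (k : ℝ) ^ 2 * l * (r * s) := by ring
        _ = (2000 * (k : ℝ) ^ 2 * l * W) * W := by rw [hrs]; ring
        _ ≤ s * W := mul_le_mul_of_nonneg_right hs hWpos.le
        _ = W * s := by ring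
    exact le_of_mul_le_mul_right h1 hspos
  have hs18 : 18 ≤ s := by
    have hk2 : 1 ≤ (k : ℝ) ^ 2 := one_le_pow₀ hk1
    have h1 : 2000 * 1 * 2 * Real.log 2 ≤ 2000 * (k : ℝ) ^ 2 * l * W := by
      gcongr
    have h2 : (0.69 : ℝ) ≤ Real.log 2 := by linarith
    linarith
  have hMs : s ≤ 4 * M := by linarith
  -- number of subsets
  have hchoose : 17 * r < (S.card.choose k : ℝ) := by
    have h1 : 17 * r * s < (S.card.choose k : ℝ) * s := by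
      calc 17 * r * s = 17 * (r * s) := by ring
        _ = 17 * W ^ 2 := by rw [hrs]
        _ < _ := hcon
    exact lt_of_mul_lt_mul_right h1 hspos.le
  obtain ⟨n, hndef⟩ : ∃ n, n = ⌊16 * r⌋₊ + 1 := ⟨_, rfl⟩
  have hn1 : 16 * r < n := by rw [hndef]; push_cast; exact Nat.lt_floor_add_one _
  have hn2 : (n : ℝ) ≤ 17 * r := by
    have h1 : (⌊16 * r⌋₊ : ℝ) ≤ 16 * r := Nat.floor_le (by positivity)
    rw [hndef]; push_cast; linarith
  have hn3 : n ≤ (S.powersetCard k).card := by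
    rw [Finset.card_powersetCard]
    have : (n : ℝ) ≤ (S.card.choose k : ℝ) := by linarith
    exact_mod_cast this
  obtain ⟨I, hI, hIc⟩ := Finset.exists_subset_card_eq hn3
  -- K
  have hsq : 1 ≤ Real.sqrt r := by
    rw [show (1 : ℝ) = Real.sqrt 1 by simp]
    exact Real.sqrt_le_sqrt hr1
  have hsqr : Real.sqrt r ^ 2 = r := Real.sq_sqrt hr0
  obtain ⟨K, hKdef⟩ : ∃ K, K = ⌈5 * (k : ℝ) * Real.sqrt r⌉₊ := ⟨_, rfl⟩
  have hK1 : 5 * (k : ℝ) * Real.sqrt r ≤ K := by rw [hKdef]; exact Nat.le_ceil _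
  have hksq : 1 ≤ (k : ℝ) * Real.sqrt r := by nlinarith
  have hK2 : (K : ℝ) ≤ 6 * (k : ℝ) * Real.sqrt r := by
    have h1 : (K : ℝ) < 5 * (k : ℝ) * Real.sqrt r + 1 := by
      rw [hKdef]; exact Nat.ceil_lt_add_one (by positivity)
    linarith
  have hkK : k ≤ K := by
    have h1 : (k : ℝ) ≤ K := by
      have h2 : (k : ℝ) * 1 ≤ k * Real.sqrt r := mul_le_mul_of_nonneg_left hsq (by positivity)
      linarith
    exact_mod_cast h1
  have hK0 : (0 : ℝ) < K := by linarith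
  have hKsq : (K : ℝ) ^ 2 ≤ 36 * (k : ℝ) ^ 2 * r := by
    calc (K : ℝ) ^ 2 ≤ (6 * (k : ℝ) * Real.sqrt r) ^ 2 := pow_le_pow_left₀ hK0.le hK2 2
      _ = 36 * (k : ℝ) ^ 2 * Real.sqrt r ^ 2 := by ring
      _ = _ := by rw [hsqr]
  have hKsq' : 25 * (k : ℝ) ^ 2 * r ≤ (K : ℝ) ^ 2 := by
    calc 25 * (k : ℝ) ^ 2 * r = (5 * (k : ℝ) * Real.sqrt r) ^ 2 := by
          rw [mul_pow, mul_pow, hsqr]; norm_num
      _ ≤ (K : ℝ) ^ 2 := pow_le_pow_left₀ (by positivity) hK1 2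
  have hl0 : 0 ≤ l := by linarith
  have hW50 : 50 * (K : ℝ) ^ 2 * l ≤ W := by
    calc 50 * (K : ℝ) ^ 2 * l ≤ 50 * (36 * (k : ℝ) ^ 2 * r) * l := by gcongr
      _ = (2000 * (k : ℝ) ^ 2 * l * r) - 200 * (k : ℝ) ^ 2 * l * r := by ring
      _ ≤ 2000 * (k : ℝ) ^ 2 * l * r := by
        have : 0 ≤ 200 * (k : ℝ) ^ 2 * l * r := by positivity
        linarith
      _ ≤ W := hWr
  have hrank := rank_ineq hq2 ha hN hc hS hk hkK (by rw [← hWdef, ← hldef]; exact hW50) I hI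
  rw [hIc, ← hWdef, ← hLdef, ← hMdef] at hrank
  have hfac : (n : ℝ) * ((k : ℝ) / K) ^ 2 ≤ 1 := by
    rw [div_pow, mul_div_assoc', div_le_one (by positivity)]
    calc (n : ℝ) * (k : ℝ) ^ 2 ≤ 17 * r * (k : ℝ) ^ 2 := by gcongr
      _ ≤ 25 * (k : ℝ) ^ 2 * r := by
        have : 0 ≤ 8 * (k : ℝ) ^ 2 * r := by positivity
        linarith
      _ ≤ _ := hKsq'
  have h1 : (n : ℝ) * (M + L ^ 2) ≤ 4 * (W ^ 2 + L ^ 2) := by
    calc (n : ℝ) * (M + L ^ 2) ≤ (W + L) ^ 2 * (1 + n * ((k : ℝ) / K) ^ 2) := hrank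
      _ ≤ (W + L) ^ 2 * 2 := by
        apply mul_le_mul_of_nonneg_left _ (sq_nonneg _)
        linarith
      _ ≤ 4 * (W ^ 2 + L ^ 2) := by nlinarith [sq_nonneg (W - L)]
  have h2 : 4 * W ^ 2 < n * M := by
    have h3 : 16 * r * s < n * s := mul_lt_mul_of_pos_right hn1 hspos
    have h4 : (n : ℝ) * s ≤ n * (4 * M) := mul_le_mul_of_nonneg_left hMs (by positivity)
    have h5 : 16 * r * s = 16 * W ^ 2 := by rw [mul_assoc, hrs]
    linarith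
  have h3 : 4 * L ^ 2 ≤ n * L ^ 2 := by
    have : (4 : ℝ) ≤ n := by linarith
    exact mul_le_mul_of_nonneg_right this (sq_nonneg _)
  have h4 : (n : ℝ) * (M + L ^ 2) = n * M + n * L ^ 2 := by ring
  linarith

end Pool.Agent.Lib.MP_2c6f70_nt.KW
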