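import Pool.Agent.Lib.MP_2c6f70_nt.KW.Cor
import Pool.Agent.Lib.MP_2c6f70_nt.Low2

/-!
# JOB Pow: the strong form for perfect powers

Let `C` be the constant of `strong_ineq`, `E = ⌈4 C (A + 1)^2⌉ + 1`.  Suppose `Q N q a > Q N 24 1`, `q = b^e`, `N` large.  `big_facts`: `D = ω(q) = ω(b) ≥ sqrt N` (`Nat.primeFactors_pow`, `e ≠ 0`), so `b ≥ 2`,
`log D ≥ (1/2) log N ≥ 2`, and `D ≤ N^A`.  Apply `strong_ineq` with `r = D`: `log D ≤ A log N ≤ N^(1/4)` for `N` large; `(log q)^2 ≤ D slw q` (Cauchy-Schwarz `sq_sum_le_card_mul_sum_sq`,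
`log q = ∑ log p^e`, `Nat.factorization_prod_pow_eq_self`).  `log b ≥ D (log D - 1) ≥ (D/4) log N` (`log_ge'` in `Low2.lean`), `log q = e log b`; so `slw q log N ≥ (log q) (log q / D) log N ≥ (log q) (e / 4) (log N)^2`
`≥ C (A+1)^2 (log N)^2 log q ≥ C (log N + log D)^2 log q`.
-/

set_option autoImplicit false

namespace Pool.Agent.Lib.MP_2c6f70_nt.KW

open Necdea073

theorem pow_ineq : ∀ A : ℕ, ∃ E N₀ : ℕ, ∀ N ≥ N₀, ∀ b e a : ℕ, E ≤ e → IsNontrivial (b ^ e) a →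
    b.primeFactors.card ≤ N ^ A → Q N (b ^ e) a ≤ Q N 24 1 := by
  intro A
  obtain ⟨C, hC, N₁, h1⟩ := strong_ineq
  obtain ⟨N₂, h2⟩ := big_facts
  have hev : ∃ N₃ : ℕ, ∀ N ≥ N₃, (A : ℝ) * Real.log N ≤ (N : ℝ) ^ (1 / 4 : ℝ) := by
    have hlo := (isLittleO_log_rpow_atTop (show (0 : ℝ) < 1 / 4 by norm_num)).def
      (show (0 : ℝ) < 1 / ((A : ℝ) + 1) by positivity)
    have hlo2 := tendsto_natCast_atTop_atTop.eventually hlo
    obtain ⟨N₃, h3⟩ := Filter.eventually_atTop.1 hlo2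
    refine ⟨max N₃ 1, fun N hN => ?_⟩
    have hN3 : N₃ ≤ N := le_trans (le_max_left _ _) hN
    have hN1 : 1 ≤ N := le_trans (le_max_right _ _) hN
    have h4 := h3 N hN3
    have hN0 : (1 : ℝ) ≤ N := by exact_mod_cast hN1
    have hlog : 0 ≤ Real.log N := Real.log_nonneg hN0
    have hpow : 0 ≤ (N : ℝ) ^ (1 / 4 : ℝ) := by positivity
    rw [Real.norm_of_nonneg hlog, Real.norm_of_nonneg hpow] at h4
    have hA : (0 : ℝ) < (A : ℝ) + 1 := by positivity
    have h5 : ((A : ℝ) + 1) * Real.log N ≤ (N : ℝ) ^ (1 / 4 : ℝ) := by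
      have h6 := mul_le_mul_of_nonneg_left h4 hA.le
      have h7 : ((A : ℝ) + 1) * (1 / ((A : ℝ) + 1) * (N : ℝ) ^ (1 / 4 : ℝ))
          = (N : ℝ) ^ (1 / 4 : ℝ) := by
        field_simp
      linarith
    linarith
  obtain ⟨N₃, h3⟩ := hev
  refine ⟨⌈4 * C * ((A : ℝ) + 1) ^ 2⌉₊ + 1, max (max N₁ N₂) (max N₃ 3000), ?_⟩
  intro N hN b e a he hqa hbA
  by_contra hlt
  rw [not_le] at hlt
  have hN1 : N₁ ≤ N := le_trans (le_trans (le_max_left _ _) (le_max_left _ _)) hN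
  have hN2 : N₂ ≤ N := le_trans (le_trans (le_max_right _ _) (le_max_left _ _)) hN
  have hN3 : N₃ ≤ N := le_trans (le_trans (le_max_left _ _) (le_max_right _ _)) hN
  have hNb : 3000 ≤ N := le_trans (le_trans (le_max_right _ _) (le_max_right _ _)) hN
  have hNr : (3000 : ℝ) ≤ N := by exact_mod_cast hNb
  have hN0 : (0 : ℝ) < N := by linarith
  obtain ⟨hq2, -, hD⟩ := h2 N hN2 (b ^ e) a hqa hlt
  have he0 : e ≠ 0 := by omega
  rw [Nat.primeFactors_pow b he0] at hD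
  -- the logarithm
  obtain ⟨lam, hlam⟩ : ∃ lam : ℝ, lam = Real.log N := ⟨_, rfl⟩
  have hlam8 : 8 ≤ lam := by
    rw [hlam, Real.le_log_iff_exp_le hN0]
    have h2 : Real.exp 8 = Real.exp 1 ^ 8 := by
      rw [← Real.exp_nat_mul]
      norm_num
    rw [h2]
    have h3 : Real.exp 1 ^ 8 ≤ (2.7182818286 : ℝ) ^ 8 :=
      pow_le_pow_left₀ (Real.exp_pos 1).le Real.exp_one_lt_d9.le 8
    refine le_trans h3 (le_trans ?_ hNr)
    norm_num
  obtain ⟨D, hDe⟩ : ∃ D : ℝ, D = (b.primeFactors.card : ℝ) := ⟨_, rfl⟩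
  rw [← hDe] at hD
  have hs1 : 1 ≤ Real.sqrt N := by
    rw [Real.one_le_sqrt]
    linarith
  have hD1 : 1 ≤ D := le_trans hs1 hD
  have hD0 : 0 < D := by linarith
  have hlD : lam / 2 ≤ Real.log D := by
    rw [hlam, ← Real.log_sqrt hN0.le]
    exact Real.log_le_log (by linarith) hD
  have hlDA : Real.log D ≤ A * lam := by
    have h4 : D ≤ (N : ℝ) ^ A := by
      rw [hDe]
      exact_mod_cast hbA
    have h5 := Real.log_le_log hD0 h4
    rw [Real.log_pow, ← hlam] at h5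
    exact h5
  have hcard : 1 ≤ b.primeFactors.card := by
    have h4 : (1 : ℝ) ≤ (b.primeFactors.card : ℝ) := by
      rw [← hDe]
      exact hD1
    exact_mod_cast h4
  have hb0 : b ≠ 0 := by
    intro h
    rw [h] at hcard
    simp at hcard
  have hq0 : b ^ e ≠ 0 := pow_ne_zero e hb0
  -- Cauchy-Schwarz
  have hlq : Real.log ((b ^ e : ℕ) : ℝ)
      = ∑ p ∈ (b ^ e).primeFactors, Real.log ((p : ℝ) ^ (b ^ e).factorization p) := by
    have h4 := Md_prod hq0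
    have h5 : ((b ^ e : ℕ) : ℝ) = ∏ p ∈ (b ^ e).primeFactors, ((p : ℝ) ^ (b ^ e).factorization p) := by
      conv_lhs => rw [← h4]
      push_cast
      rfl
    rw [h5, Real.log_prod]
    intro p hp
    have hpp := (Nat.prime_of_mem_primeFactors hp).pos
    have : (0 : ℝ) < p := by exact_mod_cast hpp
    positivity
  obtain ⟨L, hL⟩ : ∃ L : ℝ, L = Real.log ((b ^ e : ℕ) : ℝ) := ⟨_, rfl⟩
  have hCS : L ^ 2 ≤ D * slw (b ^ e) := by
    rw [hL, hlq]
    unfold slw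
    have h4 := sq_sum_le_card_mul_sum_sq (s := (b ^ e).primeFactors)
      (f := fun p => Real.log ((p : ℝ) ^ (b ^ e).factorization p))
    rw [Nat.primeFactors_pow b he0] at h4 ⊢
    rw [hDe]
    exact h4
  have hLb : L = e * Real.log b := by
    rw [hL]
    push_cast
    rw [Real.log_pow]
  have hb := log_ge' hb0 hcard
  rw [← hDe] at hb
  have hb2 : D * (lam / 4) ≤ Real.log b := by
    have h4 : lam / 4 ≤ Real.log D - 1 := by linarith
    have h5 := mul_le_mul_of_nonneg_left h4 hD0.le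
    linarith
  have heC : 4 * C * ((A : ℝ) + 1) ^ 2 ≤ e := by
    have h4 := Nat.le_ceil (4 * C * ((A : ℝ) + 1) ^ 2)
    have h5 : (⌈4 * C * ((A : ℝ) + 1) ^ 2⌉₊ : ℝ) ≤ e := by
      have : ⌈4 * C * ((A : ℝ) + 1) ^ 2⌉₊ ≤ e := by omega
      exact_mod_cast this
    linarith
  have hlam0 : 0 < lam := by linarith
  have hlD0 : 0 ≤ Real.log D := by linarith
  have hDl : 0 ≤ D * (lam / 4) := by positivity
  have he00 : (0 : ℝ) ≤ e := Nat.cast_nonneg e
  have hL2 : (4 * C * ((A : ℝ) + 1) ^ 2) * (D * (lam / 4)) ≤ L := by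
    rw [hLb]
    exact mul_le_mul heC hb2 hDl he00
  have hL3 : D * (C * ((A : ℝ) + 1) ^ 2 * lam) ≤ L := by
    have : (4 * C * ((A : ℝ) + 1) ^ 2) * (D * (lam / 4)) = D * (C * ((A : ℝ) + 1) ^ 2 * lam) := by
      ring
    linarith
  have hL0 : 0 ≤ L := by
    refine le_trans ?_ hL3
    positivity
  -- the hypothesis of `strong_ineq`
  have hmain : C * (lam + Real.log D) ^ 2 * L ≤ lam * slw (b ^ e) := by
    have h4 : lam + Real.log D ≤ ((A : ℝ) + 1) * lam := by linarith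
    have h5 : (lam + Real.log D) ^ 2 ≤ (((A : ℝ) + 1) * lam) ^ 2 :=
      pow_le_pow_left₀ (by positivity) h4 2
    have h6 : C * (lam + Real.log D) ^ 2 * L ≤ C * (((A : ℝ) + 1) * lam) ^ 2 * L :=
      mul_le_mul_of_nonneg_right (mul_le_mul_of_nonneg_left h5 hC.le) hL0
    refine le_trans h6 ?_
    have h7 : D * (C * (((A : ℝ) + 1) * lam) ^ 2 * L) ≤ D * (lam * slw (b ^ e)) := by
      have h8 : D * (C * (((A : ℝ) + 1) * lam) ^ 2 * L)
          = (D * (C * ((A : ℝ) + 1) ^ 2 * lam)) * (lam * L) := by ring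
      have h9 : (D * (C * ((A : ℝ) + 1) ^ 2 * lam)) * (lam * L) ≤ L * (lam * L) :=
        mul_le_mul_of_nonneg_right hL3 (by positivity)
      have h10 : L * (lam * L) = lam * L ^ 2 := by ring
      have h11 : lam * L ^ 2 ≤ lam * (D * slw (b ^ e)) := mul_le_mul_of_nonneg_left hCS hlam0.le
      linarith
    exact le_of_mul_le_mul_left h7 hD0
  have hfin := h1 N hN1 D hD1 (by
    have := h3 N hN3
    rw [← hlam] at this
    linarith) (b ^ e) a hqa (by
      rw [← hL]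
      exact hCS) (by
      rw [← hL, ← hlam]
      exact hmain)
  omega

end Pool.Agent.Lib.MP_2c6f70_nt.KW
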