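import Pool.Agent.Lib.MP_2c6f70_nt.KW.CorB
import Pool.Agent.Lib.MP_2c6f70_nt.Psd

/-!
# The trace inequality for products of sign vectors

Abstract trace inequality: `trace_ineq_w` (file `Psd.lean`), used with the index set `insert 0 q.primeFactors` (`0` is not prime: the place at infinity), weights `w 0 = L`,
`w p = log (mr q p)` (nonnegative: `mr_pos`), the finite set `I` of `k`-subsets, and the signs `s 0 X = 1`, `s p X = ∏ x ∈ X, sg q z p x` (squares are `1`: `sg_sq`).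
For `X ≠ Y` in `I` with `J = X ∆ Y` (symmetric difference, `Finset.symmDiff`): `s p X * s p Y = ∏ x ∈ J, sg q z p x` (the squares over `X ∩ Y` are `1`), `#J = 2 j`, `j = #(X \ Y) = #(Y \ X)`,
`1 ≤ j ≤ k`, `J ⊆ S`.  So the correlation is the sum in `corr_le`, at most `(k / (2K)) (W + L) + 25 K ℓ ≤ (k / K) (W + L)` in absolute value
(`25 K ℓ ≤ (k/(2K)) W` because `50 K^2 ℓ ≤ W` and `k ≥ 1`).  Diagonal: `∑ w = L + log ∏ mr ≤ W + L` (`prod_mr_le`).  `n = #I`:
`(∑ w^2) n^2 ≤ n (W+L)^2 + n^2 (k/K)^2 (W+L)^2`; divide by `n` (`n = 0` trivial).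
-/

set_option autoImplicit false

namespace Pool.Agent.Lib.MP_2c6f70_nt.KW

theorem Rank_prod {σ : ℕ → ℝ} (hσ : ∀ x, σ x * σ x = 1) (X Y : Finset ℕ) :
    (∏ x ∈ X, σ x) * (∏ x ∈ Y, σ x) = ∏ x ∈ (X \ Y) ∪ (Y \ X), σ x := by
  have h1 := Finset.prod_inter_mul_prod_sdiff X Y σ
  have h2 := Finset.prod_inter_mul_prod_sdiff Y X σ
  have h3 : (∏ x ∈ X ∩ Y, σ x) * (∏ x ∈ X ∩ Y, σ x) = 1 := by
    rw [← Finset.prod_mul_distrib]
    exact Finset.prod_eq_one fun x _ => hσ x
  rw [Finset.prod_union disjoint_sdiff_sdiff, ← h1, ← h2, Finset.inter_comm Y X]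
  calc _ = ((∏ x ∈ X ∩ Y, σ x) * (∏ x ∈ X ∩ Y, σ x)) *
        ((∏ x ∈ X \ Y, σ x) * ∏ x ∈ Y \ X, σ x) := by ring
    _ = _ := by rw [h3, one_mul]

theorem Rank_card {k : ℕ} {X Y : Finset ℕ} (hX : X.card = k) (hY : Y.card = k) (hne : X ≠ Y) :
    ((X \ Y) ∪ (Y \ X)).card = 2 * (X \ Y).card ∧ 1 ≤ (X \ Y).card ∧ (X \ Y).card ≤ k := by
  have h1 := Finset.card_sdiff_add_card_inter X Y
  have h2 := Finset.card_sdiff_add_card_inter Y X
  rw [Finset.inter_comm Y X] at h2
  refine ⟨?_, ?_, ?_⟩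
  · rw [Finset.card_union_of_disjoint disjoint_sdiff_sdiff]
    omega
  · by_contra h
    have h3 : X \ Y = ∅ := Finset.card_eq_zero.1 (by omega)
    have h4 : X ⊆ Y := Finset.sdiff_eq_empty_iff_subset.1 h3
    exact hne (Finset.eq_of_subset_of_card_le h4 (by omega))
  · omega

theorem rank_ineq {q a N K k : ℕ} {S : Finset ℕ} (hq : 2 ≤ q) (ha : 1 ≤ a) (hN : 1 ≤ N)
    (hc : Nat.Coprime q a) (hS : Rts q a N S) (hk : 1 ≤ k) (hkK : k ≤ K)
    (hW : 50 * (K : ℝ) ^ 2 * Real.log (8 * N) ≤ Real.log q)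
    (I : Finset (Finset ℕ)) (hI : I ⊆ S.powersetCard k) :
    (I.card : ℝ) * (∑ p ∈ q.primeFactors, Real.log (mr q p) ^ 2 + LL q a N k ^ 2) ≤
      (Real.log q + LL q a N k) ^ 2 * (1 + I.card * ((k : ℝ) / K) ^ 2) := by
  classical
  have hq1 : 1 ≤ q := by omega
  have hq0 : q ≠ 0 := by omega
  have hL0 : 0 ≤ LL q a N k := LL_nonneg hq1 hN
  have hW0 : 0 ≤ Real.log q := Real.log_natCast_nonneg q
  have hK1 : 1 ≤ K := hk.trans hkK
  have hKr : (1 : ℝ) ≤ K := by exact_mod_cast hK1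
  have hkr : (1 : ℝ) ≤ k := by exact_mod_cast hk
  rcases S.eq_empty_or_nonempty with hSe | ⟨z, hz⟩
  · have hIe : I = ∅ := by
      rw [Finset.eq_empty_iff_forall_notMem]
      intro X hX
      have h1 := Finset.mem_powersetCard.1 (hI hX)
      rw [hSe] at h1
      have h2 : X = ∅ := Finset.subset_empty.1 h1.1
      rw [h2, Finset.card_empty] at h1
      omega
    rw [hIe, Finset.card_empty]
    push_cast
    nlinarith [sq_nonneg (Real.log q + LL q a N k)]
  have h0 : (0 : ℕ) ∉ q.primeFactors := fun h => (Nat.prime_of_mem_primeFactors h).ne_zero rfl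
  let w : ℕ → ℝ := fun p => if p = 0 then LL q a N k else Real.log (mr q p)
  let s : ℕ → Finset ℕ → ℝ := fun p X => if p = 0 then 1 else ∏ x ∈ X, sg q z p x
  have hw0 : w 0 = LL q a N k := if_pos rfl
  have hp0 : ∀ p ∈ q.primeFactors, p ≠ 0 := fun p hp =>
    (Nat.prime_of_mem_primeFactors hp).ne_zero
  have hwp : ∀ p ∈ q.primeFactors, w p = Real.log (mr q p) := fun p hp => if_neg (hp0 p hp)
  have hs0 : ∀ X, s 0 X = 1 := fun X => if_pos rfl
  have hsp : ∀ p ∈ q.primeFactors, ∀ X, s p X = ∏ x ∈ X, sg q z p x := fun p hp X =>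
    if_neg (hp0 p hp)
  have hmr : ∀ p ∈ q.primeFactors, 0 ≤ Real.log (mr q p) := fun p _ =>
    Real.log_natCast_nonneg _
  have hss : ∀ p ∈ insert 0 q.primeFactors, ∀ X ∈ I, s p X * s p X = 1 := by
    intro p hp X _
    rcases Finset.mem_insert.1 hp with rfl | hp
    · rw [hs0, one_mul]
    · rw [hsp p hp, ← Finset.prod_mul_distrib]
      exact Finset.prod_eq_one fun x _ => sg_sq q z p x
  have key := trace_ineq_w (insert 0 q.primeFactors) I w (by
    intro p hp
    rcases Finset.mem_insert.1 hp with rfl | hp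
    · rw [hw0]
      exact hL0
    · rw [hwp p hp]
      exact hmr p hp) s hss
  have hdiag : ∀ X ∈ I, |∑ p ∈ insert 0 q.primeFactors, w p * (s p X * s p X)| ≤
      Real.log q + LL q a N k := by
    intro X hX
    have e : ∑ p ∈ insert 0 q.primeFactors, w p * (s p X * s p X) =
        LL q a N k + ∑ p ∈ q.primeFactors, Real.log (mr q p) := by
      rw [Finset.sum_insert h0, hw0, hss 0 (Finset.mem_insert_self _ _) X hX, mul_one]
      congr 1
      refine Finset.sum_congr rfl fun p hp => ?_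
      rw [hwp p hp, hss p (Finset.mem_insert_of_mem hp) X hX, mul_one]
    have h1 : ∑ p ∈ q.primeFactors, Real.log (mr q p) ≤ Real.log q := by
      have h2 : ∀ p ∈ q.primeFactors, ((mr q p : ℕ) : ℝ) ≠ 0 := fun p hp => by
        have := mr_pos hp
        positivity
      rw [← Real.log_prod h2]
      have h3 : (∏ p ∈ q.primeFactors, ((mr q p : ℕ) : ℝ)) ≤ q := by
        exact_mod_cast (prod_mr_le hq0).1
      refine Real.log_le_log ?_ h3
      exact Finset.prod_pos fun p hp => by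
        have := mr_pos hp
        positivity
    rw [e, abs_of_nonneg (add_nonneg hL0 (Finset.sum_nonneg hmr))]
    linarith
  have hoff : ∀ X ∈ I, ∀ Y ∈ I, X ≠ Y →
      |∑ p ∈ insert 0 q.primeFactors, w p * (s p X * s p Y)| ≤
        (k : ℝ) / K * (Real.log q + LL q a N k) := by
    intro X hX Y hY hne
    have hX1 := Finset.mem_powersetCard.1 (hI hX)
    have hY1 := Finset.mem_powersetCard.1 (hI hY)
    obtain ⟨hc1, hj1, hj2⟩ := Rank_card hX1.2 hY1.2 hne
    have hJ : (X \ Y) ∪ (Y \ X) ⊆ S :=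
      Finset.union_subset (Finset.sdiff_subset.trans hX1.1) (Finset.sdiff_subset.trans hY1.1)
    have h1 := corr_le hq ha hN hc hS hJ hc1 hj1 hj2 hkK hW hz
    have e : ∑ p ∈ insert 0 q.primeFactors, w p * (s p X * s p Y) =
        ∑ p ∈ q.primeFactors, Real.log (mr q p) * ∏ x ∈ (X \ Y) ∪ (Y \ X), sg q z p x +
          LL q a N k := by
      rw [Finset.sum_insert h0, hw0, hs0, hs0, mul_one, mul_one, add_comm]
      congr 1
      refine Finset.sum_congr rfl fun p hp => ?_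
      rw [hwp p hp, hsp p hp, hsp p hp, Rank_prod (fun x => sg_sq q z p x)]
    rw [e]
    refine h1.trans ?_
    have hjr : (((X \ Y).card : ℕ) : ℝ) ≤ k := by exact_mod_cast hj2
    have hK0 : (0 : ℝ) < K := by linarith
    have h2 : ((((X \ Y).card : ℕ) : ℝ) - 1) / (2 * K) * (Real.log q + LL q a N k) ≤
        (k : ℝ) / (2 * K) * (Real.log q + LL q a N k) := by
      apply mul_le_mul_of_nonneg_right _ (by linarith)
      apply div_le_div_of_nonneg_right _ (by linarith)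
      linarith
    have h3 : 25 * (K : ℝ) * Real.log (8 * N) ≤ (k : ℝ) / (2 * K) * Real.log q := by
      have h4 : 25 * (K : ℝ) * Real.log (8 * N) =
          1 / (2 * K) * (50 * (K : ℝ) ^ 2 * Real.log (8 * N)) := by
        field_simp
        ring
      rw [h4]
      have h5 : (1 : ℝ) / (2 * K) ≤ (k : ℝ) / (2 * K) :=
        div_le_div_of_nonneg_right hkr (by linarith)
      have h6 : 0 ≤ 1 / (2 * (K : ℝ)) := by positivity
      calc _ ≤ 1 / (2 * (K : ℝ)) * Real.log q := mul_le_mul_of_nonneg_left hW h6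
        _ ≤ _ := mul_le_mul_of_nonneg_right h5 hW0
    have h7 : (k : ℝ) / K * (Real.log q + LL q a N k) =
        (k : ℝ) / (2 * K) * (Real.log q + LL q a N k) +
        (k : ℝ) / (2 * K) * Real.log q + (k : ℝ) / (2 * K) * LL q a N k := by
      field_simp
      ring
    have h8 : 0 ≤ (k : ℝ) / (2 * K) * LL q a N k := by positivity
    rw [h7]
    linarith
  have hsum : (∑ p ∈ insert 0 q.primeFactors, w p ^ 2) =
      ∑ p ∈ q.primeFactors, Real.log (mr q p) ^ 2 + LL q a N k ^ 2 := by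
    rw [Finset.sum_insert h0, hw0, add_comm]
    congr 1
    exact Finset.sum_congr rfl fun p hp => by rw [hwp p hp]
  rw [hsum] at key
  set M : ℝ := Real.log q + LL q a N k with hM
  set R : ℝ := (k : ℝ) / K with hR
  have hM0 : 0 ≤ M := by linarith
  have hR0 : 0 ≤ R := by positivity
  have hbound : ∑ X ∈ I, ∑ Y ∈ I, (∑ p ∈ insert 0 q.primeFactors, w p * (s p X * s p Y)) ^ 2 ≤
      ∑ X ∈ I, ∑ Y ∈ I, ((if X = Y then M ^ 2 else 0) + (R * M) ^ 2) := by
    refine Finset.sum_le_sum fun X hX => Finset.sum_le_sum fun Y hY => ?_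
    split_ifs with hXY
    · subst hXY
      have h1 := sq_le_sq' (abs_le.1 (hdiag X hX)).1 (abs_le.1 (hdiag X hX)).2
      nlinarith [sq_nonneg (R * M)]
    · have h1 := sq_le_sq' (abs_le.1 (hoff X hX Y hY hXY)).1 (abs_le.1 (hoff X hX Y hY hXY)).2
      linarith
  have hcomp : ∑ X ∈ I, ∑ Y ∈ I, ((if X = Y then M ^ 2 else 0) + (R * M) ^ 2) =
      I.card * (M ^ 2 * (1 + I.card * R ^ 2)) := by
    have h1 : ∀ X ∈ I, ∑ Y ∈ I, ((if X = Y then M ^ 2 else 0) + (R * M) ^ 2) =
        M ^ 2 * (1 + I.card * R ^ 2) := by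
      intro X hX
      rw [Finset.sum_add_distrib, Finset.sum_ite_eq, if_pos hX, Finset.sum_const, nsmul_eq_mul]
      ring
    rw [Finset.sum_congr rfl h1, Finset.sum_const, nsmul_eq_mul]
  rw [hcomp] at hbound
  have hfin := key.trans hbound
  rcases Nat.eq_zero_or_pos I.card with hn | hn
  · rw [hn]
    push_cast
    nlinarith [sq_nonneg M]
  · have hnr : (0 : ℝ) < I.card := by exact_mod_cast hn
    refine le_of_mul_le_mul_left ?_ hnr
    calc _ = (∑ p ∈ q.primeFactors, Real.log (mr q p) ^ 2 + LL q a N k ^ 2) *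
          (I.card : ℝ) ^ 2 := by ring
      _ ≤ _ := hfin

end Pool.Agent.Lib.MP_2c6f70_nt.KW
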