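import Pool.Agent.Lib.MP_2c6f70_nt.KW.Defs

/-!
# JOB Ser: integral square roots of products of `1 + 4 n X`

Mathlib: `PowerSeries.catalanSeries`, `catalanSeries_sq_mul_X_add_one : catalanSeries ^ 2 * X + 1 = catalanSeries` (over `ℕ`; map to `ℤ`).
-/

set_option autoImplicit false

namespace Pool.Agent.Lib.MP_2c6f70_nt.KW

open PowerSeries

theorem Ser_catalan_le (i : ℕ) : catalan i ≤ 4 ^ i := by
  rw [catalan_eq_centralBinom_div]
  refine (Nat.div_le_self _ _).trans ?_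
  rw [Nat.centralBinom_eq_two_mul_choose]
  refine (Nat.choose_le_two_pow (2 * i) i).trans ?_
  rw [pow_mul]
  norm_num

/-- Let `c` be the Catalan series over `ℤ` (`c = 1 + X c^2`) and `c'` the series with coefficients `catalan i * (-n)^i`
(`PowerSeries.rescale (-n) c`), so `c' = 1 - n X c'^2`.  `h = 1 + 2 n X c'`; `h^2 = 1 + 4 n X c' + 4 n^2 X^2 c'^2 = 1 + 4 n X (c' + n X c'^2) = 1 + 4 n X`.
Coefficients: `h_0 = 1` and `h_i = 2 n (-n)^(i-1) catalan (i-1)` for `i ≥ 1`; `catalan (i-1) ≤ 4^(i-1)`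
(`catalan_eq_centralBinom_div`, `Nat.centralBinom = (2 n).choose n ≤ 2^(2n)` : `Nat.choose_le_two_pow`), so `|h_i| ≤ 2 * 4^(i-1) * n^i ≤ (4 n)^i`. -/
theorem sqrt_one (n : ℕ) : ∃ h : PowerSeries ℤ, h ^ 2 = 1 + C (4 * (n : ℤ)) * X ∧ coeff 0 h = 1 ∧
    ∀ i, |coeff i h| ≤ (4 * (n : ℤ)) ^ i := by
  obtain ⟨c, hcdef⟩ : ∃ c : PowerSeries ℤ, c = rescale (-(n : ℤ)) (map (Nat.castRingHom ℤ) catalanSeries) :=
    ⟨_, rfl⟩
  have hc : c ^ 2 * (C (-(n : ℤ)) * X) + 1 = c := by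
    have h1 := congrArg (fun s => rescale (-(n : ℤ)) (map (Nat.castRingHom ℤ) s))
      catalanSeries_sq_mul_X_add_one
    simp only [map_add, map_mul, map_pow, map_one, map_X, rescale_X] at h1
    rw [← hcdef] at h1
    exact h1
  have hcc : ∀ i, coeff i c = (-(n : ℤ)) ^ i * (catalan i : ℤ) := by
    intro i
    rw [hcdef, coeff_rescale, coeff_map, catalanSeries_coeff]
    rfl
  have hC : C (-(n : ℤ)) = -(C (n : ℤ) : PowerSeries ℤ) := by rw [map_neg]
  have hC2 : (C (2 * (n : ℤ)) : PowerSeries ℤ) = 2 * C (n : ℤ) := by rw [map_mul]; rfl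
  have hC4 : (C (4 * (n : ℤ)) : PowerSeries ℤ) = 4 * C (n : ℤ) := by rw [map_mul]; rfl
  refine ⟨1 + X * (C (2 * (n : ℤ)) * c), ?_, ?_, ?_⟩
  · rw [hC] at hc
    rw [hC2, hC4]
    linear_combination (-4 * C (n : ℤ) * X) * hc
  · rw [map_add, coeff_zero_X_mul, add_zero, coeff_zero_one]
  · intro i
    cases i with
    | zero =>
      rw [map_add, coeff_zero_X_mul, add_zero, coeff_zero_one, pow_zero, abs_one]
    | succ i =>
      rw [map_add, coeff_succ_X_mul, coeff_C_mul, hcc, coeff_one, if_neg (Nat.succ_ne_zero i),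
        zero_add, abs_mul, abs_of_nonneg (by positivity : (0 : ℤ) ≤ 2 * (n : ℤ)), abs_mul, abs_pow,
        abs_neg, Nat.abs_cast, Nat.abs_cast]
      have h2 : (catalan i : ℤ) ≤ 4 ^ i := by exact_mod_cast Ser_catalan_le i
      have hn : (0 : ℤ) ≤ n := Int.natCast_nonneg n
      calc 2 * (n : ℤ) * ((n : ℤ) ^ i * (catalan i : ℤ)) ≤ 2 * (n : ℤ) * ((n : ℤ) ^ i * 4 ^ i) := by
            gcongr
        _ ≤ 4 * (n : ℤ) * ((n : ℤ) ^ i * 4 ^ i) := by
            gcongr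
            norm_num
        _ = (4 * (n : ℤ)) ^ (i + 1) := by ring

theorem Ser_geom (i : ℕ) : ∑ k ∈ Finset.range (i + 1), (2 : ℤ) ^ k = 2 ^ (i + 1) - 1 := by
  induction i with
  | zero => norm_num
  | succ i ih => rw [Finset.sum_range_succ, ih]; ring

theorem Ser_conv (M : ℤ) (hM : 0 ≤ M) (i : ℕ) :
    ∑ p ∈ Finset.HasAntidiagonal.antidiagonal i, (2 * M) ^ p.1 * M ^ p.2 ≤ 2 * (2 * M) ^ i := by
  rw [Finset.Nat.sum_antidiagonal_eq_sum_range_succ_mk]
  have h1 : ∀ k ∈ Finset.range i.succ, (2 * M) ^ k * M ^ (i - k) = M ^ i * 2 ^ k := by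
    intro k hk
    rw [Finset.mem_range] at hk
    have h2 : M ^ i = M ^ k * M ^ (i - k) := by rw [← pow_add]; congr 1; omega
    rw [h2, mul_pow]
    ring
  rw [Finset.sum_congr rfl h1, ← Finset.mul_sum, Ser_geom]
  have h3 : 0 ≤ M ^ i := pow_nonneg hM i
  have h4 : 2 * (2 * M) ^ i = M ^ i * 2 ^ (i + 1) := by rw [mul_pow]; ring
  rw [h4]
  nlinarith

/-- Induction on `J`: if `|g_a| ≤ 2^c (8 N)^a` and `|h_b| ≤ (4 N)^b` then the coefficient `i` of `g h` is at most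
`∑_{a+b=i} 2^c (8N)^a (4N)^b ≤ 2^c (8N)^i ∑_b 2^(-b) ≤ 2^(c+1) (8 N)^i`; in integers: multiply by `2^i`:
`2^b (4N)^b = (8 N)^b`, and `∑_{b ≤ i} 2^(i-b) ≤ 2 * 2^i`. -/
theorem exists_sqrt {ι : Type*} (J : Finset ι) (n : ι → ℕ) (N : ℕ) (hN : ∀ x ∈ J, n x ≤ N) :
    ∃ g : PowerSeries ℤ, g ^ 2 = ∏ x ∈ J, (1 + C (4 * (n x : ℤ)) * X) ∧ coeff 0 g = 1 ∧
      ∀ i, |coeff i g| ≤ 2 ^ J.card * (8 * (N : ℤ)) ^ i := by
  classical
  induction J using Finset.induction_on with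
  | empty =>
    refine ⟨1, by simp, coeff_zero_one, fun i => ?_⟩
    rw [coeff_one]
    by_cases hi : i = 0
    · rw [if_pos hi, hi, abs_one, Finset.card_empty, pow_zero, pow_zero, mul_one]
    · rw [if_neg hi, abs_zero]
      positivity
  | insert x J hx ih =>
    obtain ⟨g, hg, hg0, hgi⟩ := ih fun y hy => hN y (Finset.mem_insert_of_mem hy)
    obtain ⟨h, hh, hh0, hhi⟩ := sqrt_one (n x)
    refine ⟨g * h, ?_, ?_, fun i => ?_⟩
    · rw [mul_pow, hg, hh, Finset.prod_insert hx, mul_comm]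
    · rw [coeff_zero_eq_constantCoeff_apply, map_mul, ← coeff_zero_eq_constantCoeff_apply,
        ← coeff_zero_eq_constantCoeff_apply, hg0, hh0, mul_one]
    · rw [coeff_mul]
      have hnx : (n x : ℤ) ≤ N := by exact_mod_cast hN x (Finset.mem_insert_self x J)
      have hn0 : (0 : ℤ) ≤ n x := Int.natCast_nonneg _
      have h1 : ∀ p ∈ Finset.HasAntidiagonal.antidiagonal i, |coeff p.1 g * coeff p.2 h| ≤
          2 ^ J.card * ((2 * (4 * (N : ℤ))) ^ p.1 * (4 * (N : ℤ)) ^ p.2) := by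
        intro p _
        rw [abs_mul]
        have h2 : |coeff p.2 h| ≤ (4 * (N : ℤ)) ^ p.2 :=
          (hhi p.2).trans (pow_le_pow_left₀ (by positivity) (by linarith) _)
        calc |coeff p.1 g| * |coeff p.2 h| ≤ (2 ^ J.card * (8 * (N : ℤ)) ^ p.1) * (4 * (N : ℤ)) ^ p.2 :=
              mul_le_mul (hgi p.1) h2 (abs_nonneg _) (by positivity)
          _ = 2 ^ J.card * ((2 * (4 * (N : ℤ))) ^ p.1 * (4 * (N : ℤ)) ^ p.2) := by
              rw [mul_assoc]
              congr 3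
              ring
      calc |∑ p ∈ Finset.HasAntidiagonal.antidiagonal i, coeff p.1 g * coeff p.2 h| ≤
            ∑ p ∈ Finset.HasAntidiagonal.antidiagonal i, |coeff p.1 g * coeff p.2 h| := Finset.abs_sum_le_sum_abs _ _
        _ ≤ ∑ p ∈ Finset.HasAntidiagonal.antidiagonal i,
            2 ^ J.card * ((2 * (4 * (N : ℤ))) ^ p.1 * (4 * (N : ℤ)) ^ p.2) := Finset.sum_le_sum h1
        _ = 2 ^ J.card * ∑ p ∈ Finset.HasAntidiagonal.antidiagonal i, ((2 * (4 * (N : ℤ))) ^ p.1 * (4 * (N : ℤ)) ^ p.2) := by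
            rw [Finset.mul_sum]
        _ ≤ 2 ^ J.card * (2 * (2 * (4 * (N : ℤ))) ^ i) := by
            refine mul_le_mul_of_nonneg_left (Ser_conv _ (by positivity) i) (by positivity)
        _ = 2 ^ (insert x J).card * (8 * (N : ℤ)) ^ i := by
            rw [Finset.card_insert_of_notMem hx, pow_succ]
            have h5 : (2 : ℤ) * (4 * (N : ℤ)) = 8 * N := by ring
            rw [h5]
            ring

end Pool.Agent.Lib.MP_2c6f70_nt.KW
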